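import Pool.Agent.H44.CDS.Layer

/-!
# The algorithm, on lists of natural numbers

`A` is an adjacency matrix, `Fs` the list of the known solutions, `B` a list of units (padding)
bounding the sizes of all intermediate lists.
-/

set_option autoImplicit false

namespace Pool.Agent.H44.CDS

/-- adjacency matrices -/
abbrev Mat := List (List Bool)

/-- states: the vertices forced in and the vertices forced out -/
abbrev St := List ℕ × List ℕ

/-- adjacency -/
def adj (A : Mat) (i j : ℕ) : Bool := (A.getD i []).getD j false

/-- `w` is dominated by `D` -/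
def dmn (A : Mat) (D : List ℕ) (w : ℕ) : Bool := D.any fun d => decide (d = w) || adj A w d

/-- the vertices of `D` in or next to `R` -/
def rstep (A : Mat) (D R : List ℕ) : List ℕ :=
  D.filter fun y => R.any fun x => decide (x = y) || adj A x y

/-- the vertices of `D` reachable from `x` -/
def rch (A : Mat) (D : List ℕ) (x : ℕ) : List ℕ := (rstep A D)^[D.length] [x]

/-- connectedness -/
def con (A : Mat) (D : List ℕ) : Bool :=
  D.head?.elim false fun x => D.all fun y => decide (y ∈ rch A D x)

/-- connected dominating sets -/
def cds (A : Mat) (D : List ℕ) : Bool :=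
  ((List.range A.length).all fun w => dmn A D w) && con A D

/-- the number of components -/
def ncomp (A : Mat) (T : List ℕ) : ℕ :=
  (T.filter fun t => T.all fun t' => decide (t ≤ t') || !decide (t' ∈ rch A T t)).length

/-- the number of vertices that are not dominated -/
def nund (A : Mat) (T : List ℕ) : ℕ := ((List.range A.length).filter fun w => !dmn A T w).length

/-- insertion -/
def ins (A : Mat) (v : ℕ) (T : List ℕ) : List ℕ :=
  (List.range A.length).filter fun x => decide (x = v) || decide (x ∈ T)

/-- the free vertices -/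
def free (A : Mat) (s : St) : List ℕ :=
  (List.range A.length).filter fun v => !decide (v ∈ s.1) && !decide (v ∈ s.2)

/-- all vertices forced in, and the free ones outside `S` -/
def rest (A : Mat) (s : St) (S : List ℕ) : List ℕ :=
  (List.range A.length).filter fun v => decide (v ∈ s.1) || (!decide (v ∈ s.2) && !decide (v ∈ S))

/-- union -/
def plus (A : Mat) (T X : List ℕ) : List ℕ :=
  (List.range A.length).filter fun v => decide (v ∈ T) || decide (v ∈ X)

/-- the known solutions avoiding `Z` -/
def live (Fs : List (List ℕ)) (Z : List ℕ) : List (List ℕ) :=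
  Fs.filter fun F => F.all fun v => !decide (v ∈ Z)

/-- inclusion -/
def sub (F D : List ℕ) : Bool := F.all fun v => decide (v ∈ D)

/-- the number of elements of `F` outside `T` -/
def miss (F T : List ℕ) : ℕ := (F.filter fun v => !decide (v ∈ T)).length

/-- an element of the list minimising `g` -/
def amin (l : List ℕ) (g : ℕ → ℕ) : ℕ :=
  (l.filter fun v => l.all fun v' => decide (g v ≤ g v')).head?.getD 0

/-- the first elements of a list -/
def trunc {α : Type} (B : List Unit) (l : List α) : List α := (l.zip B).map Prod.fst

/-- prolong all lists by at most one element -/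
def sstep (B : List Unit) (U : List ℕ) (l : List (List ℕ)) : List (List ℕ) :=
  trunc B (l.flatMap fun t => t :: U.map fun x => x :: t)

/-- all lists of length at most `k` over `U` -/
def subs (B : List Unit) (U : List ℕ) (k : ℕ) : List (List ℕ) := (sstep B U)^[k] [[]]

/-- the logarithmic size parameter -/
def ell (A : Mat) (Fs : List (List ℕ)) : ℕ := A.length.bits.length + Fs.length.bits.length

/-- the size of the cuts looked for -/
def kap (A : Mat) (Fs : List (List ℕ)) : ℕ := 2 * ((6 * ell A Fs + 14) * (6 * ell A Fs + 14))

/-- no small set of free vertices destroys the property of being a connected dominating set -/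
def nocut (A : Mat) (Fs : List (List ℕ)) (B : List Unit) (s : St) : Bool :=
  (subs B (free A s) (kap A Fs)).all fun S => cds A (rest A s S)

/-- all remaining known solutions have many free vertices -/
def long (A : Mat) (Fs : List (List ℕ)) (s : St) : Bool :=
  (live Fs s.2).all fun F => decide (ell A Fs + 2 ≤ miss F s.1)

/-- no remaining known solution is forced -/
def nosub (Fs : List (List ℕ)) (s : St) : Bool := (live Fs s.2).all fun F => !sub F s.1

/-- some new solution is obtained by adding few free vertices -/
def brute (A : Mat) (Fs : List (List ℕ)) (B : List Unit) (s : St) : Bool :=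
  (subs B (free A s) (4 * (ell A Fs + 2))).any fun X =>
    cds A (plus A s.1 X) && (live Fs s.2).all fun F => !sub F (plus A s.1 X)

/-- the state is accepted -/
def acc (A : Mat) (Fs : List (List ℕ)) (B : List Unit) (s : St) : Bool :=
  cds A (rest A s []) && ((live Fs s.2).isEmpty ||
    ((nosub Fs s && (nocut A Fs B s && long A Fs s)) || brute A Fs B s))

/-- the two states obtained by deciding about `v` -/
def branch (A : Mat) (s : St) (v : ℕ) : List St := [(ins A v s.1, s.2), (s.1, ins A v s.2)]

/-- the states that replace `s` -/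
def kids (A : Mat) (Fs : List (List ℕ)) (B : List Unit) (s : St) : List St :=
  bif (free A s).isEmpty || (!cds A (rest A s []) || ((live Fs s.2).isEmpty || !nosub Fs s)) then []
  else bif !nocut A Fs B s then
    branch A s (amin (free A s) fun v => (live Fs (ins A v s.2)).length)
  else bif long A Fs s then []
  else bif !decide (nund A s.1 = 0) then branch A s (amin (free A s) fun v => nund A (ins A v s.1))
  else bif decide (ncomp A s.1 ≤ 2 * (ell A Fs + 2)) then []
  else branch A s (amin (free A s) fun v => ncomp A (ins A v s.1))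

/-- one round -/
def lstep (A : Mat) (Fs : List (List ℕ)) (B : List Unit) (p : Bool × List St) : Bool × List St :=
  (p.1 || p.2.any fun s => acc A Fs B s, trunc B (p.2.flatMap fun s => kids A Fs B s))

/-- is there a connected dominating set avoiding `Z` and containing no known solution? -/
def decB (A : Mat) (Fs : List (List ℕ)) (B : List Unit) (Z : List ℕ) : Bool :=
  ((lstep A Fs B)^[A.length + 1] (false, [([], Z)])).1

/-- try to forbid `v` -/
def fstep (A : Mat) (Fs : List (List ℕ)) (B : List Unit) (Z : List ℕ) (v : ℕ) : List ℕ :=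
  bif decB A Fs B (ins A v Z) then ins A v Z else Z

/-- a new minimal connected dominating set, as a bit vector -/
def next (A : Mat) (Fs : List (List ℕ)) (B : List Unit) : Option (List Bool) :=
  bif decB A Fs B [] then
    some ((List.range A.length).map fun v =>
      !decide (v ∈ (List.range A.length).foldl (fstep A Fs B) []))
  else none

/-! ### elementary specifications -/

section Spec

variable {A : Mat} {G : SimpleGraph ℕ}

theorem mem_ins {v : ℕ} {T : List ℕ} {x : ℕ} : x ∈ ins A v T ↔ x < A.length ∧ (x = v ∨ x ∈ T) := by
  simp [ins]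

theorem mem_free {s : St} {x : ℕ} : x ∈ free A s ↔ x < A.length ∧ x ∉ s.1 ∧ x ∉ s.2 := by
  simp [free]

theorem mem_rest {s : St} {S : List ℕ} {x : ℕ} :
    x ∈ rest A s S ↔ x < A.length ∧ (x ∈ s.1 ∨ (x ∉ s.2 ∧ x ∉ S)) := by
  simp [rest]

theorem mem_plus {T X : List ℕ} {x : ℕ} : x ∈ plus A T X ↔ x < A.length ∧ (x ∈ T ∨ x ∈ X) := by
  simp [plus]

theorem mem_live {Fs : List (List ℕ)} {Z : List ℕ} {F : List ℕ} :
    F ∈ live Fs Z ↔ F ∈ Fs ∧ ∀ v ∈ F, v ∉ Z := by
  simp [live]

theorem sub_iff {F D : List ℕ} : sub F D = true ↔ F.toFinset ⊆ D.toFinset := by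
  simp [sub, Finset.subset_iff]

theorem amin_spec {l : List ℕ} (hl : l ≠ []) (g : ℕ → ℕ) :
    amin l g ∈ l ∧ ∀ v ∈ l, g (amin l g) ≤ g v := by
  have hne : l.toFinset.Nonempty := by
    rw [List.toFinset_nonempty_iff]
    exact hl
  obtain ⟨m, hm, hmin⟩ := Finset.exists_min_image l.toFinset g hne
  have h1 : m ∈ l.filter fun v => l.all fun v' => decide (g v ≤ g v') := by
    rw [List.mem_filter]
    refine ⟨by simpa using hm, ?_⟩
    rw [List.all_eq_true]
    intro v hv
    simpa using hmin v (by simpa using hv)
  have h2 : amin l g ∈ l.filter fun v => l.all fun v' => decide (g v ≤ g v') := by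
    unfold amin
    cases h : (l.filter fun v => l.all fun v' => decide (g v ≤ g v')) with
    | nil => rw [h] at h1; simp at h1
    | cons a t => simp
  rw [List.mem_filter, List.all_eq_true] at h2
  refine ⟨h2.1, fun v hv => by simpa using h2.2 v hv⟩

theorem trunc_eq {α : Type} {B : List Unit} {l : List α} (h : l.length ≤ B.length) :
    trunc B l = l := by
  unfold trunc
  rw [List.map_fst_zip h]

theorem dmn_iff (hA : ∀ i j, adj A i j = true ↔ G.Adj i j) {D : List ℕ} {w : ℕ} :
    dmn A D w = true ↔ w ∈ D.toFinset ∨ ∃ d ∈ D.toFinset, G.Adj w d := by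
  simp only [dmn, List.any_eq_true, Bool.or_eq_true, decide_eq_true_eq, hA, List.mem_toFinset]
  constructor
  · rintro ⟨x, hx, rfl | h⟩
    · exact Or.inl hx
    · exact Or.inr ⟨x, hx, h⟩
  · rintro (h | ⟨d, hd, h⟩)
    · exact ⟨w, h, Or.inl rfl⟩
    · exact ⟨d, hd, Or.inr h⟩

theorem mem_rstep (hA : ∀ i j, adj A i j = true ↔ G.Adj i j) {D R : List ℕ} {y : ℕ} :
    y ∈ rstep A D R ↔ y ∈ D ∧ (y ∈ R ∨ ∃ x ∈ R, G.Adj x y) := by
  simp only [rstep, List.mem_filter, List.any_eq_true, Bool.or_eq_true, decide_eq_true_eq, hA]
  refine and_congr_right fun _ => ?_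
  constructor
  · rintro ⟨x, hx, rfl | h⟩
    · exact Or.inl hx
    · exact Or.inr ⟨x, hx, h⟩
  · rintro (h | ⟨d, hd, h⟩)
    · exact ⟨y, h, Or.inl rfl⟩
    · exact ⟨d, hd, Or.inr h⟩

theorem mem_rch (hA : ∀ i j, adj A i j = true ↔ G.Adj i j) {D : List ℕ} {x y : ℕ} (hx : x ∈ D) :
    y ∈ rch A D x ↔ Rch G D.toFinset x y := by
  set R : ℕ → List ℕ := fun k => (rstep A D)^[k] [x] with hR
  have hsucc : ∀ k, R (k + 1) = rstep A D (R k) := fun k => Function.iterate_succ_apply' _ _ _
  have hRD : ∀ k, ∀ y ∈ R k, y ∈ D := by
    intro k
    cases k with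
    | zero => simpa [hR] using hx
    | succ k =>
      intro y hy
      rw [hsucc] at hy
      exact ((mem_rstep hA).1 hy).1
  have hmono : ∀ k, ∀ y ∈ R k, y ∈ R (k + 1) := by
    intro k y hy
    rw [hsucc, mem_rstep hA]
    exact ⟨hRD k y hy, Or.inl hy⟩
  have hsound : ∀ k, ∀ y ∈ R k, Rch G D.toFinset x y := by
    intro k
    induction k with
    | zero =>
      intro y hy
      simp only [hR, Function.iterate_zero, id_eq, List.mem_singleton] at hy
      subst hy
      exact Rch.refl _
    | succ k ih =>
      intro y hy
      rw [hsucc, mem_rstep hA] at hy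
      rcases hy.2 with h | ⟨z, hz, h⟩
      · exact ih y h
      · exact (ih z hz).trans (Rch.single (by simpa using hRD k z hz) (by simpa using hy.1) h)
  have hxR : ∀ k, x ∈ R k := by
    intro k
    induction k with
    | zero => simp [hR]
    | succ k ih => exact hmono k x ih
  -- closed sets
  set Cl : ℕ → Prop := fun k => ∀ a ∈ R k, ∀ b ∈ D, G.Adj a b → b ∈ R k with hCl
  have hstep : ∀ k, Cl k ∨ k + 1 ≤ (R k).toFinset.card := by
    intro k
    induction k with
    | zero => right; simp [hR]
    | succ k ih =>
      by_cases hk : Cl (k + 1)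
      · exact Or.inl hk
      right
      have hk' : ¬ Cl k := by
        intro h
        apply hk
        have h1 : ∀ y, y ∈ R (k + 1) ↔ y ∈ R k := by
          intro y
          refine ⟨fun hy => ?_, hmono k y⟩
          rw [hsucc, mem_rstep hA] at hy
          rcases hy.2 with h' | ⟨z, hz, h'⟩
          · exact h'
          · exact h z hz y hy.1 h'
        intro a ha b hb hab
        rw [h1] at ha ⊢
        exact h a ha b hb hab
      have h1 := ih.resolve_left hk'
      simp only [hCl] at hk'
      push Not at hk'
      obtain ⟨a, ha, b, hb, hab, hbR⟩ := hk'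
      have h2 : (R k).toFinset ⊂ (R (k + 1)).toFinset := by
        rw [Finset.ssubset_iff_of_subset]
        · refine ⟨b, ?_, by simpa using hbR⟩
          rw [List.mem_toFinset, hsucc, mem_rstep hA]
          exact ⟨hb, Or.inr ⟨a, ha, hab⟩⟩
        · intro y hy
          rw [List.mem_toFinset] at hy ⊢
          exact hmono k y hy
      have := Finset.card_lt_card h2
      omega
  have hcl : Cl D.length := by
    refine (hstep D.length).resolve_right fun h => ?_
    have h1 : (R D.length).toFinset ⊆ D.toFinset := by
      intro y hy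
      rw [List.mem_toFinset] at hy ⊢
      exact hRD _ y hy
    have h2 := Finset.card_le_card h1
    have h3 := D.toFinset_card_le
    omega
  constructor
  · exact hsound D.length y
  · intro h
    change y ∈ R D.length
    unfold Rch at h
    induction h with
    | refl => exact hxR _
    | tail _ h ih => exact hcl _ ih _ (by simpa using h.2.1) h.2.2

theorem con_iff' (hA : ∀ i j, adj A i j = true ↔ G.Adj i j) {D : List ℕ} :
    con A D = true ↔ Con G D.toFinset := by
  unfold con
  cases D with
  | nil => simp [Con]
  | cons x D =>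
    simp only [List.head?_cons, Option.elim_some, List.all_eq_true, decide_eq_true_eq]
    constructor
    · intro h
      refine ⟨⟨x, by simp⟩, fun a ha b hb => ?_⟩
      have h1 := (mem_rch hA (List.mem_cons_self)).1 (h a (by simpa using ha))
      have h2 := (mem_rch hA (List.mem_cons_self)).1 (h b (by simpa using hb))
      exact h1.symm.trans h2
    · rintro ⟨_, h⟩ y hy
      exact (mem_rch hA (List.mem_cons_self)).2 (h x (by simp) y (by simpa using hy))

theorem cds_iff (hA : ∀ i j, adj A i j = true ↔ G.Adj i j) {D : List ℕ} :
    cds A D = true ↔ CD G (Finset.range A.length) D.toFinset := by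
  unfold cds CD Dom
  rw [Bool.and_eq_true, con_iff' hA, List.all_eq_true]
  refine and_congr_left fun _ => ?_
  constructor
  · intro h w hw
    exact (dmn_iff hA).1 (h w (by simpa using hw))
  · intro h w hw
    exact (dmn_iff hA).2 (h w (by simpa using hw))

theorem nund_eq (hA : ∀ i j, adj A i j = true ↔ G.Adj i j) (T : List ℕ) :
    nund A T = (und G (Finset.range A.length) T.toFinset).card := by
  classical
  unfold nund und
  rw [← List.toFinset_card_of_nodup (List.Nodup.filter _ List.nodup_range)]
  congr 1
  ext w
  rw [List.mem_toFinset, List.mem_filter, Finset.mem_filter]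
  have h := dmn_iff hA (D := T) (w := w)
  simp only [List.mem_range, Bool.not_eq_true', Finset.mem_range]
  rw [Bool.eq_false_iff, Ne, h]
  push Not
  rfl

theorem ncomp_eq (hA : ∀ i j, adj A i j = true ↔ G.Adj i j) {T : List ℕ} (hT : T.Nodup) :
    ncomp A T = (cmp G T.toFinset).card := by
  classical
  unfold ncomp
  rw [← List.toFinset_card_of_nodup (List.Nodup.filter _ hT)]
  have hmem : ∀ t, t ∈ (T.filter fun t => T.all fun t' =>
      decide (t ≤ t') || !decide (t' ∈ rch A T t)).toFinset ↔
      t ∈ T ∧ ∀ t' ∈ T, Rch G T.toFinset t t' → t ≤ t' := by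
    intro t
    rw [List.mem_toFinset, List.mem_filter, List.all_eq_true]
    refine and_congr_right fun ht => ?_
    refine forall₂_congr fun t' ht' => ?_
    rw [Bool.or_eq_true, decide_eq_true_eq, Bool.not_eq_true', decide_eq_false_iff_not,
      mem_rch hA ht]
    tauto
  refine Finset.card_bij (fun t _ => cls G T.toFinset t) ?_ ?_ ?_
  · intro t ht
    exact cls_mem_cmp (by simpa using ((hmem t).1 ht).1)
  · intro a ha b hb h
    have ha' := (hmem a).1 ha
    have hb' := (hmem b).1 hb
    have h1 := (cls_eq_iff (by simpa using hb'.1)).1 h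
    exact le_antisymm (ha'.2 b hb'.1 h1) (hb'.2 a ha'.1 h1.symm)
  · intro C hC
    simp only [cmp, Finset.mem_image] at hC
    obtain ⟨x, hx, rfl⟩ := hC
    have hne : (cls G T.toFinset x).Nonempty := ⟨x, self_mem_cls hx⟩
    obtain ⟨m, hm, hmin⟩ := Finset.exists_min_image (cls G T.toFinset x) (fun t => t) hne
    have hm' := mem_cls.1 hm
    refine ⟨m, (hmem m).2 ⟨by simpa using hm'.1, fun t' ht' h => ?_⟩, ?_⟩
    · exact hmin t' (mem_cls.2 ⟨by simpa using ht', hm'.2.trans h⟩)
    · exact ((cls_eq_iff hm'.1).2 hm'.2).symm

end Spec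

/-! ### lists of subsets -/

theorem sstep_of_le {B : List Unit} {U : List ℕ} {l : List (List ℕ)}
    (h : l.length * (U.length + 1) ≤ B.length) :
    sstep B U l = l.flatMap fun t => t :: U.map fun x => x :: t := by
  unfold sstep
  refine trunc_eq ?_
  rw [List.length_flatMap]
  simp only [List.length_cons, List.length_map, List.map_const', List.sum_replicate, smul_eq_mul]
  exact h

theorem subs_spec {B : List Unit} {U : List ℕ} {K : ℕ} (hB : (U.length + 1) ^ K ≤ B.length) :
    ∀ k ≤ K, (subs B U k).length = (U.length + 1) ^ k ∧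
      ∀ t : List ℕ, t ∈ subs B U k ↔ t.length ≤ k ∧ ∀ x ∈ t, x ∈ U := by
  intro k
  induction k with
  | zero =>
    intro _
    refine ⟨by simp [subs], fun t => ?_⟩
    simp only [subs, Function.iterate_zero, id_eq, List.mem_singleton, Nat.le_zero,
      List.length_eq_zero_iff]
    constructor
    · rintro rfl
      simp
    · exact fun h => h.1
  | succ k ih =>
    intro hk
    obtain ⟨h1, h2⟩ := ih (by omega)
    have e : subs B U (k + 1) = (subs B U k).flatMap fun t => t :: U.map fun x => x :: t := by
      unfold subs at h1 ⊢
      rw [Function.iterate_succ_apply']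
      refine sstep_of_le ?_
      rw [h1, ← pow_succ]
      exact (Nat.pow_le_pow_right (by omega) hk).trans hB
    rw [e]
    constructor
    · rw [List.length_flatMap]
      simp only [List.length_cons, List.length_map, List.map_const', List.sum_replicate,
        smul_eq_mul]
      rw [h1, pow_succ]
    · intro t
      rw [List.mem_flatMap]
      constructor
      · rintro ⟨t', ht', ht⟩
        rw [h2] at ht'
        rcases List.mem_cons.1 ht with rfl | ht
        · exact ⟨by omega, ht'.2⟩
        · obtain ⟨x, hx, rfl⟩ := List.mem_map.1 ht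
          refine ⟨by simp; omega, fun y hy => ?_⟩
          rcases List.mem_cons.1 hy with rfl | hy
          · exact hx
          · exact ht'.2 y hy
      · rintro ⟨h3, h4⟩
        cases t with
        | nil => exact ⟨[], (h2 []).2 ⟨by simp, by simp⟩, by simp⟩
        | cons x t =>
          refine ⟨t, (h2 t).2 ⟨by simpa using h3, fun y hy => h4 y (by simp [hy])⟩, ?_⟩
          refine List.mem_cons_of_mem _ (List.mem_map.2 ⟨x, h4 x (by simp), rfl⟩)

end Pool.Agent.H44.CDS
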