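import Mathlib

/-!
# Connected dominating sets: basic facts

`N` is the finite vertex set of the graph; all sets considered are subsets of `N`.
-/

set_option autoImplicit false
set_option linter.unusedSectionVars false

namespace Pool.Agent.H44.CDS

open Finset Classical

variable {V : Type} [DecidableEq V] (G : SimpleGraph V)

/-- adjacency inside a set -/
def Stp (D : Finset V) (a b : V) : Prop := a ∈ D ∧ b ∈ D ∧ G.Adj a b

/-- reachability inside a set -/
def Rch (D : Finset V) : V → V → Prop := Relation.ReflTransGen (Stp G D)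

/-- domination -/
def Dom (N D : Finset V) : Prop := ∀ w ∈ N, w ∈ D ∨ ∃ d ∈ D, G.Adj w d

/-- connectedness of the induced subgraph -/
def Con (D : Finset V) : Prop := D.Nonempty ∧ ∀ x ∈ D, ∀ y ∈ D, Rch G D x y

/-- connected dominating sets -/
def CD (N D : Finset V) : Prop := Dom G N D ∧ Con G D

variable {G}

theorem Stp.symm {D : Finset V} {a b : V} (h : Stp G D a b) : Stp G D b a := ⟨h.2.1, h.1, h.2.2.symm⟩

theorem Rch.refl {D : Finset V} (a : V) : Rch G D a a := Relation.ReflTransGen.refl

theorem Rch.symm {D : Finset V} {a b : V} (h : Rch G D a b) : Rch G D b a := by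
  induction h with
  | refl => exact Relation.ReflTransGen.refl
  | tail _ h ih => exact (Relation.ReflTransGen.single h.symm).trans ih

theorem Rch.trans {D : Finset V} {a b c : V} (h : Rch G D a b) (h' : Rch G D b c) : Rch G D a c :=
  Relation.ReflTransGen.trans h h'

theorem Rch.mono {D D' : Finset V} (hD : D ⊆ D') {a b : V} (h : Rch G D a b) : Rch G D' a b :=
  Relation.ReflTransGen.mono (r := Stp G D) (p := Stp G D')
    (fun _ _ h => ⟨hD h.1, hD h.2.1, h.2.2⟩) a b h

theorem Rch.single {D : Finset V} {a b : V} (ha : a ∈ D) (hb : b ∈ D) (h : G.Adj a b) :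
    Rch G D a b := Relation.ReflTransGen.single ⟨ha, hb, h⟩

theorem Rch.mem {D : Finset V} {a b : V} (h : Rch G D a b) (ha : a ∈ D) : b ∈ D := by
  induction h with
  | refl => exact ha
  | tail _ h _ => exact h.2.1

/-- a path leaving a set crosses its boundary -/
theorem Rch.cross {D : Finset V} {a b : V} (h : Rch G D a b) (A : Set V) (ha : a ∈ A) (hb : b ∉ A) :
    ∃ x y, x ∈ D ∧ y ∈ D ∧ G.Adj x y ∧ x ∈ A ∧ y ∉ A := by
  induction h with
  | refl => exact absurd ha hb
  | @tail c d _ h ih =>
    by_cases hc : c ∈ A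
    · exact ⟨c, d, h.1, h.2.1, h.2.2, hc, hb⟩
    · exact ih hc

theorem Dom.mono {N D D' : Finset V} (h : Dom G N D) (hD : D ⊆ D') : Dom G N D' := by
  intro w hw
  rcases h w hw with h | ⟨d, hd, h⟩
  · exact Or.inl (hD h)
  · exact Or.inr ⟨d, hD hd, h⟩

/-- supersets of connected dominating sets -/
theorem CD.mono {N D D' : Finset V} (h : CD G N D) (hD : D ⊆ D') (hN : D' ⊆ N) : CD G N D' := by
  refine ⟨h.1.mono hD, h.2.1.mono hD, ?_⟩
  have key : ∀ x ∈ D', ∃ z ∈ D, Rch G D' x z := by
    intro x hx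
    rcases h.1 x (hN hx) with h1 | ⟨d, hd, h1⟩
    · exact ⟨x, h1, Rch.refl x⟩
    · exact ⟨d, hd, Rch.single hx (hD hd) h1⟩
  intro x hx y hy
  obtain ⟨a, ha, h1⟩ := key x hx
  obtain ⟨b, hb, h2⟩ := key y hy
  exact h1.trans (((h.2.2 a ha b hb).mono hD).trans h2.symm)

/-- Connectors: two components of a dominating set `D` contained in a connected set `W` can be
joined by at most two vertices of `W`. -/
theorem connector {N D W : Finset V} (hdom : Dom G N D) (hDW : D ⊆ W) (hWN : W ⊆ N)
    (hW : Con G W) {x y : V} (hx : x ∈ D) (hy : y ∈ D) (hxy : ¬ Rch G D x y) :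
    ∃ P : Finset V, P ⊆ W ∧ Disjoint P D ∧ P.card ≤ 2 ∧
      ∃ z ∈ D, ¬ Rch G D x z ∧ Rch G (D ∪ P) x z := by
  set A : Set V := {w | Rch G D x w ∨ (w ∉ D ∧ ∃ c, Rch G D x c ∧ G.Adj w c)} with hA
  have hxA : x ∈ A := Or.inl (Rch.refl x)
  have hyA : y ∉ A := by
    rintro (h | ⟨h, _⟩)
    · exact hxy h
    · exact h hy
  obtain ⟨a, b, ha, hb, hab, haA, hbA⟩ := (hW.2 x (hDW hx) y (hDW hy)).cross A hxA hyA
  have hbA' : ¬ Rch G D x b := fun h => hbA (Or.inl h)
  have haD : a ∉ D := by
    intro haD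
    have h1 : Rch G D x a := by
      rcases haA with h | ⟨h, _⟩
      · exact h
      · exact absurd haD h
    by_cases hbD : b ∈ D
    · exact hbA' (h1.trans (Rch.single haD hbD hab))
    · exact hbA (Or.inr ⟨hbD, a, h1, hab.symm⟩)
  obtain ⟨c, hc, hac⟩ : ∃ c, Rch G D x c ∧ G.Adj a c := by
    rcases haA with h | ⟨_, h⟩
    · exact absurd (h.mem hx) haD
    · exact h
  have hcD : c ∈ D := hc.mem hx
  by_cases hbD : b ∈ D
  · refine ⟨{a}, by simpa using ha, by simpa using haD, by simp, b, hbD, hbA', ?_⟩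
    have hs : D ⊆ D ∪ {a} := subset_union_left
    have ha' : a ∈ D ∪ {a} := by simp
    exact ((hc.mono hs).trans (Rch.single (hs hcD) ha' hac.symm)).trans
      (Rch.single ha' (hs hbD) hab)
  · rcases hdom b (hWN hb) with h | ⟨d, hd, hbd⟩
    · exact absurd h hbD
    · refine ⟨{a, b}, ?_, ?_, card_le_two, d, hd, ?_, ?_⟩
      · intro v hv
        simp only [mem_insert, mem_singleton] at hv
        rcases hv with rfl | rfl
        · exact ha
        · exact hb
      · rw [disjoint_left]
        intro v hv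
        simp only [mem_insert, mem_singleton] at hv
        rcases hv with rfl | rfl
        · exact haD
        · exact hbD
      · intro h
        exact hbA (Or.inr ⟨hbD, d, h, hbd⟩)
      · have hs : D ⊆ D ∪ {a, b} := subset_union_left
        have ha' : a ∈ D ∪ {a, b} := by simp
        have hb' : b ∈ D ∪ {a, b} := by simp
        exact (((hc.mono hs).trans (Rch.single (hs hcD) ha' hac.symm)).trans
          (Rch.single ha' hb' hab)).trans (Rch.single hb' (hs hd) hbd)

/-! ### components -/

variable (G) in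
/-- the component of `x` in `D` -/
noncomputable def cls (D : Finset V) (x : V) : Finset V := D.filter (fun y => Rch G D x y)

variable (G) in
/-- the components of `D` -/
noncomputable def cmp (D : Finset V) : Finset (Finset V) := D.image (cls G D)

variable (G) in
/-- the component of `D'` containing the set `C` -/
noncomputable def up (D' C : Finset V) : Finset V := D'.filter (fun y => ∃ x ∈ C, Rch G D' x y)

theorem mem_cls {D : Finset V} {x y : V} : y ∈ cls G D x ↔ y ∈ D ∧ Rch G D x y := by
  simp [cls]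

theorem self_mem_cls {D : Finset V} {x : V} (hx : x ∈ D) : x ∈ cls G D x :=
  mem_cls.2 ⟨hx, Rch.refl x⟩

theorem cls_eq_iff {D : Finset V} {x y : V} (hy : y ∈ D) :
    cls G D x = cls G D y ↔ Rch G D x y := by
  constructor
  · intro h
    have : y ∈ cls G D x := by rw [h]; exact self_mem_cls hy
    exact (mem_cls.1 this).2
  · intro h
    ext z
    rw [mem_cls, mem_cls]
    exact ⟨fun ⟨h1, h2⟩ => ⟨h1, h.symm.trans h2⟩, fun ⟨h1, h2⟩ => ⟨h1, h.trans h2⟩⟩

theorem cls_mem_cmp {D : Finset V} {x : V} (hx : x ∈ D) : cls G D x ∈ cmp G D :=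
  mem_image_of_mem _ hx

theorem up_cls {D D' : Finset V} (hD : D ⊆ D') {x : V} (hx : x ∈ D) :
    up G D' (cls G D x) = cls G D' x := by
  ext y
  simp only [up, mem_filter, mem_cls]
  constructor
  · rintro ⟨h1, z, ⟨_, h2⟩, h3⟩
    exact ⟨h1, (h2.mono hD).trans h3⟩
  · rintro ⟨h1, h2⟩
    exact ⟨h1, x, ⟨hx, Rch.refl x⟩, h2⟩

theorem cmp_eq_image {N D D' : Finset V} (hdom : Dom G N D) (hD : D ⊆ D') (hN : D' ⊆ N) :
    cmp G D' = (cmp G D).image (up G D') := by
  ext C
  simp only [cmp, mem_image]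
  constructor
  · rintro ⟨x, hx, rfl⟩
    rcases hdom x (hN hx) with h | ⟨d, hd, h⟩
    · exact ⟨_, ⟨x, h, rfl⟩, up_cls hD h⟩
    · refine ⟨_, ⟨d, hd, rfl⟩, ?_⟩
      rw [up_cls hD hd]
      exact (cls_eq_iff hx).2 (Rch.single (hD hd) hx h.symm)
  · rintro ⟨_, ⟨x, hx, rfl⟩, rfl⟩
    exact ⟨x, hD hx, (up_cls hD hx).symm⟩

theorem cmp_card_le {N D D' : Finset V} (hdom : Dom G N D) (hD : D ⊆ D') (hN : D' ⊆ N) :
    (cmp G D').card ≤ (cmp G D).card := by
  rw [cmp_eq_image hdom hD hN]
  exact card_image_le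

theorem cmp_card_le_card (D : Finset V) : (cmp G D).card ≤ D.card := card_image_le

theorem con_iff {D : Finset V} (hD : D.Nonempty) : Con G D ↔ (cmp G D).card ≤ 1 := by
  rw [card_le_one]
  constructor
  · rintro ⟨_, h⟩ a ha b hb
    simp only [cmp, mem_image] at ha hb
    obtain ⟨x, hx, rfl⟩ := ha
    obtain ⟨y, hy, rfl⟩ := hb
    exact (cls_eq_iff hy).2 (h x hx y hy)
  · intro h
    refine ⟨hD, fun x hx y hy => ?_⟩
    exact (cls_eq_iff hy).1 (h _ (cls_mem_cmp hx) _ (cls_mem_cmp hy))

theorem cmp_card_pos {D : Finset V} (hD : D.Nonempty) : 0 < (cmp G D).card := by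
  obtain ⟨x, hx⟩ := hD
  exact card_pos.2 ⟨_, cls_mem_cmp hx⟩

/-- Joining two components lowers the number of components. -/
theorem cmp_card_lt {N D D' : Finset V} (hdom : Dom G N D) (hD : D ⊆ D') (hN : D' ⊆ N)
    {x z : V} (hx : x ∈ D) (hz : z ∈ D) (h1 : ¬ Rch G D x z) (h2 : Rch G D' x z) :
    (cmp G D').card < (cmp G D).card := by
  rw [cmp_eq_image hdom hD hN]
  refine lt_of_le_of_ne card_image_le fun h => ?_
  have hinj := card_image_iff.1 h
  have h3 : up G D' (cls G D x) = up G D' (cls G D z) := by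
    rw [up_cls hD hx, up_cls hD hz]
    exact (cls_eq_iff (hD hz)).2 h2
  have h4 := hinj (mem_coe.2 (cls_mem_cmp hx)) (mem_coe.2 (cls_mem_cmp hz)) h3
  exact h1 ((cls_eq_iff hz).1 h4)

/-- **Small solutions.** A dominating set `T` with `c` components contained in a connected
dominating set `D` extends to one inside `D` with at most `2 (c - 1)` more vertices. -/
theorem small_solution {N : Finset V} : ∀ (c : ℕ) (T D : Finset V), (cmp G T).card ≤ c + 1 →
    T.Nonempty → Dom G N T → T ⊆ D → D ⊆ N → CD G N D →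
    ∃ D', T ⊆ D' ∧ D' ⊆ D ∧ CD G N D' ∧ (D' \ T).card ≤ 2 * c := by
  intro c
  induction c with
  | zero =>
    intro T D hc hT hdom hTD hDN hD
    exact ⟨T, Subset.rfl, hTD, ⟨hdom, (con_iff hT).2 (by omega)⟩, by simp⟩
  | succ c ih =>
    intro T D hc hT hdom hTD hDN hD
    by_cases hcon : Con G T
    · exact ⟨T, Subset.rfl, hTD, ⟨hdom, hcon⟩, by simp⟩
    · have h1 : ∃ x ∈ T, ∃ y ∈ T, ¬ Rch G T x y := by
        by_contra h
        push Not at h
        exact hcon ⟨hT, h⟩
      obtain ⟨x, hx, y, hy, hxy⟩ := h1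
      obtain ⟨P, hP1, hP2, hP3, z, hz, hz1, hz2⟩ := connector hdom hTD hDN hD.2 hx hy hxy
      have hs : T ⊆ T ∪ P := subset_union_left
      have hTP : T ∪ P ⊆ D := union_subset hTD hP1
      have h2 := cmp_card_lt hdom hs (hTP.trans hDN) hx hz hz1 hz2
      obtain ⟨D', h3, h4, h5, h6⟩ := ih (T ∪ P) D (by omega) (hT.mono hs) (hdom.mono hs) hTP hDN hD
      refine ⟨D', hs.trans h3, h4, h5, ?_⟩
      have h7 : D' \ T ⊆ (D' \ (T ∪ P)) ∪ P := by
        intro v hv
        simp only [mem_sdiff, mem_union] at hv ⊢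
        tauto
      calc (D' \ T).card ≤ ((D' \ (T ∪ P)) ∪ P).card := card_le_card h7
        _ ≤ (D' \ (T ∪ P)).card + P.card := card_union_le _ _
        _ ≤ 2 * (c + 1) := by omega

/-- **Touching.** If `F` is a connected dominating set, some vertex of `F \ T` reduces the number of
components of the dominating set `T` by a fraction. -/
theorem touch {N T F : Finset V} (hdom : Dom G N T) (hTN : T ⊆ N) (hFN : F ⊆ N) (hF : CD G N F)
    (hFT : ¬ F ⊆ T) :
    ∃ v ∈ F, v ∉ T ∧
      (cmp G T).card + (cmp G (insert v T)).card * (F \ T).card ≤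
        (cmp G T).card * (F \ T).card + (F \ T).card := by
  -- `t v` is the set of components touched by `v`
  set t : V → Finset (Finset V) := fun v => (cmp G T).filter (fun C => ∃ x ∈ C, G.Adj x v) with ht
  have hFTc : CD G N (F ∪ T) := hF.mono subset_union_left (union_subset hFN hTN)
  obtain ⟨f, hf, hfT⟩ := not_subset.1 hFT
  have hcov : cmp G T ⊆ (F \ T).biUnion t := by
    intro C hC
    have hC' := hC
    simp only [cmp, mem_image] at hC'
    obtain ⟨x, hx, rfl⟩ := hC'
    have hxs : x ∈ F ∪ T := mem_union_right _ hx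
    have hfs : f ∈ F ∪ T := mem_union_left _ hf
    obtain ⟨a, b, ha, hb, hab, haA, hbA⟩ := (hFTc.2.2 x hxs f hfs).cross {w | w ∈ cls G T x}
      (self_mem_cls hx) (fun h => hfT (mem_cls.1 h).1)
    have hbT : b ∉ T := by
      intro hbT
      have h1 := mem_cls.1 haA
      exact hbA (mem_cls.2 ⟨hbT, h1.2.trans (Rch.single h1.1 hbT hab)⟩)
    refine mem_biUnion.2 ⟨b, ?_, ?_⟩
    · rw [mem_sdiff]
      refine ⟨?_, hbT⟩
      rcases mem_union.1 hb with h | h
      · exact h
      · exact absurd h hbT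
    · simp only [ht, mem_filter]
      exact ⟨hC, a, haA, hab⟩
  have hne : (F \ T).Nonempty := ⟨f, mem_sdiff.2 ⟨hf, hfT⟩⟩
  -- choose `v` touching the most components
  obtain ⟨v, hv, hmax⟩ := exists_max_image (F \ T) (fun v => (t v).card) hne
  have h1 : (cmp G T).card ≤ (F \ T).card * (t v).card := by
    refine (card_le_card hcov).trans (card_biUnion_le_card_mul _ _ _ fun u hu => ?_)
    exact hmax u hu
  have hv' := mem_sdiff.1 hv
  have hvN : insert v T ⊆ N := insert_subset (hFN hv'.1) hTN
  -- all touched components are merged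
  have h2 : (cmp G (insert v T)).card + (t v).card ≤ (cmp G T).card + 1 := by
    rw [cmp_eq_image hdom (subset_insert v T) hvN]
    have h3 : (cmp G T).image (up G (insert v T)) ⊆
        insert (cls G (insert v T) v) (((cmp G T) \ (t v)).image (up G (insert v T))) := by
      intro C hC
      obtain ⟨C', hC', rfl⟩ := mem_image.1 hC
      by_cases hc : C' ∈ t v
      · refine mem_insert.2 (Or.inl ?_)
        simp only [ht, mem_filter] at hc
        obtain ⟨_, x, hx, hxv⟩ := hc
        have hC'' := hC'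
        simp only [cmp, mem_image] at hC''
        obtain ⟨y, hy, rfl⟩ := hC''
        rw [up_cls (subset_insert v T) hy, cls_eq_iff (mem_insert_self v T)]
        have h4 := mem_cls.1 hx
        exact (h4.2.mono (subset_insert v T)).trans
          (Rch.single (mem_insert_of_mem h4.1) (mem_insert_self v T) hxv)
      · refine mem_insert.2 (Or.inr (mem_image_of_mem _ (mem_sdiff.2 ⟨hC', hc⟩)))
    have h4 := card_le_card h3
    have h5 : ((cmp G T) \ (t v)).card = (cmp G T).card - (t v).card :=
      card_sdiff_of_subset (filter_subset _ _)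
    have h6 : (t v).card ≤ (cmp G T).card := card_le_card (filter_subset _ _)
    have h7 := card_insert_le (cls G (insert v T) v) (((cmp G T) \ (t v)).image (up G (insert v T)))
    have h8 : (((cmp G T) \ (t v)).image (up G (insert v T))).card ≤ ((cmp G T) \ (t v)).card :=
      card_image_le
    omega
  refine ⟨v, hv'.1, hv'.2, ?_⟩
  have h3 := Nat.mul_le_mul_right (F \ T).card h2
  rw [add_mul, add_mul, one_mul, mul_comm (t v).card] at h3
  omega

/-- vertices not dominated by `T` -/
noncomputable def und (G : SimpleGraph V) (N T : Finset V) : Finset V :=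
  N.filter (fun w => w ∉ T ∧ ∀ t ∈ T, ¬ G.Adj w t)

theorem und_eq_empty {N T : Finset V} : und G N T = ∅ ↔ Dom G N T := by
  unfold und Dom
  rw [filter_eq_empty_iff]
  refine forall₂_congr fun w _ => ?_
  push Not
  rw [or_iff_not_imp_left]

theorem und_mono {N T T' : Finset V} (h : T ⊆ T') : und G N T' ⊆ und G N T := by
  intro w hw
  simp only [und, mem_filter] at hw ⊢
  exact ⟨hw.1, fun h' => hw.2.1 (h h'), fun t ht => hw.2.2 t (h ht)⟩

/-- Some vertex of `F \ T` dominates a fraction of the vertices not dominated by `T`. -/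
theorem dominate {N T F : Finset V} (hF : Dom G N F) (hu : (und G N T).Nonempty) :
    ∃ v ∈ F, v ∉ T ∧ (und G N T).card + (und G N (insert v T)).card * (F \ T).card ≤
      (und G N T).card * (F \ T).card := by
  set t : V → Finset V := fun v => (und G N T).filter (fun w => w = v ∨ G.Adj w v) with ht
  have hcov : und G N T ⊆ (F \ T).biUnion t := by
    intro w hw
    have hw' := hw
    simp only [und, mem_filter] at hw'
    rw [mem_biUnion]
    rcases hF w hw'.1 with h | ⟨d, hd, h⟩
    · exact ⟨w, mem_sdiff.2 ⟨h, hw'.2.1⟩, mem_filter.2 ⟨hw, Or.inl rfl⟩⟩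
    · exact ⟨d, mem_sdiff.2 ⟨hd, fun h' => hw'.2.2 d h' h⟩, mem_filter.2 ⟨hw, Or.inr h⟩⟩
  have hne : (F \ T).Nonempty := by
    obtain ⟨w, hw⟩ := hu
    obtain ⟨v, hv, _⟩ := mem_biUnion.1 (hcov hw)
    exact ⟨v, hv⟩
  obtain ⟨v, hv, hmax⟩ := exists_max_image (F \ T) (fun v => (t v).card) hne
  have h1 : (und G N T).card ≤ (F \ T).card * (t v).card := by
    refine (card_le_card hcov).trans (card_biUnion_le_card_mul _ _ _ fun u hu => ?_)
    exact hmax u hu
  have hv' := mem_sdiff.1 hv
  have h2 : (und G N (insert v T)).card + (t v).card ≤ (und G N T).card := by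
    rw [← card_union_of_disjoint]
    · refine card_le_card (union_subset (und_mono (subset_insert v T)) (filter_subset _ _))
    · rw [disjoint_left]
      intro w hw hw'
      simp only [und, mem_filter, mem_insert] at hw
      simp only [ht, mem_filter] at hw'
      rcases hw'.2 with h | h
      · exact hw.2.1 (Or.inl h)
      · exact hw.2.2 v (Or.inl rfl) h
  refine ⟨v, hv'.1, hv'.2, ?_⟩
  have h3 := Nat.mul_le_mul_right (F \ T).card h2
  rw [add_mul, mul_comm (t v).card] at h3
  omega

end Pool.Agent.H44.CDS
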