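import Pool.Agent.H44.CDS.Spec

/-!
# The number of states
-/

set_option autoImplicit false

namespace Pool.Agent.H44.CDS

open Finset

/-- logarithm of a natural number -/
noncomputable def lg (x : ℕ) : ℝ := Real.log x

theorem lg_nonneg (x : ℕ) : 0 ≤ lg x := Real.log_natCast_nonneg x

theorem lg_mono {x y : ℕ} (h : x ≤ y) : lg x ≤ lg y := by
  unfold lg
  rcases Nat.eq_zero_or_pos x with rfl | hx
  · simpa using Real.log_natCast_nonneg y
  · exact Real.log_le_log (by exact_mod_cast hx) (by exact_mod_cast h)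

theorem lg_le_of_pow {x l : ℕ} (h : x ≤ 2 ^ l) : lg x ≤ l := by
  refine (lg_mono h).trans ?_
  unfold lg
  push_cast
  rw [Real.log_pow]
  have : Real.log 2 ≤ 1 := by
    have := Real.log_le_sub_one_of_pos (show (0 : ℝ) < 2 by norm_num)
    linarith
  have h0 : (0 : ℝ) ≤ l := Nat.cast_nonneg l
  nlinarith

/-- shrinking by a factor `1 - 1/K` -/
theorem lg_drop {x' x K : ℕ} (hx' : 1 ≤ x') (hK : 1 ≤ K) (h : x' * K + x ≤ x * K) :
    K * lg x' + 1 ≤ K * lg x := by
  have hx : 1 ≤ x := by
    rcases Nat.eq_zero_or_pos x with rfl | h'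
    · have : 1 ≤ x' * K := Nat.mul_pos hx' hK
      omega
    · exact h'
  unfold lg
  have hx0 : (0 : ℝ) < x := by exact_mod_cast hx
  have hx0' : (0 : ℝ) < x' := by exact_mod_cast hx'
  have hK0 : (0 : ℝ) < K := by exact_mod_cast hK
  have h1 := Real.log_le_sub_one_of_pos (show (0 : ℝ) < x' / x by positivity)
  rw [Real.log_div hx0'.ne' hx0.ne'] at h1
  have h2 : (x' : ℝ) * K + x ≤ x * K := by exact_mod_cast h
  have h3 : (K : ℝ) * (x' / x - 1) ≤ -1 := by
    have h4 : (K : ℝ) * (x' / x - 1) = (x' * K - x * K) / x := by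
      field_simp
    rw [h4, div_le_iff₀ hx0]
    linarith
  have h5 := mul_le_mul_of_nonneg_left h1 hK0.le
  linarith

/-- the potential: `m` known solutions, `u` undominated vertices, `c` components -/
noncomputable def mu (K s₀ n m u c : ℕ) : ℝ :=
  if u = 0 then K * lg m + 2 * s₀ * lg c else K * lg m + s₀ * lg u + 2 * s₀ * lg n + 1

/-- the budget -/
noncomputable def bud (K s₀ n m u c : ℕ) : ℕ := if m = 0 then 0 else ⌊mu K s₀ n m u c⌋₊ + 1

theorem mu_nonneg (K s₀ n m u c : ℕ) : 0 ≤ mu K s₀ n m u c := by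
  have h1 := lg_nonneg m
  have h2 := lg_nonneg u
  have h3 := lg_nonneg n
  have h4 := lg_nonneg c
  unfold mu
  split_ifs <;> positivity

theorem mu_mono {K s₀ n m u c m' u' c' : ℕ} (hm : m' ≤ m) (hu : u' ≤ u) (hc : c' ≤ n)
    (hc' : u = 0 → c' ≤ c) : mu K s₀ n m' u' c' ≤ mu K s₀ n m u c := by
  have h1 := mul_le_mul_of_nonneg_left (lg_mono hm) (Nat.cast_nonneg (α := ℝ) K)
  have h2 := mul_le_mul_of_nonneg_left (lg_mono hu) (Nat.cast_nonneg (α := ℝ) s₀)
  have h3 := mul_le_mul_of_nonneg_left (lg_mono hc) (Nat.cast_nonneg (α := ℝ) s₀)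
  have h4 : 0 ≤ (s₀ : ℝ) * lg u := mul_nonneg (Nat.cast_nonneg _) (lg_nonneg u)
  unfold mu
  by_cases hu0 : u = 0
  · have hu0' : u' = 0 := by omega
    have h5 := mul_le_mul_of_nonneg_left (lg_mono (hc' hu0)) (Nat.cast_nonneg (α := ℝ) s₀)
    rw [if_pos hu0, if_pos hu0']
    linarith
  · by_cases hu0' : u' = 0
    · rw [if_neg hu0, if_pos hu0']
      linarith
    · rw [if_neg hu0, if_neg hu0']
      linarith

theorem bud_mono {K s₀ n m u c m' u' c' : ℕ} (hm : m' ≤ m) (hu : u' ≤ u) (hc : c' ≤ n)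
    (hc' : u = 0 → c' ≤ c) : bud K s₀ n m' u' c' ≤ bud K s₀ n m u c := by
  unfold bud
  by_cases h : m' = 0
  · rw [if_pos h]
    omega
  · have h' : m ≠ 0 := by omega
    rw [if_neg h, if_neg h']
    have := Nat.floor_le_floor (mu_mono (K := K) (s₀ := s₀) hm hu hc hc')
    omega

theorem bud_drop {K s₀ n m u c m' u' c' : ℕ} (hm : m ≠ 0)
    (h : m' = 0 ∨ mu K s₀ n m' u' c' + 1 ≤ mu K s₀ n m u c) :
    bud K s₀ n m' u' c' + 1 ≤ bud K s₀ n m u c := by
  unfold bud
  rw [if_neg hm]
  rcases h with h | h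
  · rw [if_pos h]
    omega
  · by_cases h0 : m' = 0
    · rw [if_pos h0]
      omega
    · rw [if_neg h0]
      have h1 : ⌊mu K s₀ n m' u' c'⌋₊ + 1 ≤ ⌊mu K s₀ n m u c⌋₊ := by
        refine Nat.le_floor ?_
        push_cast
        have := Nat.floor_le (mu_nonneg K s₀ n m' u' c')
        linarith
      omega

/-- the first kind of special move -/
theorem bud_drop_m {K s₀ n m u c m' : ℕ} (hm : m ≠ 0) (hK : 1 ≤ K) (h : m' * K + m ≤ m * K) :
    bud K s₀ n m' u c + 1 ≤ bud K s₀ n m u c := by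
  refine bud_drop hm ?_
  rcases Nat.eq_zero_or_pos m' with h0 | h0
  · exact Or.inl h0
  · right
    have := lg_drop h0 hK h
    unfold mu
    split_ifs <;> linarith

/-- the second kind of special move -/
theorem bud_drop_u {K s₀ n m u c u' c' : ℕ} (hm : m ≠ 0) (hs : 1 ≤ s₀) (hu0 : u ≠ 0) (hc : c' ≤ n)
    (h : u' * s₀ + u ≤ u * s₀) :
    bud K s₀ n m u' c' + 1 ≤ bud K s₀ n m u c := by
  refine bud_drop hm (Or.inr ?_)
  have h3 := mul_le_mul_of_nonneg_left (lg_mono hc) (Nat.cast_nonneg (α := ℝ) s₀)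
  have h4 : 0 ≤ (s₀ : ℝ) * lg u := mul_nonneg (Nat.cast_nonneg _) (lg_nonneg u)
  unfold mu
  rw [if_neg hu0]
  rcases Nat.eq_zero_or_pos u' with h0 | h0
  · rw [if_pos h0]
    linarith
  · rw [if_neg (by omega)]
    have := lg_drop h0 hs h
    linarith

/-- the third kind of special move -/
theorem bud_drop_c {K s₀ n m c c' : ℕ} (hm : m ≠ 0) (hs : 1 ≤ s₀) (hc : 2 * s₀ < c) (hc1 : 1 ≤ c')
    (h : c + c' * s₀ ≤ c * s₀ + s₀) :
    bud K s₀ n m 0 c' + 1 ≤ bud K s₀ n m 0 c := by
  refine bud_drop hm (Or.inr ?_)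
  have h1 : c' * (2 * s₀) + c ≤ c * (2 * s₀) := by nlinarith
  have := lg_drop hc1 (by omega) h1
  unfold mu
  rw [if_pos rfl, if_pos rfl]
  push_cast at this
  linarith

theorem pow_branch {f b : ℕ} (hf : 1 ≤ f) {b₁ b₂ : ℕ} (h1 : b₁ ≤ b) (h2 : b₂ + 1 ≤ b) :
    f ^ b₁ + f ^ b₂ ≤ (f + 1) ^ b := by
  obtain ⟨b', rfl⟩ : ∃ b', b = b' + 1 := ⟨b - 1, by omega⟩
  calc f ^ b₁ + f ^ b₂ ≤ f ^ (b' + 1) + f ^ b' :=
        Nat.add_le_add (Nat.pow_le_pow_right hf h1) (Nat.pow_le_pow_right hf (by omega))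
    _ = f ^ b' * (f + 1) := by ring
    _ ≤ (f + 1) ^ b' * (f + 1) := Nat.mul_le_mul_right _ (Nat.pow_le_pow_left (by omega) _)
    _ = (f + 1) ^ (b' + 1) := by rw [pow_succ]

section

variable {A : Mat} {G : SimpleGraph ℕ} {Fs : List (List ℕ)} {B : List Unit} {s : St}

/-- the budget of a state -/
noncomputable def sbud (A : Mat) (Fs : List (List ℕ)) (s : St) : ℕ :=
  bud (kap A Fs) (ell A Fs + 2) A.length (live Fs s.2).length (nund A s.1) (ncomp A s.1)

/-- the weight of a state -/
noncomputable def wt (A : Mat) (Fs : List (List ℕ)) (s : St) : ℕ :=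
  ((free A s).length + 1) ^ sbud A Fs s

theorem ncomp_le {T : List ℕ} (hT : T.Nodup) (hlt : ∀ v ∈ T, v < A.length) :
    ncomp A T ≤ A.length := by
  unfold ncomp
  refine (List.length_filter_le _ _).trans ?_
  rw [← List.toFinset_card_of_nodup hT]
  have : T.toFinset ⊆ range A.length := by
    intro v hv
    rw [mem_range]
    exact hlt v (List.mem_toFinset.1 hv)
  have h2 := card_le_card this
  rwa [card_range] at h2

theorem ins_toFinset {v : ℕ} {T : List ℕ} (hT : ∀ v ∈ T, v < A.length) (hv : v < A.length) :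
    (ins A v T).toFinset = insert v T.toFinset := by
  ext x
  rw [List.mem_toFinset, mem_ins, mem_insert, List.mem_toFinset]
  constructor
  · exact fun h => h.2
  · rintro (rfl | h)
    · exact ⟨hv, Or.inl rfl⟩
    · exact ⟨hT x h, Or.inr h⟩

theorem ins_nodup (A : Mat) (v : ℕ) (T : List ℕ) : (ins A v T).Nodup :=
  List.Nodup.filter _ List.nodup_range

theorem ins_lt {v x : ℕ} {T : List ℕ} (h : x ∈ ins A v T) : x < A.length := (mem_ins.1 h).1

theorem nund_ins_le (hI : Inp A G Fs) (hs : Val A s) {v : ℕ} (hv : v < A.length) :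
    nund A (ins A v s.1) ≤ nund A s.1 := by
  rw [nund_eq hI.hA, nund_eq hI.hA, ins_toFinset hs.lt hv]
  exact card_le_card (und_mono (subset_insert _ _))

theorem ncomp_ins_le (hI : Inp A G Fs) (hs : Val A s) {v : ℕ} (hv : v < A.length)
    (h0 : nund A s.1 = 0) : ncomp A (ins A v s.1) ≤ ncomp A s.1 := by
  rw [nund_eq hI.hA, card_eq_zero, und_eq_empty] at h0
  rw [ncomp_eq hI.hA (ins_nodup A v s.1), ncomp_eq hI.hA hs.nd, ins_toFinset hs.lt hv]
  refine cmp_card_le h0 (subset_insert _ _) ?_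
  intro x hx
  rw [mem_range]
  rcases mem_insert.1 hx with rfl | h
  · exact hv
  · exact hs.lt x (List.mem_toFinset.1 h)

theorem live_ins (hI : Inp A G Fs) (v : ℕ) (Z : List ℕ) (hv : v < A.length) :
    live Fs (ins A v Z) = (live Fs Z).filter fun F => !decide (v ∈ F) := by
  unfold live
  rw [List.filter_filter]
  refine List.filter_congr fun F hF => ?_
  rw [Bool.eq_iff_iff]
  simp only [List.all_eq_true, Bool.not_eq_true', decide_eq_false_iff_not, mem_ins,
    Bool.and_eq_true]
  constructor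
  · intro h
    refine ⟨fun hvF => h v hvF ⟨hv, Or.inl rfl⟩, fun x hx hxZ => ?_⟩
    exact h x hx ⟨(hI.hF F hF).2.1 x hx, Or.inr hxZ⟩
  · rintro ⟨h1, h2⟩ x hx ⟨_, rfl | h3⟩
    · exact h1 hx
    · exact h2 x hx h3

theorem live_ins_le (hI : Inp A G Fs) (v : ℕ) (Z : List ℕ) (hv : v < A.length) :
    (live Fs (ins A v Z)).length ≤ (live Fs Z).length := by
  rw [live_ins hI v Z hv]
  exact List.length_filter_le _ _

/-- pigeonhole: some element of a small hitting set lies in many sets -/
theorem frequent : ∀ (S : List ℕ) (l : List (List ℕ)), (∀ F ∈ l, ∃ v ∈ S, v ∈ F) →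
    l.length ≤ (S.map fun v => (l.filter fun F => decide (v ∈ F)).length).sum := by
  intro S
  induction S with
  | nil =>
    intro l h
    cases l with
    | nil => simp
    | cons F l =>
      obtain ⟨v, hv, _⟩ := h F (by simp)
      simp at hv
  | cons a S ih =>
    intro l h
    rw [List.map_cons, List.sum_cons]
    have h1 := List.length_eq_length_filter_add (l := l) (fun F => decide (a ∈ F))
    have h2 := ih (l.filter fun F => !decide (a ∈ F)) (by
      intro F hF
      rw [List.mem_filter] at hF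
      obtain ⟨v, hv, hvF⟩ := h F hF.1
      rcases List.mem_cons.1 hv with rfl | hv
      · simp [hvF] at hF
      · exact ⟨v, hv, hvF⟩)
    have h3 : (S.map fun v => ((l.filter fun F => !decide (a ∈ F)).filter
        fun F => decide (v ∈ F)).length).sum ≤
        (S.map fun v => (l.filter fun F => decide (v ∈ F)).length).sum := by
      refine List.sum_le_sum fun v _ => ?_
      rw [List.filter_filter]
      rw [← List.countP_eq_length_filter, ← List.countP_eq_length_filter]
      refine List.countP_mono_left fun F _ hF => ?_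
      rw [Bool.and_eq_true] at hF
      exact hF.1
    omega

theorem sum_le_of_lt : ∀ (S : List ℕ) (f : ℕ → ℕ) (K m : ℕ), S.length ≤ K →
    (∀ v ∈ S, K * f v < m) → 0 < m → K * (S.map f).sum < K * m ∨ K = 0 := by
  intro S f K m hS hf hm
  rcases Nat.eq_zero_or_pos K with h0 | hK
  · exact Or.inr h0
  left
  have h1 : ∀ S : List ℕ, (∀ v ∈ S, K * f v < m) → K * (S.map f).sum + S.length ≤ S.length * m := by
    intro S
    induction S with
    | nil => simp
    | cons a S ih =>
      intro h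
      have h1 := ih fun v hv => h v (by simp [hv])
      have h2 := h a (by simp)
      rw [List.map_cons, List.sum_cons, List.length_cons, mul_add, add_mul, one_mul]
      omega
  have h2 := h1 S hf
  rcases Nat.eq_zero_or_pos S.length with h0 | h0
  · rw [List.length_eq_zero_iff.1 h0]
    simp
    exact ⟨hK, hm⟩
  · have h3 : S.length * m ≤ K * m := Nat.mul_le_mul_right _ hS
    omega

/-- the first kind of branching -/
theorem case_cut (hI : Inp A G Fs) (hB : (A.length + 1) ^ bmax A Fs ≤ B.length)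
    (hlive : live Fs s.2 ≠ [])
    (hcut : nocut A Fs B s = false) :
    ∃ v ∈ free A s, (live Fs (ins A v s.2)).length * kap A Fs + (live Fs s.2).length ≤
      (live Fs s.2).length * kap A Fs := by
  unfold nocut at hcut
  rw [← Bool.not_eq_true, List.all_eq_true] at hcut
  push Not at hcut
  obtain ⟨S, hS, hS'⟩ := hcut
  rw [mem_subs_kap hB] at hS
  have hhit : ∀ F ∈ live Fs s.2, ∃ v ∈ S, v ∈ F := by
    intro F hF
    by_contra hno
    push Not at hno
    apply hS'
    rw [cds_iff hI.hA]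
    rw [mem_live] at hF
    refine (hI.hF F hF.1).2.2.mono ?_ ?_
    · intro v hv
      rw [List.mem_toFinset] at hv ⊢
      rw [mem_rest]
      exact ⟨(hI.hF F hF.1).2.1 v hv, Or.inr ⟨hF.2 v hv, fun h => hno v h hv⟩⟩
    · intro v hv
      rw [List.mem_toFinset, mem_rest] at hv
      simpa using hv.1
  have h1 := frequent S (live Fs s.2) hhit
  have hm : 0 < (live Fs s.2).length := List.length_pos_iff.2 hlive
  have hK : 0 < kap A Fs := by unfold kap; positivity
  obtain ⟨v, hv, hv'⟩ : ∃ v ∈ S, (live Fs s.2).length ≤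
      kap A Fs * ((live Fs s.2).filter fun F => decide (v ∈ F)).length := by
    by_contra hno
    push Not at hno
    rcases sum_le_of_lt S _ _ _ hS.1 hno hm with h2 | h2
    · have h3 := Nat.mul_le_mul_left (kap A Fs) h1
      omega
    · omega
  refine ⟨v, hS.2 v hv, ?_⟩
  have hvf := mem_free.1 (hS.2 v hv)
  rw [live_ins hI v s.2 hvf.1]
  have h4 := List.length_eq_length_filter_add (l := live Fs s.2) (fun F => decide (v ∈ F))
  set a := ((live Fs s.2).filter fun F => decide (v ∈ F)).length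
  set b := ((live Fs s.2).filter fun F => !decide (v ∈ F)).length
  have h5 : (live Fs s.2).length * kap A Fs = a * kap A Fs + b * kap A Fs := by
    rw [h4, add_mul]
  rw [h5]
  have h6 : kap A Fs * a = a * kap A Fs := mul_comm _ _
  omega

/-- a short known solution -/
theorem exists_short (hlong : long A Fs s = false) :
    ∃ F ∈ live Fs s.2, (F.toFinset \ s.1.toFinset).card ≤ ell A Fs + 2 := by
  unfold long at hlong
  rw [← Bool.not_eq_true, List.all_eq_true] at hlong
  push Not at hlong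
  obtain ⟨F, hF, h⟩ := hlong
  refine ⟨F, hF, ?_⟩
  have h' : ¬ (ell A Fs + 2 ≤ miss F s.1) := by simpa using h
  have h1 : (F.toFinset \ s.1.toFinset).card ≤ miss F s.1 := by
    unfold miss
    refine le_trans (le_of_eq ?_) (List.toFinset_card_le _)
    congr 1
    ext v
    simp
  omega

/-- the second kind of branching -/
theorem case_und (hI : Inp A G Fs) (hs : Val A s)
    (hlong : long A Fs s = false) (hund : nund A s.1 ≠ 0) :
    ∃ v ∈ free A s, nund A (ins A v s.1) * (ell A Fs + 2) + nund A s.1 ≤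
      nund A s.1 * (ell A Fs + 2) := by
  obtain ⟨F, hF, hshort⟩ := exists_short hlong
  rw [mem_live] at hF
  have hF' := hI.hF F hF.1
  have hne : (und G (range A.length) s.1.toFinset).Nonempty := by
    rw [nund_eq hI.hA] at hund
    exact card_pos.1 (Nat.pos_of_ne_zero hund)
  obtain ⟨v, hvF, hvT, h⟩ := dominate hF'.2.2.1 hne
  rw [List.mem_toFinset] at hvF hvT
  have hvn := hF'.2.1 v hvF
  refine ⟨v, mem_free.2 ⟨hvn, hvT, hF.2 v hvF⟩, ?_⟩
  rw [nund_eq hI.hA, nund_eq hI.hA, ins_toFinset hs.lt hvn]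
  have h2 : (und G (range A.length) (insert v s.1.toFinset)).card ≤
      (und G (range A.length) s.1.toFinset).card := card_le_card (und_mono (subset_insert _ _))
  obtain ⟨d, hd⟩ := Nat.exists_eq_add_of_le hshort
  rw [hd, mul_add, mul_add]
  have h3 := Nat.mul_le_mul_right d h2
  omega

/-- the third kind of branching -/
theorem case_comp (hI : Inp A G Fs) (hs : Val A s)
    (hlong : long A Fs s = false) (hund : nund A s.1 = 0) (hnosub : nosub Fs s = true) :
    ∃ v ∈ free A s, ncomp A s.1 + ncomp A (ins A v s.1) * (ell A Fs + 2) ≤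
      ncomp A s.1 * (ell A Fs + 2) + (ell A Fs + 2) := by
  obtain ⟨F, hF, hshort⟩ := exists_short hlong
  have hF0 := hF
  rw [mem_live] at hF
  have hF' := hI.hF F hF.1
  have hdom : Dom G (range A.length) s.1.toFinset := by
    rw [nund_eq hI.hA, card_eq_zero, und_eq_empty] at hund
    exact hund
  have hTN : s.1.toFinset ⊆ range A.length := by
    intro v hv
    rw [mem_range]
    exact hs.lt v (List.mem_toFinset.1 hv)
  have hFN : F.toFinset ⊆ range A.length := by
    intro v hv
    rw [mem_range]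
    exact hF'.2.1 v (List.mem_toFinset.1 hv)
  have hFT : ¬ F.toFinset ⊆ s.1.toFinset := by
    unfold nosub at hnosub
    rw [List.all_eq_true] at hnosub
    have := hnosub F hF0
    rwa [Bool.not_eq_true', ← Bool.not_eq_true, sub_iff] at this
  obtain ⟨v, hvF, hvT, h⟩ := touch hdom hTN hFN hF'.2.2 hFT
  rw [List.mem_toFinset] at hvF hvT
  have hvn := hF'.2.1 v hvF
  refine ⟨v, mem_free.2 ⟨hvn, hvT, hF.2 v hvF⟩, ?_⟩
  rw [ncomp_eq hI.hA (ins_nodup A v s.1), ncomp_eq hI.hA hs.nd, ins_toFinset hs.lt hvn]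
  have h2 : (cmp G (insert v s.1.toFinset)).card ≤ (cmp G s.1.toFinset).card := by
    refine cmp_card_le hdom (subset_insert _ _) ?_
    intro x hx
    rw [mem_range]
    rcases mem_insert.1 hx with rfl | h
    · exact hvn
    · exact hs.lt x (List.mem_toFinset.1 h)
  obtain ⟨d, hd⟩ := Nat.exists_eq_add_of_le hshort
  rw [hd, mul_add, mul_add]
  have h3 := Nat.mul_le_mul_right d h2
  omega

/-- the weight of the children is at most the weight of the parent -/
theorem kids_wt (hI : Inp A G Fs) (hB : (A.length + 1) ^ bmax A Fs ≤ B.length) (hs : Val A s) :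
    ((kids A Fs B s).map (wt A Fs)).sum ≤ wt A Fs s := by
  rcases kids_cases A Fs B s with h | ⟨hfree, _, hlive, hnosub, h⟩
  · rw [h]
    simp
  have hm : (live Fs s.2).length ≠ 0 := by
    rw [Ne, List.length_eq_zero_iff]
    exact hlive
  have hK : 1 ≤ kap A Fs := by unfold kap; nlinarith
  have hs0 : 1 ≤ ell A Fs + 2 := by omega
  -- general facts on the two children
  have hwt : ∀ v ∈ free A s, (sbud A Fs (ins A v s.1, s.2) + 1 ≤ sbud A Fs s ∨
      sbud A Fs (s.1, ins A v s.2) + 1 ≤ sbud A Fs s) →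
      ((branch A s v).map (wt A Fs)).sum ≤ wt A Fs s := by
    intro v hv hor
    have hvn := (mem_free.1 hv).1
    have e1 : sbud A Fs (ins A v s.1, s.2) ≤ sbud A Fs s := by
      refine bud_mono le_rfl (nund_ins_le hI hs hvn) (ncomp_le (ins_nodup A v s.1) ?_) ?_
      · intro x hx
        exact ins_lt hx
      · intro h0
        exact ncomp_ins_le hI hs hvn h0
    have e2 : sbud A Fs (s.1, ins A v s.2) ≤ sbud A Fs s :=
      bud_mono (live_ins_le hI v s.2 hvn) le_rfl (ncomp_le hs.nd hs.lt) fun _ => le_rfl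
    have f1 := free_ins_left hv
    have f2 := free_ins_right hv
    unfold branch wt
    simp only [List.map_cons, List.map_nil, List.sum_cons, List.sum_nil, add_zero]
    rw [f1, f2]
    have hf : 1 ≤ (free A s).length := List.length_pos_of_mem hv
    rcases hor with h1 | h1
    · rw [add_comm]
      exact pow_branch hf e2 h1
    · exact pow_branch hf e1 h1
  rcases h with ⟨hcut, h⟩ | ⟨_, hlong, hund, h⟩ | ⟨_, hlong, hund, hcomp, h⟩
  · rw [h]
    obtain ⟨h1, h2⟩ := amin_spec hfree fun v => (live Fs (ins A v s.2)).length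
    refine hwt _ h1 (Or.inr ?_)
    obtain ⟨v, hv, hv'⟩ := case_cut hI hB hlive hcut
    refine bud_drop_m hm hK (le_trans ?_ hv')
    exact Nat.add_le_add_right (Nat.mul_le_mul_right _ (h2 v hv)) _
  · rw [h]
    obtain ⟨h1, h2⟩ := amin_spec hfree fun v => nund A (ins A v s.1)
    refine hwt _ h1 (Or.inl ?_)
    obtain ⟨v, hv, hv'⟩ := case_und hI hs hlong hund
    refine bud_drop_u hm hs0 hund (ncomp_le (ins_nodup A _ s.1) fun x hx => ins_lt hx)
      (le_trans ?_ hv')
    exact Nat.add_le_add_right (Nat.mul_le_mul_right _ (h2 v hv)) _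
  · rw [h]
    obtain ⟨h1, h2⟩ := amin_spec hfree fun v => ncomp A (ins A v s.1)
    refine hwt _ h1 (Or.inl ?_)
    obtain ⟨v, hv, hv'⟩ := case_comp hI hs hlong hund hnosub
    have hmf := mem_free.1 h1
    set w := amin (free A s) fun v => ncomp A (ins A v s.1) with hw
    have h3 : nund A (ins A w s.1) = 0 := by
      have := nund_ins_le hI hs hmf.1
      omega
    unfold sbud
    simp only [h3, hund]
    refine bud_drop_c hm hs0 hcomp ?_ ?_
    · rw [ncomp_eq hI.hA (ins_nodup A w s.1)]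
      refine cmp_card_pos ⟨w, ?_⟩
      rw [List.mem_toFinset, mem_ins]
      exact ⟨hmf.1, Or.inl rfl⟩
    · refine le_trans ?_ hv'
      exact Nat.add_le_add_left (Nat.mul_le_mul_right _ (h2 v hv)) _

theorem sbud_le (hs : Val A s) : sbud A Fs s ≤ bmax A Fs := by
  have hm : (live Fs s.2).length ≤ 2 ^ ell A Fs := by
    refine le_trans ?_ (M_le (A := A))
    exact List.length_filter_le _ _
  have hn : A.length ≤ 2 ^ ell A Fs := n_le
  have hu : nund A s.1 ≤ 2 ^ ell A Fs := by
    refine le_trans ?_ (n_le (Fs := Fs))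
    unfold nund
    exact (List.length_filter_le _ _).trans (by simp)
  have hc : ncomp A s.1 ≤ 2 ^ ell A Fs := (ncomp_le hs.nd hs.lt).trans hn
  have h1 := lg_le_of_pow hm
  have h2 := lg_le_of_pow hn
  have h3 := lg_le_of_pow hu
  have h4 := lg_le_of_pow hc
  set l := ell A Fs with hl
  have hmu : mu (kap A Fs) (l + 2) A.length (live Fs s.2).length (nund A s.1) (ncomp A s.1) ≤
      ((kap A Fs * l + 3 * (l + 2) * l + 1 : ℕ) : ℝ) := by
    push_cast
    have g1 : (0 : ℝ) ≤ kap A Fs := Nat.cast_nonneg _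
    have g2 : (0 : ℝ) ≤ (l : ℝ) := Nat.cast_nonneg _
    have k1 := mul_le_mul_of_nonneg_left h1 g1
    have k2 := mul_le_mul_of_nonneg_left h2 (show (0 : ℝ) ≤ (l : ℝ) + 2 by linarith)
    have k3 := mul_le_mul_of_nonneg_left h3 (show (0 : ℝ) ≤ (l : ℝ) + 2 by linarith)
    have k4 := mul_le_mul_of_nonneg_left h4 (show (0 : ℝ) ≤ (l : ℝ) + 2 by linarith)
    unfold mu
    split_ifs
    · push_cast
      nlinarith
    · push_cast
      nlinarith
  unfold sbud bud
  rw [← hl]
  split_ifs
  · omega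
  · have h5 := Nat.floor_le_floor hmu
    rw [Nat.floor_natCast] at h5
    have h6 : kap A Fs * l + 3 * (l + 2) * l + 1 + 1 ≤ bmax A Fs := by
      unfold bmax
      rw [← hl]
      nlinarith
    omega

theorem wt_pos (A : Mat) (Fs : List (List ℕ)) (s : St) : 1 ≤ wt A Fs s :=
  Nat.one_le_pow _ _ (by omega)

theorem wt_le (hB : (A.length + 1) ^ bmax A Fs ≤ B.length) (hs : Val A s) :
    wt A Fs s ≤ B.length := pow_mono_le hB (sbud_le hs)

end

end Pool.Agent.H44.CDS
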