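import Pool.Agent.H44.CDS.Sample

/-!
# The sampling lemma: layers
-/

set_option autoImplicit false
set_option linter.unusedSectionVars false

namespace Pool.Agent.H44.CDS

open Finset Classical

variable {V : Type} [DecidableEq V] {G : SimpleGraph V}

theorem one_sub_inv_pow (m : ℕ) (hm : 1 ≤ m) : (1 - 1 / (m : ℝ)) ^ m ≤ 1 / 2 := by
  have h1 : (1 - 1 / (m : ℝ)) ^ m ≤ Real.exp (-1) :=
    Real.one_sub_div_pow_le_exp_neg (by exact_mod_cast hm)
  have h2 : Real.exp (-1) ≤ 1 / 2 := by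
    rw [Real.exp_neg, inv_eq_one_div]
    have := Real.exp_one_gt_d9
    exact one_div_le_one_div_of_le (by norm_num) (by linarith)
  exact h1.trans h2

/-- many disjoint connectors -/
theorem connectors {N T U D : Finset V} {κ : ℕ} (hTU : T ∪ U ⊆ N)
    (hrob : ∀ S ⊆ U, S.card ≤ κ → CD G N (T ∪ (U \ S))) (hdom : Dom G N D) (hTD : T ⊆ D)
    (hDU : D ⊆ T ∪ U) {x y : V} (hx : x ∈ D) (hy : y ∈ D) (hxy : ¬ Rch G D x y) :
    ∀ k : ℕ, 2 * k ≤ κ + 2 → ∃ l : List (Finset V), l.length = k ∧ l.Pairwise Disjoint ∧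
      (∀ P ∈ l, P ⊆ U \ D ∧ P.card ≤ 2) ∧
      ∀ P ∈ l, ∃ z ∈ D, ¬ Rch G D x z ∧ Rch G (D ∪ P) x z := by
  intro k
  induction k with
  | zero => exact fun _ => ⟨[], rfl, List.Pairwise.nil, by simp, by simp⟩
  | succ k ih =>
    intro hk
    obtain ⟨l, h1, h2, h3, h4⟩ := ih (by omega)
    set S : Finset V := l.toFinset.biUnion (fun P => P) with hS
    have hSmem : ∀ v, v ∈ S ↔ ∃ P ∈ l, v ∈ P := by
      intro v
      simp [hS]
    have hScard : S.card ≤ κ := by
      have e1 : S.card ≤ l.toFinset.card * 2 :=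
        card_biUnion_le_card_mul _ _ _ fun P hP => (h3 P (by simpa using hP)).2
      have e2 : l.toFinset.card ≤ l.length := l.toFinset_card_le
      omega
    have hSU : S ⊆ U := by
      intro v hv
      obtain ⟨P, hP, hvP⟩ := (hSmem v).1 hv
      exact (mem_sdiff.1 ((h3 P hP).1 hvP)).1
    have hSD : ∀ v ∈ S, v ∉ D := by
      intro v hv
      obtain ⟨P, hP, hvP⟩ := (hSmem v).1 hv
      exact (mem_sdiff.1 ((h3 P hP).1 hvP)).2
    have hDW : D ⊆ T ∪ (U \ S) := by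
      intro v hv
      rw [mem_union, mem_sdiff]
      rcases mem_union.1 (hDU hv) with h | h
      · exact Or.inl h
      · exact Or.inr ⟨h, fun h' => hSD v h' hv⟩
    have hWN : T ∪ (U \ S) ⊆ N := (union_subset_union_right sdiff_subset).trans hTU
    obtain ⟨P, hP1, hP2, hP3, z, hz⟩ := connector hdom hDW hWN (hrob S hSU hScard).2 hx hy hxy
    have hPU : ∀ v ∈ P, v ∈ U ∧ v ∉ S ∧ v ∉ D := by
      intro v hv
      have hvD := disjoint_left.1 hP2 hv
      rcases mem_union.1 (hP1 hv) with h | h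
      · exact absurd (hTD h) hvD
      · exact ⟨(mem_sdiff.1 h).1, (mem_sdiff.1 h).2, hvD⟩
    refine ⟨P :: l, by simp [h1], List.pairwise_cons.2 ⟨?_, h2⟩, ?_, ?_⟩
    · intro P' hP'
      rw [disjoint_left]
      intro v hv hv'
      exact (hPU v hv).2.1 ((hSmem v).2 ⟨P', hP', hv'⟩)
    · intro P' hP'
      rcases List.mem_cons.1 hP' with rfl | h
      · exact ⟨fun v hv => mem_sdiff.2 ⟨(hPU v hv).1, (hPU v hv).2.2⟩, hP3⟩
      · exact h3 P' h
    · intro P' hP'
      rcases List.mem_cons.1 hP' with rfl | h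
      · exact ⟨z, hz⟩
      · exact h4 P' h

/-- one layer: the expected number of components -/
theorem step_comp {N T U D : Finset V} {κ Q : ℕ} (hQ : 1 ≤ Q) (hκ : 2 * Q ^ 2 ≤ κ)
    (hTU : T ∪ U ⊆ N)
    (hrob : ∀ S ⊆ U, S.card ≤ κ → CD G N (T ∪ (U \ S))) (hdom : Dom G N D) (hTD : T ⊆ D)
    (hDU : D ⊆ T ∪ U) (hne : D.Nonempty) :
    Ex (1 / (Q : ℝ)) (U \ D) (fun Y => ((cmp G (D ∪ Y)).card : ℝ) - 1) ≤
      3 / 4 * (((cmp G D).card : ℝ) - 1) := by
  set q : ℝ := 1 / (Q : ℝ) with hq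
  have hQ' : (1 : ℝ) ≤ Q := by exact_mod_cast hQ
  have hq0 : 0 ≤ q := by positivity
  have hq1 : q ≤ 1 := by
    rw [hq, div_le_one (by linarith)]
    exact hQ'
  have hYN : ∀ Y ⊆ U \ D, D ∪ Y ⊆ N := by
    intro Y hY
    refine union_subset (hDU.trans hTU) ((hY.trans sdiff_subset).trans ?_)
    exact subset_union_right.trans hTU
  have hpos : 0 < (cmp G D).card := cmp_card_pos hne
  by_cases hc : (cmp G D).card ≤ 1
  · have h1 : (cmp G D).card = 1 := by omega
    rw [h1]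
    have h2 : Ex q (U \ D) (fun Y => ((cmp G (D ∪ Y)).card : ℝ) - 1) ≤
        Ex q (U \ D) (fun _ => 0) := by
      refine Ex_mono hq0 hq1 fun Y hY => ?_
      have h3 := cmp_card_le hdom (subset_union_left (s₁ := D) (s₂ := Y)) (hYN Y hY)
      have h4 : (cmp G (D ∪ Y)).card ≤ 1 := h3.trans hc
      have h5 : ((cmp G (D ∪ Y)).card : ℝ) ≤ 1 := by exact_mod_cast h4
      linarith
    rw [Ex_const] at h2
    norm_num
    exact h2
  · -- merging probability
    have hmerge : ∀ C ∈ cmp G D, 1 / 2 ≤ Ex q (U \ D) (fun Y =>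
        if ∃ C' ∈ cmp G D, C' ≠ C ∧ up G (D ∪ Y) C' = up G (D ∪ Y) C then (1 : ℝ) else 0) := by
      intro C hC
      have hC' := hC
      simp only [cmp, mem_image] at hC'
      obtain ⟨x, hx, rfl⟩ := hC'
      have h1 : ∃ y ∈ D, ¬ Rch G D x y := by
        by_contra h
        push Not at h
        refine hc ((con_iff hne).1 ⟨hne, fun a ha b hb => (h a ha).symm.trans (h b hb)⟩)
      obtain ⟨y, hy, hxy⟩ := h1
      obtain ⟨l, hl1, hl2, hl3, hl4⟩ := connectors hTU hrob hdom hTD hDU hx hy hxy (Q ^ 2) (by omega)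
      have h2 := Ex_disj hq0 hq1 l (U \ D) hl3 hl2
      rw [hl1] at h2
      have h3 : (1 - q ^ 2) ^ (Q ^ 2) ≤ 1 / 2 := by
        have := one_sub_inv_pow (Q ^ 2) (Nat.one_le_pow _ _ (by omega))
        rw [hq]
        rw [div_pow, one_pow]
        exact_mod_cast this
      have h4 : Ex q (U \ D) (fun Y => if ∃ P ∈ l, P ⊆ Y then (1 : ℝ) else 0) =
          1 - Ex q (U \ D) (fun Y => if ∃ P ∈ l, P ⊆ Y then 0 else 1) := by
        have h5 : Ex q (U \ D) (fun Y => (if ∃ P ∈ l, P ⊆ Y then (1 : ℝ) else 0) +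
            (if ∃ P ∈ l, P ⊆ Y then 0 else 1)) = 1 := by
          have h0 : (fun Y : Finset V => (if ∃ P ∈ l, P ⊆ Y then (1 : ℝ) else 0) +
            (if ∃ P ∈ l, P ⊆ Y then 0 else 1)) = fun _ => 1 := by
            funext Y
            split_ifs <;> simp
          rw [h0, Ex_one]
        rw [Ex_add] at h5
        linarith
      have h5 : Ex q (U \ D) (fun Y => if ∃ P ∈ l, P ⊆ Y then (1 : ℝ) else 0) ≤
          Ex q (U \ D) (fun Y => if ∃ C' ∈ cmp G D, C' ≠ cls G D x ∧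
            up G (D ∪ Y) C' = up G (D ∪ Y) (cls G D x) then (1 : ℝ) else 0) := by
        refine Ex_mono hq0 hq1 fun Y hY => ?_
        by_cases hP : ∃ P ∈ l, P ⊆ Y
        · rw [if_pos hP, if_pos]
          obtain ⟨P, hP, hPY⟩ := hP
          obtain ⟨z, hz, hz1, hz2⟩ := hl4 P hP
          refine ⟨cls G D z, cls_mem_cmp hz, ?_, ?_⟩
          · intro h
            exact hz1 ((cls_eq_iff hz).1 h.symm)
          · have hs : D ⊆ D ∪ Y := subset_union_left
            rw [up_cls hs hz, up_cls hs hx]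
            exact (cls_eq_iff (hs hx)).2 ((hz2.mono (union_subset_union_right hPY)).symm)
        · rw [if_neg hP]
          split_ifs <;> norm_num
      linarith
    -- expectation of the counting inequality
    have hcount : Ex q (U \ D) (fun Y => 2 * ((cmp G (D ∪ Y)).card : ℝ) +
        ∑ C ∈ cmp G D, (if ∃ C' ∈ cmp G D, C' ≠ C ∧ up G (D ∪ Y) C' = up G (D ∪ Y) C
          then (1 : ℝ) else 0)) ≤ Ex q (U \ D) (fun _ => 2 * ((cmp G D).card : ℝ)) := by
      refine Ex_mono hq0 hq1 fun Y hY => ?_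
      have h1 := card_image_merge (cmp G D) (up G (D ∪ Y))
      rw [← cmp_eq_image hdom subset_union_left (hYN Y hY)] at h1
      rw [sum_boole]
      exact_mod_cast h1
    rw [Ex_const, Ex_add, Ex_mul, Ex_sum] at hcount
    have hsum : ∑ C ∈ cmp G D, (1 / 2 : ℝ) ≤ ∑ C ∈ cmp G D, Ex q (U \ D) (fun Y =>
        if ∃ C' ∈ cmp G D, C' ≠ C ∧ up G (D ∪ Y) C' = up G (D ∪ Y) C then (1 : ℝ) else 0) :=
      sum_le_sum hmerge
    rw [sum_const, nsmul_eq_mul] at hsum
    have h6 : Ex q (U \ D) (fun Y => ((cmp G (D ∪ Y)).card : ℝ) - 1) =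
        Ex q (U \ D) (fun Y => ((cmp G (D ∪ Y)).card : ℝ)) - 1 := by
      have h7 := Ex_add (q := q) (U \ D) (fun Y => ((cmp G (D ∪ Y)).card : ℝ)) (fun _ => -1)
      rw [Ex_const] at h7
      simpa [sub_eq_add_neg] using h7
    rw [h6]
    linarith

/-- the potential -/
noncomputable def Pot (G : SimpleGraph V) (q : ℝ) (ℱ : Finset (Finset V)) (j : ℕ)
    (D : Finset V) : ℝ :=
  (3 / 4) ^ j * (((cmp G D).card : ℝ) - 1) + ∑ F ∈ ℱ, (j * q) ^ (F \ D).card

/-- one layer -/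
theorem step_layer {N T U D : Finset V} {κ Q : ℕ} (hQ : 1 ≤ Q) (hκ : 2 * Q ^ 2 ≤ κ)
    (hTU : T ∪ U ⊆ N)
    (hrob : ∀ S ⊆ U, S.card ≤ κ → CD G N (T ∪ (U \ S))) (hdom : Dom G N D) (hTD : T ⊆ D)
    (hDU : D ⊆ T ∪ U) (hne : D.Nonempty) (ℱ : Finset (Finset V)) (hℱ : ∀ F ∈ ℱ, F ⊆ T ∪ U)
    (j : ℕ) : ∃ Y ⊆ U \ D, Pot G (1 / (Q : ℝ)) ℱ j (D ∪ Y) ≤ Pot G (1 / (Q : ℝ)) ℱ (j + 1) D := by
  have h0 := step_comp hQ hκ hTU hrob hdom hTD hDU hne
  set q : ℝ := 1 / (Q : ℝ) with hq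
  have hQ' : (1 : ℝ) ≤ Q := by exact_mod_cast hQ
  have hq0 : 0 ≤ q := by positivity
  have hq1 : q ≤ 1 := by
    rw [hq, div_le_one (by linarith)]
    exact hQ'
  obtain ⟨Y, hY, hle⟩ := exists_le_Ex hq0 hq1 (U \ D) (fun Y => Pot G q ℱ j (D ∪ Y))
  refine ⟨Y, hY, hle.trans ?_⟩
  unfold Pot
  rw [Ex_add, Ex_mul, Ex_sum]
  refine add_le_add ?_ (sum_le_sum fun F hF => ?_)
  · rw [pow_succ, mul_assoc]
    exact mul_le_mul_of_nonneg_left h0 (by positivity)
  · have hFR : F \ D ⊆ U \ D := by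
      intro v hv
      rw [mem_sdiff] at hv ⊢
      rcases mem_union.1 (hℱ F hF hv.1) with h | h
      · exact absurd (hTD h) hv.2
      · exact ⟨h, hv.2⟩
    have h1 := Ex_pow (q := q) hFR (j * q)
    have h2 : (fun Y => ((j : ℝ) * q) ^ (F \ (D ∪ Y)).card) =
        fun Y => ((j : ℝ) * q) ^ ((F \ D) \ Y).card := by
      funext Y
      rw [sdiff_union_distrib, sdiff_sdiff_left]
      congr 2
      ext v
      simp only [mem_inter, mem_sdiff, sup_eq_union, mem_union]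
      tauto
    rw [h2, h1]
    refine pow_le_pow_left₀ ?_ ?_ _
    · have : 0 ≤ 1 - q := by linarith
      positivity
    · push_cast
      have : 0 ≤ (j : ℝ) * q * q := by positivity
      nlinarith

/-- all layers -/
theorem layers {N T U : Finset V} {κ Q : ℕ} (hQ : 1 ≤ Q) (hκ : 2 * Q ^ 2 ≤ κ)
    (hTU : T ∪ U ⊆ N) (hrob : ∀ S ⊆ U, S.card ≤ κ → CD G N (T ∪ (U \ S)))
    (ℱ : Finset (Finset V)) (hℱ : ∀ F ∈ ℱ, F ⊆ T ∪ U) : ∀ (j : ℕ) (D : Finset V),
    Dom G N D → T ⊆ D → D ⊆ T ∪ U → D.Nonempty → Pot G (1 / (Q : ℝ)) ℱ j D < 1 →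
    ∃ D', T ⊆ D' ∧ D' ⊆ T ∪ U ∧ CD G N D' ∧ ∀ F ∈ ℱ, ¬ F ⊆ D' := by
  intro j
  induction j with
  | zero =>
    intro D hdom hTD hDU hne hpot
    unfold Pot at hpot
    simp only [pow_zero, one_mul, Nat.cast_zero, zero_mul] at hpot
    have hpos : 0 < (cmp G D).card := cmp_card_pos hne
    have hpos' : (1 : ℝ) ≤ (cmp G D).card := by exact_mod_cast hpos
    have hs : 0 ≤ ∑ F ∈ ℱ, (0 : ℝ) ^ (F \ D).card := sum_nonneg fun F _ => by positivity
    refine ⟨D, hTD, hDU, ⟨hdom, (con_iff hne).2 ?_⟩, fun F hF hFD => ?_⟩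
    · have h1 : ((cmp G D).card : ℝ) < 2 := by linarith
      have h2 : (cmp G D).card < 2 := by exact_mod_cast h1
      omega
    · have h1 : (0 : ℝ) ^ (F \ D).card = 1 := by
        rw [sdiff_eq_empty_iff_subset.2 hFD, card_empty, pow_zero]
      have h2 : (0 : ℝ) ^ (F \ D).card ≤ ∑ F ∈ ℱ, (0 : ℝ) ^ (F \ D).card :=
        single_le_sum (f := fun F => (0 : ℝ) ^ (F \ D).card) (fun F _ => by positivity) hF
      linarith
  | succ j ih =>
    intro D hdom hTD hDU hne hpot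
    obtain ⟨Y, hY, hle⟩ := step_layer hQ hκ hTU hrob hdom hTD hDU hne ℱ hℱ j
    have hs : D ⊆ D ∪ Y := subset_union_left
    refine ih (D ∪ Y) (hdom.mono hs) (hTD.trans hs) (union_subset hDU ?_) (hne.mono hs)
      (hle.trans_lt hpot)
    exact (hY.trans sdiff_subset).trans subset_union_right

/-- **The sampling lemma.** -/
theorem sampling {N T U : Finset V} (ℓ : ℕ) (hN : N.card ≤ 2 ^ ℓ) (hne : N.Nonempty)
    (hTU : T ∪ U ⊆ N) (hrob : ∀ S ⊆ U, S.card ≤ 2 * (6 * ℓ + 14) ^ 2 → CD G N (T ∪ (U \ S)))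
    (ℱ : Finset (Finset V)) (hM : ℱ.card ≤ 2 ^ ℓ) (hℱ : ∀ F ∈ ℱ, F ⊆ T ∪ U)
    (hlong : ∀ F ∈ ℱ, ℓ + 2 ≤ (F \ T).card) (hdisj : Disjoint T U) :
    ∃ D', T ⊆ D' ∧ D' ⊆ T ∪ U ∧ CD G N D' ∧ ∀ F ∈ ℱ, ¬ F ⊆ D' := by
  set Q : ℕ := 6 * ℓ + 14 with hQ
  set κ : ℕ := 2 * Q ^ 2 with hκ
  set q : ℝ := 1 / (Q : ℝ) with hq
  have hQ1 : 1 ≤ Q := by omega
  have hQ' : (1 : ℝ) ≤ Q := by exact_mod_cast hQ1
  have hq0 : 0 ≤ q := by positivity
  have hq1 : q ≤ 1 := by
    rw [hq, div_le_one (by linarith)]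
    exact hQ'
  -- the number of later layers
  set J : ℕ := 3 * ℓ + 6 with hJ
  -- neighbourhoods of undominated vertices
  set nb : V → Finset V := fun w => U.filter (fun u => u = w ∨ G.Adj w u) with hnb
  have hnbcard : ∀ w ∈ und G N T, κ < (nb w).card := by
    intro w hw
    by_contra h
    have h1 := hrob (nb w) (filter_subset _ _) (by omega)
    simp only [und, mem_filter] at hw
    have h2 : ∀ d ∈ T ∪ (U \ nb w), d ≠ w ∧ ¬ G.Adj w d := by
      intro d hd
      rcases mem_union.1 hd with h' | h'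
      · exact ⟨fun e => hw.2.1 (e ▸ h'), hw.2.2 d h'⟩
      · rw [mem_sdiff] at h'
        have h3 : ¬ (d = w ∨ G.Adj w d) := fun h3 => h'.2 (mem_filter.2 ⟨h'.1, h3⟩)
        push Not at h3
        exact h3
    rcases h1.1 w hw.1 with h' | ⟨d, hd, h'⟩
    · exact (h2 w h').1 rfl
    · exact (h2 d hd).2 h'
  -- expectation for the first layer
  set g : Finset V → ℝ := fun Y => (∑ w ∈ und G N T, if Disjoint (nb w) Y then (1 : ℝ) else 0) +
    Pot G q ℱ J (T ∪ Y) with hg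
  obtain ⟨Y, hY, hle⟩ := exists_le_Ex hq0 hq1 U g
  have hEx : Ex q U g ≤ 5 / 8 := by
    have hNc : (N.card : ℝ) ≤ 2 ^ ℓ := by exact_mod_cast hN
    have h1 : Ex q U (fun Y => ∑ w ∈ und G N T, if Disjoint (nb w) Y then (1 : ℝ) else 0) ≤
        1 / 8 := by
      rw [Ex_sum]
      have h2 : ∀ w ∈ und G N T,
          Ex q U (fun Y => if Disjoint (nb w) Y then (1 : ℝ) else 0) ≤ (1 / 2) ^ (ℓ + 3) := by
        intro w hw
        rw [Ex_miss (filter_subset _ _)]
        have h3 : Q * (ℓ + 3) ≤ (nb w).card := by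
          have := hnbcard w hw
          have h4 : ℓ + 3 ≤ Q := by omega
          nlinarith
        calc (1 - q) ^ (nb w).card ≤ (1 - q) ^ (Q * (ℓ + 3)) :=
              pow_le_pow_of_le_one (by linarith) (by linarith) h3
          _ = ((1 - q) ^ Q) ^ (ℓ + 3) := by rw [pow_mul]
          _ ≤ (1 / 2) ^ (ℓ + 3) := by
              refine pow_le_pow_left₀ ?_ (one_sub_inv_pow Q hQ1) _
              exact pow_nonneg (by linarith) _
      calc ∑ w ∈ und G N T, Ex q U (fun Y => if Disjoint (nb w) Y then (1 : ℝ) else 0)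
          ≤ ∑ w ∈ und G N T, (1 / 2 : ℝ) ^ (ℓ + 3) := sum_le_sum h2
        _ = (und G N T).card * (1 / 2 : ℝ) ^ (ℓ + 3) := by rw [sum_const, nsmul_eq_mul]
        _ ≤ 2 ^ ℓ * (1 / 2 : ℝ) ^ (ℓ + 3) := by
            refine mul_le_mul_of_nonneg_right ?_ (by positivity)
            have h5 : (und G N T).card ≤ N.card := card_le_card (filter_subset _ _)
            have h6 : ((und G N T).card : ℝ) ≤ N.card := by exact_mod_cast h5
            linarith
        _ = 1 / 8 := by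
            rw [pow_add, ← mul_assoc, ← mul_pow]
            norm_num
    have h2 : Ex q U (fun Y => (3 / 4 : ℝ) ^ J * (((cmp G (T ∪ Y)).card : ℝ) - 1)) ≤ 1 / 4 := by
      have h3 : Ex q U (fun Y => (3 / 4 : ℝ) ^ J * (((cmp G (T ∪ Y)).card : ℝ) - 1)) ≤
          Ex q U (fun _ => 1 / 4) := by
        refine Ex_mono hq0 hq1 fun Y hY => ?_
        have h4 : (cmp G (T ∪ Y)).card ≤ N.card :=
          (cmp_card_le_card _).trans (card_le_card ((union_subset_union_right hY).trans hTU))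
        have h5 : ((cmp G (T ∪ Y)).card : ℝ) ≤ N.card := by exact_mod_cast h4
        have h6 : (3 / 4 : ℝ) ^ J ≤ (1 / 2) ^ (ℓ + 2) := by
          have : J = 3 * (ℓ + 2) := by omega
          rw [this, pow_mul]
          exact pow_le_pow_left₀ (by norm_num) (by norm_num) _
        calc (3 / 4 : ℝ) ^ J * (((cmp G (T ∪ Y)).card : ℝ) - 1)
            ≤ (3 / 4 : ℝ) ^ J * 2 ^ ℓ := mul_le_mul_of_nonneg_left (by linarith) (by positivity)
          _ ≤ (1 / 2) ^ (ℓ + 2) * 2 ^ ℓ := mul_le_mul_of_nonneg_right h6 (by positivity)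
          _ = 1 / 4 := by
              rw [pow_add, mul_right_comm, ← mul_pow]
              norm_num
      rwa [Ex_const] at h3
    have h3 : Ex q U (fun Y => ∑ F ∈ ℱ, ((J : ℝ) * q) ^ (F \ (T ∪ Y)).card) ≤ 1 / 4 := by
      rw [Ex_sum]
      have h4 : ∀ F ∈ ℱ, Ex q U (fun Y => ((J : ℝ) * q) ^ (F \ (T ∪ Y)).card) ≤
          (1 / 2) ^ (ℓ + 2) := by
        intro F hF
        have hFR : F \ T ⊆ U := by
          intro v hv
          rw [mem_sdiff] at hv
          rcases mem_union.1 (hℱ F hF hv.1) with h | h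
          · exact absurd h hv.2
          · exact h
        have h5 := Ex_pow (q := q) hFR (J * q)
        have h6 : (fun Y => ((J : ℝ) * q) ^ (F \ (T ∪ Y)).card) =
            fun Y => ((J : ℝ) * q) ^ ((F \ T) \ Y).card := by
          funext Y
          congr 2
          ext v
          simp only [mem_sdiff, mem_union]
          tauto
        rw [h6, h5]
        have h7 : q + (1 - q) * (J * q) ≤ 1 / 2 := by
          have e1 : q + (1 - q) * (J * q) ≤ (J + 1) * q := by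
            have : 0 ≤ (J : ℝ) * q * q := by positivity
            nlinarith
          have e2 : ((J : ℝ) + 1) * q = 1 / 2 := by
            have e3 : (Q : ℝ) = 2 * (J + 1) := by
              rw [hQ, hJ]
              push_cast
              ring
            rw [hq, e3]
            field_simp
          linarith
        have h8 : 0 ≤ q + (1 - q) * (J * q) := by
          have : 0 ≤ 1 - q := by linarith
          positivity
        calc (q + (1 - q) * (J * q)) ^ (F \ T).card ≤ (1 / 2) ^ (F \ T).card :=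
              pow_le_pow_left₀ h8 h7 _
          _ ≤ (1 / 2) ^ (ℓ + 2) := pow_le_pow_of_le_one (by norm_num) (by norm_num) (hlong F hF)
      calc ∑ F ∈ ℱ, Ex q U (fun Y => ((J : ℝ) * q) ^ (F \ (T ∪ Y)).card)
          ≤ ∑ F ∈ ℱ, (1 / 2 : ℝ) ^ (ℓ + 2) := sum_le_sum h4
        _ = ℱ.card * (1 / 2 : ℝ) ^ (ℓ + 2) := by rw [sum_const, nsmul_eq_mul]
        _ ≤ 2 ^ ℓ * (1 / 2 : ℝ) ^ (ℓ + 2) := by
            refine mul_le_mul_of_nonneg_right ?_ (by positivity)
            exact_mod_cast hM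
        _ = 1 / 4 := by
            rw [pow_add, ← mul_assoc, ← mul_pow]
            norm_num
    have h4 : Ex q U g = Ex q U (fun Y => ∑ w ∈ und G N T,
        if Disjoint (nb w) Y then (1 : ℝ) else 0) +
        (Ex q U (fun Y => (3 / 4 : ℝ) ^ J * (((cmp G (T ∪ Y)).card : ℝ) - 1)) +
          Ex q U (fun Y => ∑ F ∈ ℱ, ((J : ℝ) * q) ^ (F \ (T ∪ Y)).card)) := by
      rw [← Ex_add, ← Ex_add]
      rfl
    rw [h4]
    linarith
  have hlt := hle.trans hEx
  -- the chosen first layer is dominating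
  have hs : T ⊆ T ∪ Y := subset_union_left
  have hYU : T ∪ Y ⊆ T ∪ U := union_subset_union_right hY
  have hF0 : 0 ≤ ∑ F ∈ ℱ, ((J : ℝ) * q) ^ (F \ (T ∪ Y)).card :=
    sum_nonneg fun F _ => by positivity
  have hsum0 : ∀ w ∈ und G N T, (0 : ℝ) ≤ if Disjoint (nb w) Y then (1 : ℝ) else 0 :=
    fun w _ => by split_ifs <;> norm_num
  have hcmp0 : 0 ≤ (cmp G (T ∪ Y)).card := Nat.zero_le _
  by_cases hTY : (T ∪ Y).Nonempty
  · have hc1 : (1 : ℝ) ≤ (cmp G (T ∪ Y)).card := by exact_mod_cast cmp_card_pos hTY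
    have hP0 : 0 ≤ Pot G q ℱ J (T ∪ Y) := by
      unfold Pot
      have : 0 ≤ (3 / 4 : ℝ) ^ J * (((cmp G (T ∪ Y)).card : ℝ) - 1) :=
        mul_nonneg (by positivity) (by linarith)
      linarith
    have hdom : Dom G N (T ∪ Y) := by
      rw [← und_eq_empty, eq_empty_iff_forall_notMem]
      intro w hw
      have hwT : w ∈ und G N T := und_mono hs hw
      have h1 : Disjoint (nb w) Y := by
        rw [disjoint_left]
        intro v hv hvY
        simp only [hnb, mem_filter] at hv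
        simp only [und, mem_filter, mem_union] at hw
        rcases hv.2 with h | h
        · exact hw.2.1 (Or.inr (h ▸ hvY))
        · exact hw.2.2 v (Or.inr hvY) h
      have h2 := single_le_sum (f := fun w => if Disjoint (nb w) Y then (1 : ℝ) else 0) hsum0 hwT
      simp only [h1, if_true] at h2
      simp only [hg] at hlt
      linarith
    have hpot : Pot G q ℱ J (T ∪ Y) < 1 := by
      have h2 : 0 ≤ ∑ w ∈ und G N T, if Disjoint (nb w) Y then (1 : ℝ) else 0 :=
        sum_nonneg hsum0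
      simp only [hg] at hlt
      linarith
    exact layers hQ1 le_rfl hTU hrob ℱ hℱ J (T ∪ Y) hdom hs hYU hTY hpot
  · -- impossible: `T ∪ Y` is empty but the first layer dominates
    exfalso
    rw [not_nonempty_iff_eq_empty] at hTY
    have hY0 : Y = ∅ := (union_eq_empty.1 hTY).2
    have hT0 : T = ∅ := (union_eq_empty.1 hTY).1
    subst hY0 hT0
    have hundN : und G N ∅ = N := by
      unfold und
      rw [filter_eq_self]
      intro w _
      simp
    have h1 : ∑ w ∈ und G N (∅ : Finset V), (if Disjoint (nb w) ∅ then (1 : ℝ) else 0) =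
        N.card := by
      rw [hundN]
      simp
    have h2 : (1 : ℝ) ≤ N.card := by exact_mod_cast card_pos.2 hne
    have h3 : Pot G q ℱ J (∅ ∪ ∅) = - (3 / 4) ^ J +
        ∑ F ∈ ℱ, ((J : ℝ) * q) ^ (F \ (∅ ∪ ∅)).card := by
      unfold Pot
      simp [cmp]
    simp only [hg] at hlt
    rw [h1, h3] at hlt
    have h4 : (3 / 4 : ℝ) ^ J ≤ (3 / 4) ^ 6 :=
      pow_le_pow_of_le_one (by norm_num) (by norm_num) (by omega)
    have h5 : 0 ≤ ∑ F ∈ ℱ, ((J : ℝ) * q) ^ (F \ (∅ ∪ ∅)).card :=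
      sum_nonneg fun F _ => by positivity
    norm_num at h4
    linarith

end Pool.Agent.H44.CDS
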