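import Pool.Agent.H44.CDS.Budget

/-!
# Correctness of the whole algorithm
-/

set_option autoImplicit false

namespace Pool.Agent.H44.CDS

open Finset

section

variable {A : Mat} {G : SimpleGraph ℕ} {Fs : List (List ℕ)} {B : List Unit}

/-- invariant of the main loop -/
structure LInv (A : Mat) (G : SimpleGraph ℕ) (Fs : List (List ℕ)) (B : List Unit) (s₀ : St)
    (k : ℕ) (p : Bool × List St) : Prop where
  val : ∀ s ∈ p.2, Val A s
  wsum : (p.2.map (wt A Fs)).sum ≤ B.length
  fr : ∀ s ∈ p.2, (free A s).length + k ≤ A.length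
  snd1 : p.1 = true → Sat A G Fs s₀
  snd2 : ∀ s ∈ p.2, Sat A G Fs s → Sat A G Fs s₀
  cpl : Sat A G Fs s₀ → p.1 = true ∨ ∃ s ∈ p.2, Sat A G Fs s

theorem LInv.step (hI : Inp A G Fs) (hB : (A.length + 1) ^ bmax A Fs ≤ B.length) {s₀ : St} {k : ℕ}
    {p : Bool × List St} (h : LInv A G Fs B s₀ k p) : LInv A G Fs B s₀ (k + 1) (lstep A Fs B p) := by
  have hw : (((p.2.flatMap fun s => kids A Fs B s)).map (wt A Fs)).sum ≤ B.length := by
    refine le_trans ?_ h.wsum
    have hval := h.val
    generalize p.2 = l at hval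
    induction l with
    | nil => simp
    | cons s l ih =>
      rw [List.flatMap_cons, List.map_append, List.sum_append, List.map_cons, List.sum_cons]
      exact Nat.add_le_add (kids_wt hI hB (hval s (by simp)))
        (ih fun s' hs' => hval s' (by simp [hs']))
  have hlen : (p.2.flatMap fun s => kids A Fs B s).length ≤ B.length := by
    refine le_trans ?_ hw
    generalize (p.2.flatMap fun s => kids A Fs B s) = l
    induction l with
    | nil => simp
    | cons s l ih =>
      rw [List.length_cons, List.map_cons, List.sum_cons]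
      have := wt_pos A Fs s
      omega
  have e : (lstep A Fs B p).2 = p.2.flatMap fun s => kids A Fs B s := by
    unfold lstep
    exact trunc_eq hlen
  have e1 : (lstep A Fs B p).1 = (p.1 || p.2.any fun s => acc A Fs B s) := rfl
  have hmem : ∀ s, s ∈ (lstep A Fs B p).2 ↔ ∃ s' ∈ p.2, s ∈ kids A Fs B s' := by
    intro s
    rw [e, List.mem_flatMap]
  constructor
  · intro s hs
    obtain ⟨s', h1, h2⟩ := (hmem s).1 hs
    exact kids_val (h.val s' h1) h2
  · rw [e]
    exact hw
  · intro s hs
    obtain ⟨s', h1, h2⟩ := (hmem s).1 hs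
    have h3 := kids_free h2
    have h4 := h.fr s' h1
    omega
  · intro h1
    rw [e1, Bool.or_eq_true, List.any_eq_true] at h1
    rcases h1 with h1 | ⟨s, h1, h2⟩
    · exact h.snd1 h1
    · exact h.snd2 s h1 (acc_sound hI hB (h.val s h1) h2)
  · intro s hs hsat
    obtain ⟨s', h1, h2⟩ := (hmem s).1 hs
    exact h.snd2 s' h1 (kids_sound (h.val s' h1) h2 hsat)
  · intro h0
    rcases h.cpl h0 with h1 | ⟨s, h1, h2⟩
    · left
      rw [e1, h1, Bool.true_or]
    · rcases kids_complete hI hB (h.val s h1) h2 with h3 | ⟨s', h3, h4⟩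
      · left
        rw [e1, Bool.or_eq_true, List.any_eq_true]
        exact Or.inr ⟨s, h1, h3⟩
      · exact Or.inr ⟨s', (hmem s').2 ⟨s, h1, h3⟩, h4⟩

theorem decB_iff (hI : Inp A G Fs) (hB : (A.length + 1) ^ bmax A Fs ≤ B.length) (Z : List ℕ) :
    decB A Fs B Z = true ↔ Sat A G Fs ([], Z) := by
  have hv : Val A ([], Z) := ⟨by simp, by simp, by simp⟩
  have h : ∀ k, LInv A G Fs B ([], Z) k ((lstep A Fs B)^[k] (false, [([], Z)])) := by
    intro k
    induction k with
    | zero =>
      constructor
      · intro s hs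
        simp only [Function.iterate_zero, id_eq, List.mem_singleton] at hs
        subst hs
        exact hv
      · simpa using wt_le hB hv
      · intro s hs
        simp only [Function.iterate_zero, id_eq, List.mem_singleton] at hs
        subst hs
        simpa using free_length_le A ([], Z)
      · simp
      · intro s hs
        simp only [Function.iterate_zero, id_eq, List.mem_singleton] at hs
        subst hs
        exact fun h => h
      · intro h
        exact Or.inr ⟨([], Z), by simp, h⟩
    | succ k ih =>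
      rw [Function.iterate_succ_apply']
      exact ih.step hI hB
  have h1 := h (A.length + 1)
  unfold decB
  refine ⟨h1.snd1, fun hs => ?_⟩
  rcases h1.cpl hs with h2 | ⟨s, h2, _⟩
  · exact h2
  · have := h1.fr s h2
    omega

theorem Sat.anti {Z Z' : List ℕ} (hZ : ∀ v, v < A.length → v ∈ Z → v ∈ Z')
    (h : Sat A G Fs ([], Z')) : Sat A G Fs ([], Z) := by
  obtain ⟨D, h1, h2, h3, h4⟩ := h
  exact ⟨D, h1, h2, fun v hv hv' => h3 v hv (hZ v (by simpa using h1 hv) hv'), h4⟩

/-- invariant of the minimisation -/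
theorem fold_inv (hI : Inp A G Fs) (hB : (A.length + 1) ^ bmax A Fs ≤ B.length)
    (h0 : Sat A G Fs ([], [])) : ∀ k ≤ A.length,
    Sat A G Fs ([], (List.range k).foldl (fstep A Fs B) []) ∧
    ∀ v < k, v ∉ (List.range k).foldl (fstep A Fs B) [] →
      ¬ Sat A G Fs ([], ins A v ((List.range k).foldl (fstep A Fs B) [])) := by
  intro k
  induction k with
  | zero => exact fun _ => ⟨by simpa using h0, by simp⟩
  | succ k ih =>
    intro hk
    obtain ⟨h1, h2⟩ := ih (by omega)
    rw [List.range_succ, List.foldl_append, List.foldl_cons, List.foldl_nil]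
    set Z := (List.range k).foldl (fstep A Fs B) [] with hZ
    by_cases hd : decB A Fs B (ins A k Z) = true
    · have e : fstep A Fs B Z k = ins A k Z := by unfold fstep; rw [hd]; rfl
      rw [e]
      refine ⟨(decB_iff hI hB _).1 hd, fun v hv hvZ => ?_⟩
      have hvk : v ≠ k := by
        rintro rfl
        exact hvZ (mem_ins.2 ⟨by omega, Or.inl rfl⟩)
      have hvZ' : v ∉ Z := fun h => hvZ (mem_ins.2 ⟨by omega, Or.inr h⟩)
      intro hsat
      refine h2 v (by omega) hvZ' (hsat.anti fun w hw hw' => ?_)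
      rw [mem_ins] at hw' ⊢
      refine ⟨hw, ?_⟩
      rcases hw'.2 with h | h
      · exact Or.inl h
      · exact Or.inr (mem_ins.2 ⟨hw, Or.inr h⟩)
    · have e : fstep A Fs B Z k = Z := by
        unfold fstep
        rw [Bool.not_eq_true] at hd
        rw [hd]
        rfl
      rw [e]
      refine ⟨h1, fun v hv hvZ => ?_⟩
      rcases Nat.lt_succ_iff_lt_or_eq.1 hv with h | h
      · exact h2 v h hvZ
      · subst h
        exact fun hsat => hd ((decB_iff hI hB _).2 hsat)

/-- **Correctness.** -/
theorem next_spec (hI : Inp A G Fs) (hB : (A.length + 1) ^ bmax A Fs ≤ B.length) :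
    (next A Fs B = none ∧ ∀ D ⊆ range A.length, CD G (range A.length) D →
      ∃ F ∈ Fs, F.toFinset ⊆ D) ∨
    ∃ D ⊆ range A.length, CD G (range A.length) D ∧
      (∀ D' ⊆ D, CD G (range A.length) D' → D' = D) ∧ (∀ F ∈ Fs, ¬ F.toFinset ⊆ D) ∧
      next A Fs B = some ((List.range A.length).map fun v => decide (v ∈ D)) := by
  by_cases h0 : decB A Fs B [] = true
  · right
    have hsat := (decB_iff hI hB []).1 h0
    obtain ⟨h1, h2⟩ := fold_inv hI hB hsat A.length le_rfl
    set Z := (List.range A.length).foldl (fstep A Fs B) [] with hZ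
    have hmin : ∀ D' ⊆ range A.length, (∀ v ∈ D', v ∉ Z) → CD G (range A.length) D' →
        (∀ F ∈ Fs, ¬ F.toFinset ⊆ D') → ∀ v < A.length, v ∉ Z → v ∈ D' := by
      intro D' hD1 hD2 hD3 hD4 v hv hvZ
      by_contra hvD
      refine h2 v hv hvZ ⟨D', hD1, by simp, fun w hw hw' => ?_, hD3, hD4⟩
      rcases (mem_ins.1 hw').2 with rfl | h
      · exact hvD hw
      · exact hD2 w hw h
    obtain ⟨D, hD1, _, hD2, hD3, hD4⟩ := h1
    have hDmem : ∀ v < A.length, (v ∈ D ↔ v ∉ Z) := fun v hv =>
      ⟨hD2 v, hmin D hD1 hD2 hD3 hD4 v hv⟩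
    refine ⟨D, hD1, hD3, ?_, hD4, ?_⟩
    · intro D' hD' hCD
      refine Subset.antisymm hD' fun v hv => ?_
      refine hmin D' (hD'.trans hD1) (fun w hw => hD2 w (hD' hw)) hCD
        (fun F hF hFD => hD4 F hF (hFD.trans hD')) v (by simpa using hD1 hv) (hD2 v hv)
    · unfold next
      rw [h0, cond_true]
      congr 1
      refine List.map_congr_left fun v hv => ?_
      rw [← hZ]
      have hv' : v < A.length := by simpa using hv
      rw [Bool.eq_iff_iff]
      simp only [Bool.not_eq_true', decide_eq_false_iff_not, decide_eq_true_eq]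
      exact (hDmem v hv').symm
  · left
    have hd := h0
    rw [decB_iff hI hB] at h0
    refine ⟨?_, fun D hD1 hD2 => ?_⟩
    · unfold next
      rw [Bool.not_eq_true] at hd
      rw [hd]
      rfl
    · by_contra h
      push Not at h
      exact h0 ⟨D, hD1, by simp, by simp, hD2, h⟩

end

end Pool.Agent.H44.CDS
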