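import Pool.Agent.H44.CDS.PolyAlg

/-!
# Padding, loops, and quasi-polynomial time bounds
-/

set_option autoImplicit false
set_option linter.unusedSectionVars false

namespace Pool.Agent.H44.CDS

open Pool.Agent.NPC Pool.Agent.NPC.H532 Turing

variable {α β γ σ : Type} [TEnc α] [TEnc β] [TEnc γ] [TEnc σ]

theorem sz_units (n : ℕ) : sz (List.replicate n ()) = 2 * n + 1 := by
  induction n with
  | zero => rfl
  | succ n ih => rw [List.replicate_succ, sz_list_cons, sz_unit, ih]; ring

/-- one multiplication step of the padding -/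
def padG (s : α × List Unit × List Unit) : α × List Unit × List Unit :=
  (s.1, s.2.1, s.2.1.flatMap fun _ => s.2.2)

theorem poly_padG : Poly (padG : α × List Unit × List Unit → _) := by
  unfold padG
  have h : Poly (fun s : α × List Unit × List Unit => s.2.1.flatMap fun _ => s.2.2) :=
    Poly.flatMap (F := fun (s : α × List Unit × List Unit) _ => s.2.2) (by fun_prop)
      (by fun_prop)
  fun_prop

theorem padG_iter (x : α) (m n k : ℕ) :
    padG^[k] (x, List.replicate m (), List.replicate n ()) =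
      (x, List.replicate m (), List.replicate (m ^ k * n) ()) := by
  induction k with
  | zero => simp
  | succ k ih =>
    rw [Function.iterate_succ_apply', ih, padG]
    simp only [Prod.mk.injEq, true_and]
    rw [List.eq_replicate_iff]
    refine ⟨?_, fun _ _ => rfl⟩
    rw [List.length_flatMap]
    simp [pow_succ]
    ring

/-- A polynomial-time function of a padded input is computed in time polynomial in the length of
the padded input. -/
theorem padded {m : α → ℕ} (hm : UPoly m) {c : α → γ} (hc : Poly c)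
    {g : α × List Unit → β} (hg : Poly g) :
    ∃ (prog : Cmd ℕ) (p : Polynomial ℕ), ∀ a : α, Runs prog (inp (bits a))
      (inp (bits (g (a, List.replicate (m a ^ sz (c a)) ()))))
      (p.eval (sz a + (m a + 1) ^ sz (c a))) := by
  have h1 : PC (bits : α → List Bool) T.enc (fun a => T.node (toT (c a))
      (toT (a, List.replicate (m a) (), [()]))) := by
    have h2 : Poly (fun a : α => (a, List.replicate (m a) (), [()])) := by
      have h3 : Poly (fun a : α => List.replicate (m a) ()) := hm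
      fun_prop
    exact PC.node hc h2
  have h3 : Poly (fun s : α × List Unit × List Unit => g (s.1, s.2.2)) :=
    Poly.comp (g := g) (f := fun s : α × List Unit × List Unit => (s.1, s.2.2)) hg
      (by fun_prop)
  obtain ⟨u', hu'⟩ := h1.length_le
  obtain ⟨c1, r1, hc1⟩ := h1
  obtain ⟨c2, r2, hc2⟩ := poly_padG (α := α)
  obtain ⟨c3, r3, hc3⟩ := h3
  have hsize : ∀ a : α, ∀ k ≤ sz (c a), (bits (padG^[k]
      (a, List.replicate (m a) (), [()]))).length ≤ 4 * (sz a + (m a + 1) ^ sz (c a)) + 4 := by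
    intro a k hk
    have e0 : ([()] : List Unit) = List.replicate 1 () := rfl
    rw [e0, padG_iter, bits_length, sz_pair, sz_pair, sz_units, sz_units, mul_one]
    have e3 : m a ^ k ≤ (m a + 1) ^ sz (c a) :=
      (Nat.pow_le_pow_left (by omega) k).trans (Nat.pow_le_pow_right (by omega) hk)
    have e4 : m a + 1 ≤ (m a + 1) ^ sz (c a) := by
      calc m a + 1 = (m a + 1) ^ 1 := (pow_one _).symm
        _ ≤ _ := Nat.pow_le_pow_right (by omega) (sz_pos _)
    omega
  set B4 : Polynomial ℕ := 4 * Polynomial.X + 4 with hB4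
  have hB4' : ∀ x, B4.eval x = 4 * x + 4 := fun x => by simp [hB4]
  refine ⟨Cmd.seq c1 (Cmd.seq split (Cmd.seq (Cmd.loop 1 (Cmd.seq (Cmd.pop 1) (ev c2))) c3)),
    r1 + ((5 * u' + 3) + (((r2.comp B4 + 2) * u' + 1) + r3.comp B4)), fun a => ?_⟩
  have a1 := hc1 a
  have a2 := split_runs (toT (c a)) (toT (a, List.replicate (m a) (), [()]))
  have a3 := loop_runs (eb := bits) (f := padG) hc2 (4 * (sz a + (m a + 1) ^ sz (c a)) + 4)
    (toT (c a)).enc.reverse (a, List.replicate (m a) (), [()]) (fun k hk => hsize a k (by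
      rw [List.length_reverse] at hk
      exact hk))
  have e0 : padG^[(toT (c a)).enc.reverse.length] (a, List.replicate (m a) (), [()]) =
      (a, List.replicate (m a) (), List.replicate (m a ^ sz (c a)) ()) := by
    have e1 : ([()] : List Unit) = List.replicate 1 () := rfl
    rw [e1, padG_iter, List.length_reverse, mul_one]
    rfl
  rw [e0] at a3
  have a4 := hc3 (a, List.replicate (m a) (), List.replicate (m a ^ sz (c a)) ())
  rw [inp_eq_st, inp_eq_st] at a1 a4
  rw [inp_eq_st, inp_eq_st]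
  refine (a1.seq (a2.seq (a3.seq a4))).mono ?_
  have ha : (bits a).length = sz a := bits_length a
  rw [ha]
  set X := sz a + (m a + 1) ^ sz (c a) with hX
  have hXa : sz a ≤ X := by omega
  have b1 : (toT (c a)).size ≤ u'.eval X := by
    have := hu' a
    simp only [T.enc, List.length_cons, List.length_append] at this
    rw [ha] at this
    have h5 := eval_mono u' hXa
    unfold T.size
    omega
  have b2 : (bits (a, List.replicate (m a) (), List.replicate (m a ^ sz (c a)) ())).length ≤
      4 * X + 4 := by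
    have := hsize a (sz (c a)) le_rfl
    have e1 : ([()] : List Unit) = List.replicate 1 () := rfl
    rw [e1, padG_iter, mul_one] at this
    exact this
  have b3 := eval_mono r3 b2
  have b4 : (toT (c a)).enc.reverse.length ≤ u'.eval X := by
    rw [List.length_reverse]; exact b1
  have b5 := Nat.mul_le_mul_left (r2.eval (4 * X + 4) + 2) b4
  have b6 := eval_mono r1 hXa
  simp only [Polynomial.eval_add, Polynomial.eval_mul, Polynomial.eval_comp, hB4',
    Polynomial.eval_ofNat, Polynomial.eval_one]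
  omega

/-! ### while loops -/

/-- body of a loop: compute `f`, and put the flag on stack `1` -/
def wbody (c : Cmd ℕ) : Cmd ℕ :=
  Cmd.seq (Cmd.pop 1) (Cmd.seq (Cmd.pop 1) (Cmd.seq (ev c) (Cmd.seq split (Cmd.pop 1))))

/-- a while loop -/
def wloop (c : Cmd ℕ) : Cmd ℕ := Cmd.seq (Cmd.push 1 true) (Cmd.loop 1 (wbody c))

theorem wbody_runs {c : Cmd ℕ} {f : σ → Bool × σ} {x : σ} {τ : ℕ}
    (hc : Runs c (inp (bits x)) (inp (bits (f x))) τ) {l : List Bool} (hl : l.tail.tail = []) :
    Runs (wbody c) (st (bits x) l []) (st (bits (f x).2) (toT (f x).1).enc.reverse.tail [])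
      (τ + 21) := by
  have h1 : Runs (Cmd.pop 1) (st (bits x) l []) (st (bits x) l.tail []) 1 :=
    (Runs.pop _ 1).conv rfl (by simp) le_rfl
  have h2 : Runs (Cmd.pop 1) (st (bits x) l.tail []) (st (bits x) [] []) 1 :=
    (Runs.pop _ 1).conv rfl (by simp [hl]) le_rfl
  have h3 := ev_runs hc []
  have h4 := split_runs (toT (f x).1) (toT (f x).2)
  have h5 : Runs (Cmd.pop 1) (st (toT (f x).2).enc (toT (f x).1).enc.reverse [])
      (st (bits (f x).2) (toT (f x).1).enc.reverse.tail []) 1 :=
    (Runs.pop _ 1).conv rfl (by simp [bits]) le_rfl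
  have e : st (bits (f x)) [] [] = st (T.node (toT (f x).1) (toT (f x).2)).enc [] [] := rfl
  rw [e] at h3
  refine (h1.seq (h2.seq (h3.seq (h4.seq h5)))).mono ?_
  have h6 : (toT (f x).1).size ≤ 3 := by
    cases (f x).1 <;> simp
  omega

theorem wloop_runs {c : Cmd ℕ} {f : σ → Bool × σ} {τ : σ → ℕ}
    (hc : ∀ x : σ, Runs c (inp (bits x)) (inp (bits (f x))) (τ x)) (Tm : ℕ) :
    ∀ (k : ℕ) (x : σ) (l : List Bool), l ≠ [] → l.tail.tail = [] →
      (∀ i ≤ k, τ ((fun y => (f y).2)^[i] x) ≤ Tm) →
      (∀ i < k, (f ((fun y => (f y).2)^[i] x)).1 = true) →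
      (f ((fun y => (f y).2)^[k] x)).1 = false →
      Runs (Cmd.loop 1 (wbody c)) (st (bits x) l [])
        (st (bits ((fun y => (f y).2)^[k + 1] x)) [] []) ((k + 1) * (Tm + 22) + 1) := by
  intro k
  induction k with
  | zero =>
    intro x l hl hl2 hT _ hf
    have h1 := wbody_runs (hc x) hl2
    simp only [Function.iterate_zero, id_eq] at hf
    rw [hf] at h1
    have h2 : Runs (Cmd.loop 1 (wbody c)) (st (bits (f x).2) (toT false).enc.reverse.tail [])
        (st (bits (f x).2) [] []) 1 := by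
      refine (Runs.loopNil ?_).conv rfl ?_ le_rfl
      · rfl
      · rfl
    refine (Runs.loopCons (by simpa using hl) h1 h2).conv rfl (by simp) ?_
    have := hT 0 le_rfl
    simp only [Function.iterate_zero, id_eq] at this
    omega
  | succ k ih =>
    intro x l hl hl2 hT hft hf
    have h1 := wbody_runs (hc x) hl2
    have h0 := hft 0 (by omega)
    simp only [Function.iterate_zero, id_eq] at h0
    rw [h0] at h1
    have h2 := ih (f x).2 (toT true).enc.reverse.tail (by simp [T.enc]) (by simp [T.enc])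
      (fun i hi => by
        have := hT (i + 1) (by omega)
        rwa [Function.iterate_succ_apply] at this)
      (fun i hi => by
        have := hft (i + 1) (by omega)
        rwa [Function.iterate_succ_apply] at this)
      (by rwa [Function.iterate_succ_apply] at hf)
    refine (Runs.loopCons (by simpa using hl) h1 h2).conv rfl ?_ ?_
    · rw [Function.iterate_succ_apply (n := k + 1)]
    · have := hT 0 (by omega)
      simp only [Function.iterate_zero, id_eq] at this
      rw [add_mul (k + 1) 1]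
      omega

theorem wloop_total {c : Cmd ℕ} {f : σ → Bool × σ} {τ : σ → ℕ}
    (hc : ∀ x : σ, Runs c (inp (bits x)) (inp (bits (f x))) (τ x)) (Tm : ℕ) (k : ℕ) (x : σ)
    (hT : ∀ i ≤ k, τ ((fun y => (f y).2)^[i] x) ≤ Tm)
    (hft : ∀ i < k, (f ((fun y => (f y).2)^[i] x)).1 = true)
    (hf : (f ((fun y => (f y).2)^[k] x)).1 = false) :
    Runs (wloop c) (inp (bits x)) (inp (bits ((fun y => (f y).2)^[k + 1] x)))
      ((k + 1) * (Tm + 22) + 2) := by
  have h1 : Runs (Cmd.push 1 true) (st (bits x) [] []) (st (bits x) [true] []) 1 :=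
    (Runs.push _ 1 true).conv rfl (by simp) le_rfl
  have h2 := wloop_runs hc Tm k x [true] (by simp) (by simp) hT hft hf
  rw [inp_eq_st, inp_eq_st]
  refine (h1.seq h2).mono (by omega)

/-! ### machines -/

/-- the machine of a program -/
def mach (prog : Cmd ℕ) : TM2ComputableAux Bool Bool where
  tm := (prog.map (Fin.ofNat (prog.bd + 1))).toTM
  inputAlphabet := Equiv.refl Bool
  outputAlphabet := Equiv.refl Bool

theorem mach_runs {prog : Cmd ℕ} {x y : List Bool} {n : ℕ} (h : Runs prog (inp x) (inp y) n) :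
    Nonempty (TM2OutputsInTime (mach prog).tm (x.map (mach prog).inputAlphabet.invFun)
      (some (y.map (mach prog).outputAlphabet.invFun)) (n + 1)) := by
  obtain ⟨t, ht, hr⟩ := h
  have h1 := hr.restrict (n := prog.bd) (by omega)
  have h2 : Nonempty (TM2OutputsInTime (prog.map (Fin.ofNat (prog.bd + 1))).toTM x
        (some y) (t + 1)) := by
    refine toTM_outputs ?_
    convert! h1 using 1
    · funext i
      by_cases hi : i = 0
      · subst hi; simp [inp]
      · have : (i : ℕ) ≠ 0 := fun h => hi (Fin.ext h)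
        simp [inp, hi, this]
    · funext i
      by_cases hi : i = 0
      · subst hi; simp [inp]
      · have : (i : ℕ) ≠ 0 := fun h => hi (Fin.ext h)
        simp [inp, hi, this]
  obtain ⟨h3⟩ := h2
  exact ⟨outputs_conv (List.map_id x).symm (List.map_id y).symm (by omega) h3⟩

/-! ### quasi-polynomial bounds -/

/-- functions bounded by `2 ^ (k (log₂ L + 1) ^ 4)` -/
def QB4 (h : ℕ → ℕ) : Prop := ∃ k, ∀ L, h L ≤ 2 ^ (k * (Nat.log 2 L + 1) ^ 4)

theorem poly_eval_le' (p : Polynomial ℕ) : ∃ c, ∀ n, p.eval n ≤ (n + 2) ^ c := by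
  induction p using Polynomial.induction_on' with
  | add p q hp hq =>
    obtain ⟨a, ha⟩ := hp
    obtain ⟨b, hb⟩ := hq
    refine ⟨a + b + 1, fun n => ?_⟩
    rw [Polynomial.eval_add, pow_succ]
    have h1 : (n + 2) ^ a ≤ (n + 2) ^ (a + b) := Nat.pow_le_pow_right (by omega) (by omega)
    have h2 : (n + 2) ^ b ≤ (n + 2) ^ (a + b) := Nat.pow_le_pow_right (by omega) (by omega)
    have h3 := ha n
    have h4 := hb n
    have h5 : (n + 2) ^ (a + b) * 2 ≤ (n + 2) ^ (a + b) * (n + 2) :=
      Nat.mul_le_mul_left _ (by omega)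
    omega
  | monomial k c =>
    refine ⟨c + k, fun n => ?_⟩
    rw [Polynomial.eval_monomial, pow_add]
    refine Nat.mul_le_mul ?_ (Nat.pow_le_pow_left (by omega) k)
    exact (Nat.lt_two_pow_self).le.trans (Nat.pow_le_pow_left (by omega) c)

theorem QB4.mono {h h' : ℕ → ℕ} (hh : QB4 h) (hle : ∀ L, h' L ≤ h L) : QB4 h' := by
  obtain ⟨k, hk⟩ := hh
  exact ⟨k, fun L => (hle L).trans (hk L)⟩

theorem QB4.pow {h : ℕ → ℕ} (hh : QB4 h) (c : ℕ) : QB4 (fun L => h L ^ c) := by
  obtain ⟨k, hk⟩ := hh
  refine ⟨k * c, fun L => ?_⟩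
  calc h L ^ c ≤ (2 ^ (k * (Nat.log 2 L + 1) ^ 4)) ^ c := Nat.pow_le_pow_left (hk L) c
    _ = _ := by rw [← pow_mul]; congr 1; ring

theorem QB4.add {h g : ℕ → ℕ} (hh : QB4 h) (hg : QB4 g) : QB4 (fun L => h L + g L) := by
  obtain ⟨k, hk⟩ := hh
  obtain ⟨l, hl⟩ := hg
  refine ⟨k + l + 1, fun L => ?_⟩
  set z := (Nat.log 2 L + 1) ^ 4 with hz
  have hz1 : 1 ≤ z := Nat.one_le_pow _ _ (by omega)
  have h1 : 2 ^ (k * z) ≤ 2 ^ ((k + l) * z) := Nat.pow_le_pow_right (by norm_num) (by nlinarith)
  have h2 : 2 ^ (l * z) ≤ 2 ^ ((k + l) * z) := Nat.pow_le_pow_right (by norm_num) (by nlinarith)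
  calc h L + g L ≤ 2 ^ ((k + l) * z) + 2 ^ ((k + l) * z) :=
        Nat.add_le_add ((hk L).trans h1) ((hl L).trans h2)
    _ = 2 ^ ((k + l) * z + 1) := by rw [pow_succ]; ring
    _ ≤ 2 ^ ((k + l + 1) * z) := Nat.pow_le_pow_right (by norm_num) (by nlinarith)

theorem QB4.mul {h g : ℕ → ℕ} (hh : QB4 h) (hg : QB4 g) : QB4 (fun L => h L * g L) := by
  obtain ⟨k, hk⟩ := hh
  obtain ⟨l, hl⟩ := hg
  refine ⟨k + l, fun L => ?_⟩
  rw [add_mul, pow_add]
  exact Nat.mul_le_mul (hk L) (hl L)

theorem QB4.const (c : ℕ) : QB4 (fun _ => c) := by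
  refine ⟨c, fun L => ?_⟩
  have h1 : 1 ≤ (Nat.log 2 L + 1) ^ 4 := Nat.one_le_pow _ _ (by omega)
  exact (Nat.lt_two_pow_self).le.trans (Nat.pow_le_pow_right (by norm_num) (by nlinarith))

theorem lt_log (L : ℕ) : L < 2 ^ (Nat.log 2 L + 1) := Nat.lt_pow_succ_log_self (by norm_num) L

theorem QB4.id : QB4 (fun L => L) := by
  refine ⟨1, fun L => (lt_log L).le.trans (Nat.pow_le_pow_right (by norm_num) ?_)⟩
  rw [one_mul]
  exact Nat.le_self_pow (by norm_num) _

theorem QB4.poly {h : ℕ → ℕ} (hh : QB4 h) (p : Polynomial ℕ) : QB4 (fun L => p.eval (h L)) := by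
  obtain ⟨c, hc⟩ := poly_eval_le' p
  exact ((hh.add (QB4.const 2)).pow c).mono fun L => hc (h L)

end Pool.Agent.H44.CDS
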