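import Pool.Agent.H44.CDS.Machine
import Pool.Graph.R_seed8.NPC.Dec

/-!
# Minimal connected dominating sets of graphs on `Fin n`: the enumeration algorithms
-/

set_option autoImplicit false
set_option linter.unusedSectionVars false

namespace Pool.Agent.H44.CDS

open Pool.Agent.NPC Pool.Agent.NPC.H532 Pool.Agent.NPC.R671 Turing

/-- `D` is a connected dominating set of the graph `G`: every vertex outside `D` has a neighbour
in `D`, and the subgraph induced by `D` is connected (in particular nonempty). -/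
def IsCDS {n : ℕ} (G : SimpleGraph (Fin n)) (D : Finset (Fin n)) : Prop :=
  (∀ v, v ∉ D → ∃ w ∈ D, G.Adj v w) ∧ (G.induce (D : Set (Fin n))).Connected

/-- `D` is a minimal connected dominating set: no proper subset is a connected dominating set. -/
def IsMinCDS {n : ℕ} (G : SimpleGraph (Fin n)) (D : Finset (Fin n)) : Prop :=
  IsCDS G D ∧ ∀ D' : Finset (Fin n), D' ⊂ D → ¬ IsCDS G D'

/-- The characteristic vector of a set of vertices. -/
def vec {n : ℕ} (D : Finset (Fin n)) : List Bool := List.ofFn fun i => decide (i ∈ D)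

section Translate

variable {n : ℕ} (G : SimpleGraph (Fin n))

/-- the graph on the natural numbers -/
def nG : SimpleGraph ℕ where
  Adj i j := ∃ (hi : i < n) (hj : j < n), G.Adj ⟨i, hi⟩ ⟨j, hj⟩
  symm := ⟨fun _ _ ⟨hi, hj, h⟩ => ⟨hj, hi, h.symm⟩⟩
  loopless := ⟨fun _ ⟨_, _, h⟩ => G.irrefl h⟩

theorem adj_adjMatrix (i j : ℕ) : adj (adjMatrix G) i j = true ↔ (nG G).Adj i j := by
  unfold adj adjMatrix nG
  simp only
  rw [List.getD_eq_getElem?_getD, List.getD_eq_getElem?_getD, List.getElem?_ofFn]
  by_cases hi : i < n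
  · rw [dif_pos hi, Option.getD_some, List.getElem?_ofFn]
    by_cases hj : j < n
    · simp [hi, hj]
    · simp [hj]
  · simp [hi]

theorem length_adjMatrix : (adjMatrix G).length = n := by simp [adjMatrix]

variable {G}

theorem rch_of_reachable {D : Finset (Fin n)} {D' : Finset ℕ}
    (hD : ∀ i : Fin n, i ∈ D ↔ (i : ℕ) ∈ D') {a b : (D : Set (Fin n))}
    (h : (G.induce (D : Set (Fin n))).Reachable a b) : Rch (nG G) D' (a : Fin n) (b : Fin n) := by
  rw [SimpleGraph.reachable_iff_reflTransGen] at h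
  induction h with
  | refl => exact Rch.refl _
  | @tail c d _ h ih =>
    refine ih.trans (Rch.single ?_ ?_ ?_)
    · exact (hD _).1 c.2
    · exact (hD _).1 d.2
    · exact ⟨(c : Fin n).2, (d : Fin n).2, h⟩

theorem reachable_of_rch {D : Finset (Fin n)} {D' : Finset ℕ}
    (hD : ∀ i : Fin n, i ∈ D ↔ (i : ℕ) ∈ D') (a : (D : Set (Fin n)))
    {y : ℕ} (h : Rch (nG G) D' (a : Fin n) y) :
    ∃ b : (D : Set (Fin n)), ((b : Fin n) : ℕ) = y ∧
      (G.induce (D : Set (Fin n))).Reachable a b := by
  unfold Rch at h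
  induction h with
  | refl => exact ⟨a, rfl, SimpleGraph.Reachable.refl _⟩
  | @tail c d _ h ih =>
    obtain ⟨b, hb, hab⟩ := ih
    obtain ⟨hc, hd, hc', hd', hadj⟩ := h
    have hd2 : (⟨d, hd'⟩ : Fin n) ∈ D := (hD _).2 hd
    refine ⟨⟨⟨d, hd'⟩, hd2⟩, rfl, hab.trans (SimpleGraph.Adj.reachable ?_)⟩
    subst hb
    exact hadj

theorem cd_iff {D : Finset (Fin n)} {D' : Finset ℕ}
    (hD : ∀ i : Fin n, i ∈ D ↔ (i : ℕ) ∈ D') (hn : D' ⊆ Finset.range n) :
    CD (nG G) (Finset.range n) D' ↔ IsCDS G D := by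
  unfold CD IsCDS
  refine and_congr ?_ ?_
  · unfold Dom
    constructor
    · intro h v hv
      rcases h v (by simp) with h1 | ⟨d, hd, h1⟩
      · exact absurd ((hD v).2 h1) hv
      · obtain ⟨_, hd', h2⟩ := h1
        exact ⟨⟨d, hd'⟩, (hD _).2 hd, h2⟩
    · intro h w hw
      have hw' : w < n := by simpa using hw
      by_cases hwD : w ∈ D'
      · exact Or.inl hwD
      · obtain ⟨v, hv, h1⟩ := h ⟨w, hw'⟩ (fun h' => hwD ((hD _).1 h'))
        exact Or.inr ⟨v, (hD _).1 hv, hw', v.2, h1⟩
  · constructor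
    · rintro ⟨⟨x, hx⟩, h⟩
      have hx' : x < n := by simpa using hn hx
      rw [SimpleGraph.connected_iff]
      refine ⟨fun a b => ?_, ⟨⟨⟨x, hx'⟩, (hD _).2 hx⟩⟩⟩
      obtain ⟨b', hb', h1⟩ := reachable_of_rch hD a
        (h (a : Fin n) ((hD _).1 a.2) (b : Fin n) ((hD _).1 b.2))
      have : b' = b := Subtype.ext (Fin.ext hb')
      rwa [this] at h1
    · intro h
      rw [SimpleGraph.connected_iff] at h
      obtain ⟨h1, ⟨x⟩⟩ := h
      refine ⟨⟨_, (hD _).1 x.2⟩, fun a ha b hb => ?_⟩
      have ha' : a < n := by simpa using hn ha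
      have hb' : b < n := by simpa using hn hb
      exact rch_of_reachable hD (h1 ⟨⟨a, ha'⟩, (hD ⟨a, ha'⟩).2 ha⟩ ⟨⟨b, hb'⟩, (hD ⟨b, hb'⟩).2 hb⟩)

theorem mem_idx {A : Mat} (hA : A.length = n) {D : Finset (Fin n)} {x : ℕ} :
    x ∈ idx A (vec D) ↔ ∃ h : x < n, (⟨x, h⟩ : Fin n) ∈ D := by
  unfold idx vec
  rw [List.mem_filter, List.mem_range, hA]
  constructor
  · rintro ⟨h1, h2⟩
    refine ⟨h1, ?_⟩
    rw [List.getD_eq_getElem?_getD, List.getElem?_ofFn, dif_pos h1] at h2
    simpa using h2
  · rintro ⟨h1, h2⟩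
    refine ⟨h1, ?_⟩
    rw [List.getD_eq_getElem?_getD, List.getElem?_ofFn, dif_pos h1]
    simpa using h2

theorem vec_injective : Function.Injective (vec : Finset (Fin n) → List Bool) := by
  intro D D' h
  have h1 := List.ofFn_injective h
  ext i
  have h2 := congrFun h1 i
  simpa using h2

variable (G) in
/-- the algorithm, on a graph and a list of minimal connected dominating sets -/
theorem solve_spec (ℱ : List (Finset (Fin n))) (hℱ : ∀ D ∈ ℱ, IsMinCDS G D) (B : List Unit)
    (hB : ((adjMatrix G).length + 1) ^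
      bmax (adjMatrix G) ((ℱ.map vec).map (idx (adjMatrix G))) ≤ B.length) :
    ∃ o : Option (Finset (Fin n)), solve (adjMatrix G, ℱ.map vec) B = o.map vec ∧
      (∀ D, o = some D → IsMinCDS G D ∧ D ∉ ℱ) ∧ (o = none → ∀ D, IsMinCDS G D → D ∈ ℱ) := by
  set A := adjMatrix G with hA
  have hlen : A.length = n := length_adjMatrix G
  have hfs : ∀ D : Finset (Fin n), ∀ i : Fin n, i ∈ D ↔ (i : ℕ) ∈ (idx A (vec D)).toFinset := by
    intro D i
    rw [List.mem_toFinset, mem_idx hlen]
    simp
  have hsubn : ∀ D : Finset (Fin n), (idx A (vec D)).toFinset ⊆ Finset.range n := by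
    intro D x hx
    rw [List.mem_toFinset, mem_idx hlen] at hx
    obtain ⟨h, _⟩ := hx
    simpa using h
  have hcd : ∀ D : Finset (Fin n), CD (nG G) (Finset.range A.length) (idx A (vec D)).toFinset ↔
      IsCDS G D := by
    intro D
    rw [hlen]
    exact cd_iff (hfs D) (hsubn D)
  have hI : Inp A (nG G) ((ℱ.map vec).map (idx A)) := by
    refine ⟨adj_adjMatrix G, ?_⟩
    intro F hF
    rw [List.map_map, List.mem_map] at hF
    obtain ⟨D, hD, rfl⟩ := hF
    refine ⟨List.Nodup.filter _ List.nodup_range, ?_, (hcd D).2 (hℱ D hD).1⟩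
    intro v hv
    rw [Function.comp_apply, mem_idx hlen] at hv
    rw [hlen]
    exact hv.1
  rcases next_spec hI hB with ⟨h1, h2⟩ | ⟨D', h1, h2, h3, h4, h5⟩
  · refine ⟨none, h1, by simp, fun _ D hD => ?_⟩
    obtain ⟨F, hF, hFD⟩ := h2 (idx A (vec D)).toFinset (by rw [hlen]; exact hsubn D)
      ((hcd D).2 hD.1)
    rw [List.map_map, List.mem_map] at hF
    obtain ⟨E, hE, rfl⟩ := hF
    have hED : E ⊆ D := by
      intro i hi
      exact (hfs D i).2 (hFD ((hfs E i).1 hi))
    by_cases h : E = D
    · rw [← h]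
      exact hE
    · exact absurd (hℱ E hE).1 (hD.2 E (Finset.ssubset_iff_subset_ne.2 ⟨hED, h⟩))
  · set D : Finset (Fin n) := Finset.univ.filter fun i => (i : ℕ) ∈ D' with hDdef
    have hDmem : ∀ i : Fin n, i ∈ D ↔ (i : ℕ) ∈ D' := fun i => by simp [hDdef]
    rw [hlen] at h1 h2 h3
    refine ⟨some D, ?_, ?_, by simp⟩
    · unfold solve
      simp only
      rw [h5, Option.map_some]
      congr 1
      apply List.ext_getElem
      · simp [vec, hlen]
      · intro i h6 h7
        simp [vec, hDmem]
    · intro E hE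
      cases hE
      refine ⟨⟨(cd_iff hDmem h1).1 h2, fun E hE hcE => ?_⟩, fun hDF => ?_⟩
      · have h6 : (idx A (vec E)).toFinset ⊆ D' := by
          intro x hx
          have hx' : x < n := by simpa using hsubn E hx
          exact (hDmem ⟨x, hx'⟩).1 (hE.1 ((hfs E ⟨x, hx'⟩).2 hx))
        have h7 := h3 _ h6 ((cd_iff (hfs E) (hsubn E)).2 hcE)
        apply hE.2
        intro i hi
        rw [hfs E, h7]
        exact (hDmem i).1 hi
      · refine h4 (idx A (vec D)) ?_ ?_
        · rw [List.map_map, List.mem_map]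
          exact ⟨D, hDF, rfl⟩
        · intro x hx
          have hx' : x < n := by simpa using hsubn D hx
          exact (hDmem ⟨x, hx'⟩).1 ((hfs D ⟨x, hx'⟩).2 hx)

end Translate

/-! ### numerical bounds -/

/-- a quasi-polynomial function -/
@[irreducible] def qb (L : ℕ) : ℕ := 2 ^ (20000 * (Nat.log 2 L + 1) ^ 4)

theorem QB4.qb : QB4 qb := ⟨20000, fun L => by unfold CDS.qb; exact le_rfl⟩

theorem qb_mono {L L' : ℕ} (h : L ≤ L') : qb L ≤ qb L' := by
  unfold qb
  refine Nat.pow_le_pow_right (by norm_num) (Nat.mul_le_mul_left _ (Nat.pow_le_pow_left ?_ 4))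
  have := Nat.log_mono_right (b := 2) h
  omega

theorem bmax_le {A : Mat} {Fs : List (List ℕ)} {L : ℕ} (h1 : A.length ≤ L) (h2 : Fs.length ≤ L) :
    (A.length + 2) ^ (2 * bmax A Fs + 1) ≤ qb L := by
  unfold qb
  set z := Nat.log 2 L + 1 with hz
  have hz1 : 1 ≤ z := by omega
  have hL : L < 2 ^ z := lt_log L
  have e1 : A.length.bits.length ≤ z := by
    rw [Nat.size_eq_bits_len]
    exact Nat.size_le.2 (h1.trans_lt hL)
  have e2 : Fs.length.bits.length ≤ z := by
    rw [Nat.size_eq_bits_len]
    exact Nat.size_le.2 (h2.trans_lt hL)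
  have hell : ell A Fs ≤ 2 * z := by unfold ell; omega
  have hkap : kap A Fs ≤ 1352 * z ^ 2 := by
    unfold kap
    have : 6 * ell A Fs + 14 ≤ 26 * z := by omega
    have h3 := Nat.mul_le_mul this this
    nlinarith
  have hz2 : 1 ≤ z ^ 2 := Nat.one_le_pow _ _ hz1
  have hz3 : z ^ 2 ≤ z ^ 3 := Nat.pow_le_pow_right hz1 (by norm_num)
  have hb : bmax A Fs ≤ 4106 * z ^ 3 := by
    unfold bmax
    have g1 : ell A Fs + 1 ≤ 3 * z := by omega
    have g2 : ell A Fs + 2 ≤ 4 * z := by omega
    have g3 := Nat.mul_le_mul hkap g1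
    have g4 := Nat.mul_le_mul (Nat.mul_le_mul_left 4 g2) g1
    have g5 : 1352 * z ^ 2 * (3 * z) = 4056 * z ^ 3 := by ring
    have g6 : 4 * (4 * z) * (3 * z) = 48 * z ^ 2 := by ring
    omega
  have h4 : A.length + 2 ≤ 2 ^ (2 * z) := by
    have e3 : 2 ^ z * 2 ≤ 2 ^ (2 * z) := by
      rw [← pow_succ]
      exact Nat.pow_le_pow_right (by norm_num) (by omega)
    have e4 : 2 ≤ 2 ^ z := by
      calc 2 = 2 ^ 1 := by norm_num
        _ ≤ 2 ^ z := Nat.pow_le_pow_right (by norm_num) hz1
    omega
  calc (A.length + 2) ^ (2 * bmax A Fs + 1) ≤ (2 ^ (2 * z)) ^ (2 * bmax A Fs + 1) :=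
        Nat.pow_le_pow_left h4 _
    _ = 2 ^ (2 * z * (2 * bmax A Fs + 1)) := by rw [← pow_mul]
    _ ≤ 2 ^ (20000 * z ^ 4) := by
        refine Nat.pow_le_pow_right (by norm_num) ?_
        have h5 : 2 * bmax A Fs + 1 ≤ 8213 * z ^ 3 := by omega
        have h6 := Nat.mul_le_mul_left (2 * z) h5
        have h7 : 2 * z * (8213 * z ^ 3) = 16426 * z ^ 4 := by ring
        omega

/-- exponent of the padding -/
def cnt (p : Mat × List (List Bool)) : List Unit :=
  List.replicate (bmax p.1 (p.2.map (idx p.1))) ()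

theorem sz_cnt (p : Mat × List (List Bool)) :
    sz (cnt p) = 2 * bmax p.1 (p.2.map (idx p.1)) + 1 := sz_units _

theorem poly_cnt : Poly cnt := by
  unfold cnt
  have h : Poly (fun p : Mat × List (List Bool) => p.2.map (idx p.1)) := by fun_prop
  exact upoly_bmax (A := fun p : Mat × List (List Bool) => p.1) (by fun_prop) h

attribute [fun_prop] poly_cnt

/-- the padding -/
def padOf (p : Mat × List (List Bool)) : List Unit :=
  List.replicate ((p.1.length + 1) ^ sz (cnt p)) ()

theorem padOf_big (p : Mat × List (List Bool)) :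
    (p.1.length + 1) ^ bmax p.1 (p.2.map (idx p.1)) ≤ (padOf p).length := by
  unfold padOf
  rw [List.length_replicate]
  refine Nat.pow_le_pow_right (by omega) ?_
  rw [sz_cnt]
  omega

theorem solve_pad {n : ℕ} (G : SimpleGraph (Fin n)) (ℱ : List (Finset (Fin n)))
    (hℱ : ∀ D ∈ ℱ, IsMinCDS G D) :
    ∃ o : Option (Finset (Fin n)),
      solve (adjMatrix G, ℱ.map vec) (padOf (adjMatrix G, ℱ.map vec)) = o.map vec ∧
      (∀ D, o = some D → IsMinCDS G D ∧ D ∉ ℱ) ∧ (o = none → ∀ D, IsMinCDS G D → D ∈ ℱ) := by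
  have h := padOf_big (adjMatrix G, ℱ.map vec)
  simp only at h
  exact solve_spec G ℱ hℱ _ h

theorem pad_time {p : Mat × List (List Bool)} {L : ℕ} (h1 : p.1.length ≤ L) (h2 : p.2.length ≤ L) :
    (p.1.length + 1 + 1) ^ sz (cnt p) ≤ qb L := by
  rw [sz_cnt]
  exact bmax_le h1 (by rwa [List.length_map])

/-! ### the enumeration -/

/-- states of the enumeration: the graph, the known solutions, the solutions found by the
algorithm, and the number of solutions still wanted -/
abbrev ES := Mat × List (List Bool) × List (List Bool) × ℕ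

/-- one step of the enumeration: add a new solution, if one is wanted and there is one -/
def estep (p : ES) : Bool × ES :=
  bif decide (p.2.2.2 = 0) then (false, p) else
    (solve (p.1, p.2.1) (padOf (p.1, p.2.1))).elim (false, p)
      fun v => (true, (p.1, v :: p.2.1, v :: p.2.2.1, p.2.2.2 - 1))

theorem estep_zero {p : ES} (h : p.2.2.2 = 0) : estep p = (false, p) := by
  unfold estep
  rw [decide_eq_true h, cond_true]

theorem estep_none {p : ES} (h : solve (p.1, p.2.1) (padOf (p.1, p.2.1)) = none) :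
    estep p = (false, p) := by
  unfold estep
  rw [h, Option.elim_none]
  cases decide (p.2.2.2 = 0) <;> rfl

theorem estep_some {p : ES} {v : List Bool} (h0 : p.2.2.2 ≠ 0)
    (h : solve (p.1, p.2.1) (padOf (p.1, p.2.1)) = some v) :
    estep p = (true, (p.1, v :: p.2.1, v :: p.2.2.1, p.2.2.2 - 1)) := by
  unfold estep
  rw [h, Option.elim_some, decide_eq_false h0, cond_false]

theorem estep_prog : ∃ (prog : Cmd ℕ) (q : Polynomial ℕ), ∀ p : ES,
    Runs prog (inp (bits p)) (inp (bits (estep p)))
      (q.eval (sz p + (p.1.length + 1 + 1) ^ sz (cnt (p.1, p.2.1)))) := by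
  have hm : UPoly (fun p : ES => p.1.length + 1) :=
    (UPoly.length (l := fun p : ES => p.1) (by fun_prop)).add (UPoly.const 1)
  have hc : Poly (fun p : ES => cnt (p.1, p.2.1)) := by fun_prop
  have hg : Poly (fun q : ES × List Unit => bif decide (q.1.2.2.2 = 0) then (false, q.1) else
      (solve (q.1.1, q.1.2.1) q.2).elim (false, q.1)
        fun v => (true, (q.1.1, v :: q.1.2.1, v :: q.1.2.2.1, q.1.2.2.2 - 1))) := by
    fun_prop
  obtain ⟨prog, q, h⟩ := padded hm hc hg
  refine ⟨prog, q, fun p => ?_⟩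
  have h1 := h p
  simp only at h1
  unfold estep padOf
  exact h1

/-- The enumeration. -/
theorem enum_run {n : ℕ} (G : SimpleGraph (Fin n)) : ∀ (k : ℕ) (L New : List (Finset (Fin n))),
    (∀ D ∈ L, IsMinCDS G D) →
    ∃ R : List (Finset (Fin n)), R.Nodup ∧ (∀ D ∈ R, IsMinCDS G D ∧ D ∉ L) ∧ R.length ≤ k ∧
      (R.length < k → ∀ D, IsMinCDS G D → D ∈ R ∨ D ∈ L) ∧
      (∀ i < R.length, (estep ((fun y => (estep y).2)^[i]
        (adjMatrix G, L.map vec, New.map vec, k))).1 = true) ∧
      (estep ((fun y => (estep y).2)^[R.length]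
        (adjMatrix G, L.map vec, New.map vec, k))).1 = false ∧
      (fun y => (estep y).2)^[R.length + 1] (adjMatrix G, L.map vec, New.map vec, k) =
        (adjMatrix G, (R ++ L).map vec, (R ++ New).map vec, k - R.length) ∧
      ∀ i ≤ R.length, ∃ (R' : List (Finset (Fin n))) (k' : ℕ), R' <:+ R ∧ k' ≤ k ∧
        (fun y => (estep y).2)^[i] (adjMatrix G, L.map vec, New.map vec, k) =
          (adjMatrix G, (R' ++ L).map vec, (R' ++ New).map vec, k') := by
  intro k
  induction k with
  | zero =>
    intro L New hmin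
    have he : estep (adjMatrix G, L.map vec, New.map vec, 0) =
        (false, (adjMatrix G, L.map vec, New.map vec, 0)) := estep_zero rfl
    refine ⟨[], List.nodup_nil, by simp, by simp, by simp, by simp, by simp [he],
      by simp [he], ?_⟩
    intro i hi
    obtain rfl : i = 0 := by simpa using hi
    exact ⟨[], 0, List.suffix_rfl, le_rfl, rfl⟩
  | succ k ih =>
    intro L New hmin
    obtain ⟨o, h1, h2, h3⟩ := solve_pad G L hmin
    cases o with
    | none =>
      rw [Option.map_none] at h1
      have he : estep (adjMatrix G, L.map vec, New.map vec, k + 1) =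
          (false, (adjMatrix G, L.map vec, New.map vec, k + 1)) := estep_none h1
      refine ⟨[], List.nodup_nil, by simp, by simp, fun _ D hD => Or.inr (h3 rfl D hD), by simp,
        by simp [he], by simp [he], ?_⟩
      intro i hi
      obtain rfl : i = 0 := by simpa using hi
      exact ⟨[], k + 1, List.suffix_rfl, le_rfl, rfl⟩
    | some D =>
      obtain ⟨hD1, hD2⟩ := h2 D rfl
      rw [Option.map_some] at h1
      have he : estep (adjMatrix G, L.map vec, New.map vec, k + 1) =
          (true, (adjMatrix G, (D :: L).map vec, (D :: New).map vec, k)) :=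
        estep_some (by simp) h1
      obtain ⟨R, g1, g2, g3, g4, g5, g6, g7, g8⟩ := ih (D :: L) (D :: New) (fun E hE => by
          rcases List.mem_cons.1 hE with rfl | h
          · exact hD1
          · exact hmin E h)
      have hs : ∀ i, (fun y => (estep y).2)^[i + 1] (adjMatrix G, L.map vec, New.map vec, k + 1) =
          (fun y => (estep y).2)^[i] (adjMatrix G, (D :: L).map vec, (D :: New).map vec, k) := by
        intro i
        rw [Function.iterate_succ_apply]
        simp only [he]
      have hlen : (R ++ [D]).length = R.length + 1 := by simp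
      refine ⟨R ++ [D], ?_, ?_, by rw [hlen]; omega, ?_, ?_, ?_, ?_, ?_⟩
      · rw [List.nodup_append]
        refine ⟨g1, List.nodup_singleton D, ?_⟩
        intro a ha b hb hab
        rw [List.mem_singleton] at hb
        subst hab hb
        exact (g2 a ha).2 (by simp)
      · intro E hE
        rcases List.mem_append.1 hE with h | h
        · exact ⟨(g2 E h).1, fun h' => (g2 E h).2 (by simp [h'])⟩
        · rw [List.mem_singleton] at h
          subst h
          exact ⟨hD1, hD2⟩
      · intro hlt E hE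
        rw [hlen] at hlt
        rcases g4 (by omega) E hE with h | h
        · exact Or.inl (by simp [h])
        · rcases List.mem_cons.1 h with rfl | h
          · exact Or.inl (by simp)
          · exact Or.inr h
      · intro i hi
        rw [hlen] at hi
        cases i with
        | zero => simp only [Function.iterate_zero, id_eq, he]
        | succ i =>
          rw [hs]
          exact g5 i (by omega)
      · rw [hlen, hs]
        exact g6
      · rw [hlen, hs, g7]
        simp only [List.append_assoc, List.singleton_append, Prod.mk.injEq, true_and]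
        omega
      · intro i hi
        rw [hlen] at hi
        cases i with
        | zero =>
          refine ⟨[], k + 1, List.nil_suffix, le_rfl, rfl⟩
        | succ i =>
          rw [hs]
          obtain ⟨R', k', s1, s2, s3⟩ := g8 i (by omega)
          refine ⟨R' ++ [D], k', ?_, by omega, ?_⟩
          · obtain ⟨t, rfl⟩ := s1
            exact ⟨t, by simp⟩
          · rw [s3]
            simp only [List.append_assoc, List.singleton_append]

theorem enum_prog : ∃ (prog : Cmd ℕ) (τ : ℕ → ℕ), QB4 τ ∧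
    ∀ (n : ℕ) (G : SimpleGraph (Fin n)) (L : List (Finset (Fin n))) (k : ℕ),
      (∀ D ∈ L, IsMinCDS G D) → ∃ R : List (Finset (Fin n)), R.Nodup ∧
      (∀ D ∈ R, IsMinCDS G D ∧ D ∉ L) ∧ R.length ≤ k ∧
      (R.length < k → ∀ D, IsMinCDS G D → D ∈ R ∨ D ∈ L) ∧
      Runs prog (inp (bits (adjMatrix G, L.map vec, k))) (inp (bits (R.map vec)))
        (τ ((bits (adjMatrix G, L.map vec, k)).length + (bits (R.map vec)).length)) := by
  obtain ⟨c, q, hc⟩ := estep_prog
  have h1 : Poly (fun p : Mat × List (List Bool) × ℕ =>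
      ((p.1, p.2.1, [], p.2.2) : ES)) := by fun_prop
  have h2 : Poly (fun p : ES => p.2.2.1) := by fun_prop
  obtain ⟨c1, p1, hc1⟩ := h1
  obtain ⟨c2, p2, hc2⟩ := h2
  refine ⟨Cmd.seq c1 (Cmd.seq (wloop c) c2), fun N => p1.eval N +
    (((N + 1) * (q.eval (4 * N + qb N) + 22) + 2) + p2.eval (4 * N)), ?_, ?_⟩
  · have e1 : QB4 (fun N => N + 1) := QB4.id.add (QB4.const 1)
    have e4 : QB4 (fun N => 4 * N) := (QB4.const 4).mul QB4.id
    exact (QB4.id.poly p1).add (((e1.mul (((e4.add QB4.qb).poly q).add (QB4.const 22))).add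
      (QB4.const 2)).add (e4.poly p2))
  · intro n G L k hmin
    obtain ⟨R, g1, g2, g3, g4, g5, g6, g7, g8⟩ := enum_run G k L [] hmin
    refine ⟨R, g1, g2, g3, g4, ?_⟩
    rw [List.append_nil, List.map_nil] at g7
    simp only [List.append_nil, List.map_nil] at g5 g6 g8
    have hin : (bits (adjMatrix G, L.map vec, k)).length =
        sz (adjMatrix G) + (sz (L.map vec) + sz k + 1) + 1 := by
      rw [bits_length]
      rw [sz_pair, sz_pair]
    have hout : (bits (R.map vec)).length = sz (R.map vec) := bits_length _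
    set N := (bits (adjMatrix G, L.map vec, k)).length + (bits (R.map vec)).length with hN
    set Tm := q.eval (4 * N + qb N) with hTm
    have hst : ∀ (R' : List (Finset (Fin n))) (k' : ℕ), R' <:+ R → k' ≤ k →
        sz ((adjMatrix G, (R' ++ L).map vec, R'.map vec, k') : ES) ≤ 4 * N ∧
        (R' ++ L).length ≤ N := by
      intro R' k' s1 s2
      have t1 : sz (R'.map vec) ≤ sz (R.map vec) := sz_sublist (s1.sublist.map vec)
      have t2 := sz_append (R'.map vec) (L.map vec)
      have t3 := sz_nat_mono_le s2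
      have t4 : sz ((adjMatrix G, (R' ++ L).map vec, R'.map vec, k') : ES) =
          sz (adjMatrix G) + (sz (R'.map vec ++ L.map vec) + (sz (R'.map vec) + sz k' + 1) + 1) +
            1 := by
        rw [sz_pair, sz_pair, sz_pair, List.map_append]
      have t5 := length_lt_sz (R'.map vec)
      have t6 := length_lt_sz (L.map vec)
      rw [List.length_map] at t5 t6
      rw [List.length_append]
      have t7 := sz_pos (adjMatrix G)
      have t8 := sz_pos (L.map vec)
      have t9 := sz_pos k
      constructor <;> omega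
    have hT : ∀ i ≤ R.length, (fun p : ES =>
        q.eval (sz p + (p.1.length + 1 + 1) ^ sz (cnt (p.1, p.2.1))))
        ((fun y => (estep y).2)^[i] (adjMatrix G, L.map vec, [], k)) ≤ Tm := by
      intro i hi
      obtain ⟨R', k', s1, s2, s3⟩ := g8 i hi
      rw [s3]
      simp only
      obtain ⟨t1, t2⟩ := hst R' k' s1 s2
      have s5 := length_lt_sz (adjMatrix G)
      have s7 := pad_time (p := (adjMatrix G, (R' ++ L).map vec)) (L := N)
        (show (adjMatrix G).length ≤ N by omega) (show ((R' ++ L).map vec).length ≤ N by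
          rw [List.length_map]; exact t2)
      refine eval_mono q ?_
      simp only at s7
      omega
    have r1 := hc1 (adjMatrix G, L.map vec, k)
    have r2 := wloop_total hc Tm R.length (adjMatrix G, L.map vec, [], k) hT g5 g6
    rw [g7] at r2
    have r3 := hc2 (adjMatrix G, (R ++ L).map vec, R.map vec, k - R.length)
    refine (r1.seq (r2.seq r3)).mono ?_
    have t1 := eval_mono p1 (show (bits (adjMatrix G, L.map vec, k)).length ≤ N by omega)
    have t2 := eval_mono p2 (show
      (bits ((adjMatrix G, (R ++ L).map vec, R.map vec, k - R.length) : ES)).length ≤ 4 * N by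
        rw [bits_length]
        exact (hst R (k - R.length) List.suffix_rfl (by omega)).1)
    have t3 : R.length ≤ N := by
      have := length_lt_sz (R.map vec)
      rw [List.length_map] at this
      omega
    have t4 : (R.length + 1) * (Tm + 22) ≤ (N + 1) * (Tm + 22) :=
      Nat.mul_le_mul_right _ (by omega)
    beta_reduce
    rw [← hTm]
    omega

/-- **Enumeration in output quasi-polynomial time.** -/
theorem enum_time : ∃ (M : TM2ComputableAux Bool Bool) (C : ℕ),
    ∀ (n : ℕ) (G : SimpleGraph (Fin n)) (L : List (Finset (Fin n))) (k : ℕ),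
      (∀ D ∈ L, IsMinCDS G D) → ∃ R : List (Finset (Fin n)), R.Nodup ∧
      (∀ D ∈ R, IsMinCDS G D ∧ D ∉ L) ∧ R.length ≤ k ∧
      (R.length < k → ∀ D, IsMinCDS G D → D ∈ R ∨ D ∈ L) ∧
      Nonempty (TM2OutputsInTime M.tm
        ((bits (adjMatrix G, L.map vec, k)).map M.inputAlphabet.invFun)
        (some ((bits (R.map vec)).map M.outputAlphabet.invFun))
        (2 ^ (C * (Nat.log 2 ((bits (adjMatrix G, L.map vec, k)).length +
          (bits (R.map vec)).length) + 1) ^ 4))) := by
  obtain ⟨prog, τ, hτ, hprog⟩ := enum_prog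
  obtain ⟨C, hC⟩ := hτ.add (QB4.const 1)
  refine ⟨mach prog, C, fun n G L k hmin => ?_⟩
  obtain ⟨R, h1, h2, h3, h4, h5⟩ := hprog n G L k hmin
  refine ⟨R, h1, h2, h3, h4, ?_⟩
  obtain ⟨h6⟩ := mach_runs h5
  exact ⟨⟨h6.toEvalsTo, h6.steps_le_m.trans (hC _)⟩⟩

end Pool.Agent.H44.CDS
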