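import Pool.Agent.H44.CDS.Loop
import Pool.Graph.R_seed8.H671R2.PolyAuto
import Pool.Graph.R_seed8.H532R2.Bounds

/-!
# The algorithm runs in polynomial time (in the length of the padded input)
-/

set_option autoImplicit false
set_option linter.unusedSectionVars false

namespace Pool.Agent.H44.CDS

open Pool.Agent.NPC Pool.Agent.NPC.H532

variable {α β γ σ : Type} [TEnc α] [TEnc β] [TEnc γ] [TEnc σ]

theorem poly_iterLen {l : α → List β} {s : α → σ} {F : α → σ → σ} (hl : Poly l) (hs : Poly s)
    (hF : Poly (fun p : α × σ => F p.1 p.2)) (Bd : α → ℕ) (hB : PB Bd)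
    (hq : ∀ a, ∀ k ≤ (l a).length, sz ((F a)^[k] (s a)) ≤ Bd a) :
    Poly (fun a => (F a)^[(l a).length] (s a)) := by
  obtain ⟨q, hq'⟩ := hB
  exact Poly.iterLen hl hs hF q fun a k hk => (hq a k hk).trans (hq' a)

theorem sz_sublist {l l' : List β} (h : l.Sublist l') : sz l ≤ sz l' := by
  induction h with
  | slnil => exact le_rfl
  | cons a _ ih => rw [sz_list_cons]; omega
  | cons_cons a _ ih => rw [sz_list_cons, sz_list_cons]; omega

theorem sz_filter_le (l : List β) (p : β → Bool) : sz (l.filter p) ≤ sz l :=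
  sz_sublist List.filter_sublist

@[fun_prop]
theorem poly_rangeLen {l : α → List β} (hl : Poly l) : Poly (fun a => List.range (l a).length) :=
  Poly.range_length hl

@[fun_prop]
theorem poly_adj {A : α → Mat} {i j : α → ℕ} (hA : Poly A) (hi : Poly i) (hj : Poly j) :
    Poly (fun a => adj (A a) (i a) (j a)) := by
  unfold adj
  fun_prop

@[fun_prop]
theorem poly_dmn {A : α → Mat} {D : α → List ℕ} {w : α → ℕ} (hA : Poly A) (hD : Poly D)
    (hw : Poly w) : Poly (fun a => dmn (A a) (D a) (w a)) := by
  unfold dmn
  fun_prop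

@[fun_prop]
theorem poly_rstep {A : α → Mat} {D R : α → List ℕ} (hA : Poly A) (hD : Poly D)
    (hR : Poly R) : Poly (fun a => rstep (A a) (D a) (R a)) := by
  unfold rstep
  fun_prop

@[fun_prop]
theorem poly_rch {A : α → Mat} {D : α → List ℕ} {x : α → ℕ} (hA : Poly A) (hD : Poly D)
    (hx : Poly x) : Poly (fun a => rch (A a) (D a) (x a)) := by
  unfold rch
  refine poly_iterLen (F := fun a R => rstep (A a) (D a) R) hD (by fun_prop) (by fun_prop)
    (fun a => sz (D a) + sz [x a]) ((PB.sz hD).add (PB.sz (by fun_prop))) ?_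
  intro a k _
  cases k with
  | zero => simp
  | succ k =>
    rw [Function.iterate_succ_apply']
    have : sz (rstep (A a) (D a) ((fun R => rstep (A a) (D a) R)^[k] [x a])) ≤ sz (D a) :=
      sz_filter_le _ _
    omega

@[fun_prop]
theorem poly_con {A : α → Mat} {D : α → List ℕ} (hA : Poly A) (hD : Poly D) :
    Poly (fun a => con (A a) (D a)) := by
  unfold con
  fun_prop

@[fun_prop]
theorem poly_cds {A : α → Mat} {D : α → List ℕ} (hA : Poly A) (hD : Poly D) :
    Poly (fun a => cds (A a) (D a)) := by
  unfold cds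
  fun_prop

@[fun_prop]
theorem poly_ncomp {A : α → Mat} {D : α → List ℕ} (hA : Poly A) (hD : Poly D) :
    Poly (fun a => ncomp (A a) (D a)) := by
  unfold ncomp
  fun_prop

@[fun_prop]
theorem poly_nund {A : α → Mat} {D : α → List ℕ} (hA : Poly A) (hD : Poly D) :
    Poly (fun a => nund (A a) (D a)) := by
  unfold nund
  fun_prop

@[fun_prop]
theorem poly_ins {A : α → Mat} {v : α → ℕ} {D : α → List ℕ} (hA : Poly A) (hv : Poly v)
    (hD : Poly D) : Poly (fun a => ins (A a) (v a) (D a)) := by
  unfold ins
  fun_prop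

@[fun_prop]
theorem poly_free {A : α → Mat} {s : α → St} (hA : Poly A) (hs : Poly s) :
    Poly (fun a => free (A a) (s a)) := by
  unfold free
  fun_prop

@[fun_prop]
theorem poly_rest {A : α → Mat} {s : α → St} {S : α → List ℕ} (hA : Poly A) (hs : Poly s)
    (hS : Poly S) : Poly (fun a => rest (A a) (s a) (S a)) := by
  unfold rest
  fun_prop

@[fun_prop]
theorem poly_plus {A : α → Mat} {T X : α → List ℕ} (hA : Poly A) (hT : Poly T)
    (hX : Poly X) : Poly (fun a => plus (A a) (T a) (X a)) := by
  unfold plus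
  fun_prop

@[fun_prop]
theorem poly_live {Fs : α → List (List ℕ)} {Z : α → List ℕ} (hF : Poly Fs) (hZ : Poly Z) :
    Poly (fun a => live (Fs a) (Z a)) := by
  unfold live
  fun_prop

@[fun_prop]
theorem poly_sub {F D : α → List ℕ} (hF : Poly F) (hD : Poly D) :
    Poly (fun a => sub (F a) (D a)) := by
  unfold sub
  fun_prop

@[fun_prop]
theorem poly_miss {F D : α → List ℕ} (hF : Poly F) (hD : Poly D) :
    Poly (fun a => miss (F a) (D a)) := by
  unfold miss
  fun_prop

@[fun_prop]
theorem poly_amin {l : α → List ℕ} {g : α → ℕ → ℕ} (hl : Poly l)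
    (hg : Poly (fun p : α × ℕ => g p.1 p.2)) : Poly (fun a => amin (l a) (g a)) := by
  unfold amin
  have h1 : Poly (fun p : (α × ℕ) × ℕ => g p.1.1 p.1.2) :=
    Poly.comp (g := fun p : α × ℕ => g p.1 p.2) (f := fun p : (α × ℕ) × ℕ => (p.1.1, p.1.2)) hg
      (by fun_prop)
  have h2 : Poly (fun p : (α × ℕ) × ℕ => g p.1.1 p.2) :=
    Poly.comp (g := fun p : α × ℕ => g p.1 p.2) (f := fun p : (α × ℕ) × ℕ => (p.1.1, p.2)) hg
      (by fun_prop)
  fun_prop

@[fun_prop]
theorem poly_trunc {B : α → List Unit} {l : α → List β} (hB : Poly B) (hl : Poly l) :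
    Poly (fun a => trunc (B a) (l a)) := by
  unfold trunc
  fun_prop

@[fun_prop]
theorem poly_sstep {B : α → List Unit} {U : α → List ℕ} {l : α → List (List ℕ)} (hB : Poly B)
    (hU : Poly U) (hl : Poly l) : Poly (fun a => sstep (B a) (U a) (l a)) := by
  unfold sstep
  fun_prop

theorem length_trunc_le (B : List Unit) (l : List β) : (trunc B l).length ≤ B.length := by
  unfold trunc
  simp

theorem mem_of_mem_trunc {B : List Unit} {l : List β} {x : β} (h : x ∈ trunc B l) : x ∈ l := by
  unfold trunc at h
  rw [List.mem_map] at h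
  obtain ⟨⟨y, u⟩, hy, rfl⟩ := h
  exact (List.of_mem_zip hy).1

theorem poly_subs {B : α → List Unit} {U : α → List ℕ} {k : α → ℕ} (hB : Poly B) (hU : Poly U)
    (hk : UPoly k) : Poly (fun a => subs (B a) (U a) (k a)) := by
  unfold subs
  have h := poly_iterLen (l := fun a => List.replicate (k a) ()) (s := fun _ : α => ([[]] : List (List ℕ)))
    (F := fun a l => sstep (B a) (U a) l) hk (by fun_prop) (by fun_prop)
    (fun a => ((B a).length + 1) * (k a * (sz (U a) + 1) + 1 + 1) + 1)
    (((((PB.length hB).add (PB.const 1)).mul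
      ((((PB.of_upoly hk).mul ((PB.sz hU).add (PB.const 1))).add (PB.const 1)).add
        (PB.const 1))).add (PB.const 1))) ?_
  · simpa using h
  · intro a j hj
    rw [List.length_replicate] at hj
    have key : ∀ j, (∀ t ∈ (fun l => sstep (B a) (U a) l)^[j] [[]], t.length ≤ j ∧ ∀ x ∈ t, x ∈ U a) ∧
        ((fun l => sstep (B a) (U a) l)^[j] [[]]).length ≤ (B a).length + 1 := by
      intro j
      induction j with
      | zero => simp
      | succ j ih =>
        rw [Function.iterate_succ_apply']
        constructor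
        · intro t ht
          have h1 := mem_of_mem_trunc ht
          rw [List.mem_flatMap] at h1
          obtain ⟨t', ht', h1⟩ := h1
          have h2 := ih.1 t' ht'
          rcases List.mem_cons.1 h1 with rfl | h1
          · exact ⟨by omega, h2.2⟩
          · obtain ⟨x, hx, rfl⟩ := List.mem_map.1 h1
            refine ⟨by simp; omega, fun y hy => ?_⟩
            rcases List.mem_cons.1 hy with rfl | hy
            · exact hx
            · exact h2.2 y hy
        · exact (length_trunc_le _ _).trans (by omega)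
    obtain ⟨h1, h2⟩ := key j
    have h3 : ∀ t ∈ (fun l => sstep (B a) (U a) l)^[j] [[]], sz t ≤ k a * (sz (U a) + 1) + 1 := by
      intro t ht
      obtain ⟨h4, h5⟩ := h1 t ht
      have h6 : sz t ≤ t.length * (sz (U a) + 1) + 1 :=
        sz_list_le fun x hx => (sz_le_of_mem (h5 x hx)).le
      refine h6.trans ?_
      have h7 : t.length * (sz (U a) + 1) ≤ k a * (sz (U a) + 1) :=
        Nat.mul_le_mul_right _ (h4.trans hj)
      omega
    refine (sz_list_le h3).trans ?_
    have h4 := Nat.mul_le_mul_right (k a * (sz (U a) + 1) + 1 + 1) h2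
    omega

@[fun_prop]
theorem poly_ell {A : α → Mat} {Fs : α → List (List ℕ)} (hA : Poly A) (hF : Poly Fs) :
    Poly (fun a => ell (A a) (Fs a)) := by
  unfold ell
  have h1 : Poly (fun a => (A a).length.bits) := Poly.natBits (Poly.length hA)
  have h2 : Poly (fun a => (Fs a).length.bits) := Poly.natBits (Poly.length hF)
  fun_prop

theorem upoly_ell {A : α → Mat} {Fs : α → List (List ℕ)} (hA : Poly A) (hF : Poly Fs) :
    UPoly (fun a => ell (A a) (Fs a)) := by
  unfold ell
  have h1 : Poly (fun a => (A a).length.bits) := Poly.natBits (Poly.length hA)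
  have h2 : Poly (fun a => (Fs a).length.bits) := Poly.natBits (Poly.length hF)
  exact (UPoly.length h1).add (UPoly.length h2)

theorem upoly_kap {A : α → Mat} {Fs : α → List (List ℕ)} (hA : Poly A) (hF : Poly Fs) :
    UPoly (fun a => kap (A a) (Fs a)) := by
  unfold kap
  have h := ((UPoly.const 6).mul (upoly_ell hA hF)).add (UPoly.const 14)
  exact (UPoly.const 2).mul (h.mul h)

theorem upoly_bmax {A : α → Mat} {Fs : α → List (List ℕ)} (hA : Poly A) (hF : Poly Fs) :
    UPoly (fun a => bmax (A a) (Fs a)) := by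
  unfold bmax
  have h := upoly_ell hA hF
  exact (((upoly_kap hA hF).mul (h.add (UPoly.const 1))).add
    (((UPoly.const 4).mul (h.add (UPoly.const 2))).mul (h.add (UPoly.const 1)))).add (UPoly.const 2)

@[fun_prop]
theorem poly_nocut {A : α → Mat} {Fs : α → List (List ℕ)} {B : α → List Unit} {s : α → St}
    (hA : Poly A) (hF : Poly Fs) (hB : Poly B) (hs : Poly s) :
    Poly (fun a => nocut (A a) (Fs a) (B a) (s a)) := by
  unfold nocut
  have h1 : Poly (fun a => subs (B a) (free (A a) (s a)) (kap (A a) (Fs a))) :=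
    poly_subs hB (by fun_prop) (upoly_kap hA hF)
  fun_prop

@[fun_prop]
theorem poly_long {A : α → Mat} {Fs : α → List (List ℕ)} {s : α → St}
    (hA : Poly A) (hF : Poly Fs) (hs : Poly s) :
    Poly (fun a => long (A a) (Fs a) (s a)) := by
  unfold long
  fun_prop

@[fun_prop]
theorem poly_nosub {Fs : α → List (List ℕ)} {s : α → St} (hF : Poly Fs) (hs : Poly s) :
    Poly (fun a => nosub (Fs a) (s a)) := by
  unfold nosub
  fun_prop

@[fun_prop]
theorem poly_brute {A : α → Mat} {Fs : α → List (List ℕ)} {B : α → List Unit} {s : α → St}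
    (hA : Poly A) (hF : Poly Fs) (hB : Poly B) (hs : Poly s) :
    Poly (fun a => brute (A a) (Fs a) (B a) (s a)) := by
  unfold brute
  have h1 : Poly (fun a => subs (B a) (free (A a) (s a)) (4 * (ell (A a) (Fs a) + 2))) :=
    poly_subs hB (by fun_prop) ((UPoly.const 4).mul ((upoly_ell hA hF).add (UPoly.const 2)))
  fun_prop

@[fun_prop]
theorem poly_acc {A : α → Mat} {Fs : α → List (List ℕ)} {B : α → List Unit} {s : α → St}
    (hA : Poly A) (hF : Poly Fs) (hB : Poly B) (hs : Poly s) :
    Poly (fun a => acc (A a) (Fs a) (B a) (s a)) := by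
  unfold acc
  fun_prop

@[fun_prop]
theorem poly_branch {A : α → Mat} {s : α → St} {v : α → ℕ} (hA : Poly A) (hs : Poly s)
    (hv : Poly v) : Poly (fun a => branch (A a) (s a) (v a)) := by
  unfold branch
  fun_prop

@[fun_prop]
theorem poly_kids {A : α → Mat} {Fs : α → List (List ℕ)} {B : α → List Unit} {s : α → St}
    (hA : Poly A) (hF : Poly Fs) (hB : Poly B) (hs : Poly s) :
    Poly (fun a => kids (A a) (Fs a) (B a) (s a)) := by
  unfold kids
  fun_prop

@[fun_prop]
theorem poly_lstep {A : α → Mat} {Fs : α → List (List ℕ)} {B : α → List Unit}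
    {p : α → Bool × List St} (hA : Poly A) (hF : Poly Fs) (hB : Poly B) (hp : Poly p) :
    Poly (fun a => lstep (A a) (Fs a) (B a) (p a)) := by
  unfold lstep
  fun_prop

/-- sizes of the states -/
theorem loop_sizes (A : Mat) (Fs : List (List ℕ)) (B : List Unit) (Z : List ℕ) (k : ℕ) :
    (((lstep A Fs B)^[k] (false, [([], Z)])).2.length ≤ B.length + 1) ∧
    ∀ s ∈ ((lstep A Fs B)^[k] (false, [([], Z)])).2,
      sz s.1 ≤ sz (List.range A.length) + 1 ∧ sz s.2 ≤ sz (List.range A.length) + sz Z := by
  induction k with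
  | zero => simp
  | succ k ih =>
    rw [Function.iterate_succ_apply']
    constructor
    · exact (length_trunc_le _ _).trans (by omega)
    · intro s hs
      have h1 := mem_of_mem_trunc hs
      rw [List.mem_flatMap] at h1
      obtain ⟨s', hs', h1⟩ := h1
      have h2 := ih.2 s' hs'
      rcases kids_form A Fs B s' with h3 | ⟨v, _, h3⟩
      · rw [h3] at h1
        simp at h1
      · rw [h3] at h1
        unfold branch at h1
        simp only [List.mem_cons, List.not_mem_nil, or_false] at h1
        have h4 : ∀ T, sz (ins A v T) ≤ sz (List.range A.length) := fun T => sz_filter_le _ _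
        rcases h1 with rfl | rfl
        · exact ⟨(h4 _).trans (by omega), h2.2⟩
        · exact ⟨h2.1, (h4 _).trans (by omega)⟩

@[fun_prop]
theorem poly_decB {A : α → Mat} {Fs : α → List (List ℕ)} {B : α → List Unit} {Z : α → List ℕ}
    (hA : Poly A) (hF : Poly Fs) (hB : Poly B) (hZ : Poly Z) :
    Poly (fun a => decB (A a) (Fs a) (B a) (Z a)) := by
  unfold decB
  refine Poly.fst ?_
  have h := poly_iterLen (l := fun a => [false] :: A a)
    (s := fun a => (false, [(([] : List ℕ), Z a)]))
    (F := fun a p => lstep (A a) (Fs a) (B a) p) (by fun_prop) (by fun_prop) (by fun_prop)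
    (fun a => 3 + (((B a).length + 1) * ((sz (List.range (A a).length) + 1) +
      (sz (List.range (A a).length) + sz (Z a)) + 1 + 1) + 1) + 1)
    ((((PB.const 3).add ((((PB.length hB).add (PB.const 1)).mul
      (((((PB.sz (poly_rangeLen hA)).add (PB.const 1)).add
        ((PB.sz (poly_rangeLen hA)).add (PB.sz hZ))).add (PB.const 1)).add (PB.const 1))).add
          (PB.const 1))).add (PB.const 1))) ?_
  · exact h
  · intro a k _
    obtain ⟨h1, h2⟩ := loop_sizes (A a) (Fs a) (B a) (Z a) k
    set p := (lstep (A a) (Fs a) (B a))^[k] (false, [([], Z a)]) with hp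
    have h3 : sz p = sz p.1 + sz p.2 + 1 := sz_pair p.1 p.2
    have h4 := sz_bool_le p.1
    have h5 : sz p.2 ≤ p.2.length * (((sz (List.range (A a).length) + 1) +
      (sz (List.range (A a).length) + sz (Z a)) + 1) + 1) + 1 := by
      refine sz_list_le fun s hs => ?_
      have h6 := h2 s hs
      have h7 : sz s = sz s.1 + sz s.2 + 1 := sz_pair s.1 s.2
      omega
    have h6 := Nat.mul_le_mul_right (((sz (List.range (A a).length) + 1) +
      (sz (List.range (A a).length) + sz (Z a)) + 1) + 1) h1
    change sz p ≤ _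
    omega

@[fun_prop]
theorem poly_fstep {A : α → Mat} {Fs : α → List (List ℕ)} {B : α → List Unit} {Z : α → List ℕ}
    {v : α → ℕ} (hA : Poly A) (hF : Poly Fs) (hB : Poly B) (hZ : Poly Z) (hv : Poly v) :
    Poly (fun a => fstep (A a) (Fs a) (B a) (Z a) (v a)) := by
  unfold fstep
  fun_prop

@[fun_prop]
theorem poly_fold {A : α → Mat} {Fs : α → List (List ℕ)} {B : α → List Unit}
    (hA : Poly A) (hF : Poly Fs) (hB : Poly B) :
    Poly (fun a => (List.range (A a).length).foldl (fstep (A a) (Fs a) (B a)) []) := by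
  refine Poly_foldl (l := fun a => List.range (A a).length) (s := fun _ => ([] : List ℕ))
    (F := fun a Z v => fstep (A a) (Fs a) (B a) Z v) (by fun_prop) (by fun_prop) (by fun_prop)
    (fun a => sz (List.range (A a).length)) (PB.sz (poly_rangeLen hA)) ?_
  intro a k _
  have key : ∀ (l : List ℕ) (Z : List ℕ), sz Z ≤ sz (List.range (A a).length) →
      sz (l.foldl (fstep (A a) (Fs a) (B a)) Z) ≤ sz (List.range (A a).length) := by
    intro l
    induction l with
    | nil => exact fun Z h => h
    | cons v l ih =>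
      intro Z h
      rw [List.foldl_cons]
      refine ih _ ?_
      unfold fstep
      cases decB (A a) (Fs a) (B a) (ins (A a) v Z)
      · exact h
      · exact sz_filter_le _ _
  refine key _ [] ?_
  rw [sz_list_nil]
  exact sz_pos _

@[fun_prop]
theorem poly_next {A : α → Mat} {Fs : α → List (List ℕ)} {B : α → List Unit}
    (hA : Poly A) (hF : Poly Fs) (hB : Poly B) :
    Poly (fun a => next (A a) (Fs a) (B a)) := by
  unfold next
  have h := poly_fold hA hF hB
  have h1 : Poly (fun a => (List.range (A a).length).map fun v =>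
      !decide (v ∈ (List.range (A a).length).foldl (fstep (A a) (Fs a) (B a)) [])) := by
    refine Pool.Agent.NPC.Poly.map (l := fun a => List.range (A a).length) (F := fun a v =>
      !decide (v ∈ (List.range (A a).length).foldl (fstep (A a) (Fs a) (B a)) []))
      (by fun_prop) ?_
    have h2 : Poly (fun p : α × ℕ =>
        (List.range (A p.1).length).foldl (fstep (A p.1) (Fs p.1) (B p.1)) []) :=
      Poly.comp (g := fun a => (List.range (A a).length).foldl (fstep (A a) (Fs a) (B a)) [])
        (f := fun p : α × ℕ => p.1) h (by fun_prop)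
    fun_prop
  fun_prop

/-- the vertices of a bit vector -/
def idx (A : Mat) (v : List Bool) : List ℕ := (List.range A.length).filter fun i => v.getD i false

@[fun_prop]
theorem poly_idx {A : α → Mat} {v : α → List Bool} (hA : Poly A) (hv : Poly v) :
    Poly (fun a => idx (A a) (v a)) := by
  unfold idx
  fun_prop

/-- the algorithm on a graph and a list of known solutions -/
def solve (p : Mat × List (List Bool)) (B : List Unit) : Option (List Bool) :=
  next p.1 (p.2.map (idx p.1)) B

@[fun_prop]
theorem poly_solve {p : α → Mat × List (List Bool)} {B : α → List Unit} (hp : Poly p)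
    (hB : Poly B) : Poly (fun a => solve (p a) (B a)) := by
  unfold solve
  fun_prop

end Pool.Agent.H44.CDS
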