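import Pool.Agent.H44.CDS.Basic

/-!
# The sampling lemma

If a connected dominating set stays one after the removal of any few free vertices, then it
contains one that avoids containing any of few sets each with many free vertices.
-/

set_option autoImplicit false
set_option linter.unusedSectionVars false

namespace Pool.Agent.H44.CDS

open Finset Classical

variable {V : Type} [DecidableEq V]

/-- expectation of a function of a random subset of `R`, elements being chosen independently with
probability `q` -/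
noncomputable def Ex (q : ℝ) (R : Finset V) (g : Finset V → ℝ) : ℝ :=
  ∑ Y ∈ R.powerset, q ^ Y.card * (1 - q) ^ (R.card - Y.card) * g Y

section

variable {q : ℝ}

theorem Ex_empty (g : Finset V → ℝ) : Ex q ∅ g = g ∅ := by simp [Ex]

theorem Ex_insert {a : V} {R : Finset V} (ha : a ∉ R) (g : Finset V → ℝ) :
    Ex q (insert a R) g = q * Ex q R (fun Y => g (insert a Y)) + (1 - q) * Ex q R g := by
  unfold Ex
  rw [sum_powerset_insert ha, add_comm, mul_sum, mul_sum, card_insert_of_notMem ha]
  congr 1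
  · refine sum_congr rfl fun Y hY => ?_
    have h1 : a ∉ Y := fun h => ha (mem_powerset.1 hY h)
    rw [card_insert_of_notMem h1, Nat.add_sub_add_right, pow_succ]
    ring
  · refine sum_congr rfl fun Y hY => ?_
    have h1 : Y.card ≤ R.card := card_le_card (mem_powerset.1 hY)
    rw [Nat.sub_add_comm h1, pow_succ]
    ring

theorem Ex_one (R : Finset V) : Ex q R (fun _ => 1) = 1 := by
  unfold Ex
  simp only [mul_one]
  rw [sum_pow_mul_eq_add_pow]
  simp

theorem Ex_add (R : Finset V) (g h : Finset V → ℝ) :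
    Ex q R (fun Y => g Y + h Y) = Ex q R g + Ex q R h := by
  unfold Ex
  rw [← sum_add_distrib]
  exact sum_congr rfl fun Y _ => by ring

theorem Ex_mul (R : Finset V) (c : ℝ) (g : Finset V → ℝ) :
    Ex q R (fun Y => c * g Y) = c * Ex q R g := by
  unfold Ex
  rw [mul_sum]
  exact sum_congr rfl fun Y _ => by ring

theorem Ex_sum {ι : Type} (s : Finset ι) (R : Finset V) (g : ι → Finset V → ℝ) :
    Ex q R (fun Y => ∑ i ∈ s, g i Y) = ∑ i ∈ s, Ex q R (g i) := by
  unfold Ex
  rw [sum_comm]
  exact sum_congr rfl fun Y _ => by rw [mul_sum]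

theorem Ex_const (R : Finset V) (c : ℝ) : Ex q R (fun _ => c) = c := by
  have := Ex_mul (q := q) R c (fun _ => 1)
  rw [Ex_one] at this
  simpa using this

theorem Ex_mono (hq0 : 0 ≤ q) (hq1 : q ≤ 1) {R : Finset V} {g h : Finset V → ℝ}
    (hgh : ∀ Y ⊆ R, g Y ≤ h Y) : Ex q R g ≤ Ex q R h := by
  refine sum_le_sum fun Y hY => ?_
  refine mul_le_mul_of_nonneg_left (hgh Y (mem_powerset.1 hY)) ?_
  have : 0 ≤ 1 - q := by linarith
  positivity

theorem Ex_nonneg (hq0 : 0 ≤ q) (hq1 : q ≤ 1) {R : Finset V} {g : Finset V → ℝ}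
    (hg : ∀ Y ⊆ R, 0 ≤ g Y) : 0 ≤ Ex q R g := by
  have := Ex_mono hq0 hq1 hg
  rwa [Ex_const] at this

/-- some outcome is at most the expectation -/
theorem exists_le_Ex (hq0 : 0 ≤ q) (hq1 : q ≤ 1) (R : Finset V) (g : Finset V → ℝ) :
    ∃ Y ⊆ R, g Y ≤ Ex q R g := by
  by_contra h
  push Not at h
  have h1 : Ex q R (fun _ => Ex q R g) < Ex q R g := by
    unfold Ex
    refine sum_lt_sum ?_ ?_
    · intro Y hY
      refine mul_le_mul_of_nonneg_left (h Y (mem_powerset.1 hY)).le ?_
      have : 0 ≤ 1 - q := by linarith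
      positivity
    · rcases eq_or_lt_of_le hq1 with h1 | h1
      · refine ⟨R, mem_powerset.2 Subset.rfl, ?_⟩
        have := h R Subset.rfl
        unfold Ex at this
        subst h1
        simpa using this
      · refine ⟨∅, by simp, ?_⟩
        have := h ∅ (empty_subset _)
        unfold Ex at this
        have h2 : 0 < 1 - q := by linarith
        refine mul_lt_mul_of_pos_left this ?_
        simp only [card_empty, pow_zero, Nat.sub_zero, one_mul]
        positivity
  rw [Ex_const] at h1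
  exact lt_irrefl _ h1

theorem Ex_union {R₁ : Finset V} (R₂ : Finset V) (g : Finset V → ℝ) (h : Disjoint R₁ R₂) :
    Ex q (R₁ ∪ R₂) g = Ex q R₁ (fun Y₁ => Ex q R₂ (fun Y₂ => g (Y₁ ∪ Y₂))) := by
  induction R₁ using Finset.induction_on generalizing g with
  | empty => simp [Ex_empty]
  | insert a R ha ih =>
    rw [disjoint_insert_left] at h
    have ha' : a ∉ R ∪ R₂ := by simp [ha, h.1]
    rw [insert_union, Ex_insert ha', Ex_insert ha, ih _ h.2, ih _ h.2]
    simp only [insert_union]

/-- dependence on part of the elements only -/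
theorem Ex_restrict {R₁ R : Finset V} (hR : R₁ ⊆ R) (g : Finset V → ℝ)
    (hg : ∀ Y ⊆ R, g Y = g (Y ∩ R₁)) : Ex q R g = Ex q R₁ g := by
  have h1 : R₁ ∪ (R \ R₁) = R := union_sdiff_of_subset hR
  have h2 : Disjoint R₁ (R \ R₁) := disjoint_sdiff
  calc Ex q R g = Ex q (R₁ ∪ (R \ R₁)) g := by rw [h1]
    _ = Ex q R₁ (fun Y₁ => Ex q (R \ R₁) (fun Y₂ => g (Y₁ ∪ Y₂))) := Ex_union _ _ h2
    _ = Ex q R₁ g := by
      unfold Ex
      refine sum_congr rfl fun Y₁ hY₁ => ?_
      congr 1
      have h3 : ∀ Y₂ ∈ (R \ R₁).powerset, g (Y₁ ∪ Y₂) = g Y₁ := by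
        intro Y₂ hY₂
        rw [mem_powerset] at hY₁ hY₂
        have h4 := hg (Y₁ ∪ Y₂) (union_subset (hY₁.trans hR) (hY₂.trans sdiff_subset))
        have h5 : (Y₁ ∪ Y₂) ∩ R₁ = Y₁ := by
          ext v
          simp only [mem_inter, mem_union]
          constructor
          · rintro ⟨h | h, h'⟩
            · exact h
            · exact absurd h' (mem_sdiff.1 (hY₂ h)).2
          · intro h
            exact ⟨Or.inl h, hY₁ h⟩
        rw [h4, h5]
      calc ∑ Y ∈ (R \ R₁).powerset, q ^ Y.card * (1 - q) ^ ((R \ R₁).card - Y.card) * g (Y₁ ∪ Y)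
          = ∑ Y ∈ (R \ R₁).powerset, q ^ Y.card * (1 - q) ^ ((R \ R₁).card - Y.card) * g Y₁ :=
            sum_congr rfl fun Y hY => by rw [h3 Y hY]
        _ = g Y₁ := Ex_const _ _

/-- the exponential weight of the missing elements -/
theorem Ex_pow {R₁ R : Finset V} (hR : R₁ ⊆ R) (a : ℝ) :
    Ex q R (fun Y => a ^ (R₁ \ Y).card) = (q + (1 - q) * a) ^ R₁.card := by
  rw [Ex_restrict hR]
  · unfold Ex
    rw [← sum_pow_mul_eq_add_pow]
    refine sum_congr rfl fun Y hY => ?_
    beta_reduce
    rw [card_sdiff_of_subset (mem_powerset.1 hY), mul_pow]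
    ring
  · intro Y _
    congr 2
    ext v
    simp only [mem_sdiff, mem_inter]
    tauto

/-- probability of missing a set -/
theorem Ex_miss {R₁ R : Finset V} (hR : R₁ ⊆ R) :
    Ex q R (fun Y => if Disjoint R₁ Y then 1 else 0) = (1 - q) ^ R₁.card := by
  rw [Ex_restrict hR]
  · unfold Ex
    rw [sum_eq_single_of_mem ∅ (by simp)]
    · simp
    · intro Y hY hne
      have h1 : ¬ Disjoint R₁ Y := by
        intro h
        obtain ⟨v, hv⟩ := nonempty_iff_ne_empty.2 hne
        exact (disjoint_left.1 h) (mem_powerset.1 hY hv) hv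
      simp [h1]
  · intro Y _
    congr 1
    rw [eq_iff_iff, disjoint_left, disjoint_left]
    refine forall₂_congr fun v hv => ?_
    simp only [mem_inter, hv, and_true]

/-- probability of not containing a set -/
theorem Ex_notsub {R₁ R : Finset V} (hR : R₁ ⊆ R) :
    Ex q R (fun Y => if R₁ ⊆ Y then 0 else 1) = 1 - q ^ R₁.card := by
  rw [Ex_restrict hR]
  · have h1 : Ex q R₁ (fun Y => (if R₁ ⊆ Y then 0 else 1) + (if R₁ ⊆ Y then (1 : ℝ) else 0)) = 1 := by
      have h0 : (fun Y => (if R₁ ⊆ Y then 0 else 1) + (if R₁ ⊆ Y then (1 : ℝ) else 0)) =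
          fun _ => 1 := by
        funext Y
        split_ifs <;> simp
      rw [h0, Ex_one]
    rw [Ex_add] at h1
    have h2 : Ex q R₁ (fun Y => if R₁ ⊆ Y then (1 : ℝ) else 0) = q ^ R₁.card := by
      unfold Ex
      rw [sum_eq_single_of_mem R₁ (by simp)]
      · simp
      · intro Y hY hne
        have h1 : ¬ R₁ ⊆ Y := by
          intro h
          exact hne (Subset.antisymm (mem_powerset.1 hY) h)
        simp [h1]
    linarith
  · intro Y _
    congr 1
    rw [eq_iff_iff]
    constructor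
    · intro h v hv
      exact mem_inter.2 ⟨h hv, hv⟩
    · intro h v hv
      exact (mem_inter.1 (h hv)).1

/-- probability of containing no set of a disjoint family of sets with at most two elements -/
theorem Ex_disj (hq0 : 0 ≤ q) (hq1 : q ≤ 1) : ∀ (l : List (Finset V)) (R : Finset V),
    (∀ P ∈ l, P ⊆ R ∧ P.card ≤ 2) → l.Pairwise Disjoint →
    Ex q R (fun Y => if ∃ P ∈ l, P ⊆ Y then 0 else 1) ≤ (1 - q ^ 2) ^ l.length := by
  intro l
  induction l with
  | nil =>
    intro R _ _
    simp [Ex_one]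
  | cons P l ih =>
    intro R hl hp
    rw [List.pairwise_cons] at hp
    have hPR := (hl P (by simp)).1
    have h1 : P ∪ (R \ P) = R := union_sdiff_of_subset hPR
    have h2 : Disjoint P (R \ P) := disjoint_sdiff
    have h3 : Ex q R (fun Y => if ∃ P' ∈ P :: l, P' ⊆ Y then 0 else 1) =
        Ex q P (fun Y₁ => Ex q (R \ P) (fun Y₂ =>
          (if P ⊆ Y₁ then 0 else 1) * (if ∃ P' ∈ l, P' ⊆ Y₂ then 0 else 1))) := by
      calc Ex q R (fun Y => if ∃ P' ∈ P :: l, P' ⊆ Y then 0 else 1)
          = Ex q (P ∪ (R \ P)) (fun Y => if ∃ P' ∈ P :: l, P' ⊆ Y then 0 else 1) := by rw [h1]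
        _ = Ex q P (fun Y₁ => Ex q (R \ P) (fun Y₂ =>
            if ∃ P' ∈ P :: l, P' ⊆ Y₁ ∪ Y₂ then 0 else 1)) := Ex_union _ _ h2
        _ = _ := by
          unfold Ex
          refine sum_congr rfl fun Y₁ hY₁ => ?_
          congr 1
          refine sum_congr rfl fun Y₂ hY₂ => ?_
          congr 1
          rw [mem_powerset] at hY₁ hY₂
          have e1 : P ⊆ Y₁ ∪ Y₂ ↔ P ⊆ Y₁ := by
            constructor
            · intro h v hv
              rcases mem_union.1 (h hv) with h' | h'
              · exact h'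
              · exact absurd hv (mem_sdiff.1 (hY₂ h')).2
            · exact fun h => h.trans subset_union_left
          have e2 : ∀ P' ∈ l, (P' ⊆ Y₁ ∪ Y₂ ↔ P' ⊆ Y₂) := by
            intro P' hP'
            constructor
            · intro h v hv
              rcases mem_union.1 (h hv) with h' | h'
              · exact absurd hv (disjoint_left.1 (hp.1 P' hP') (hY₁ h'))
              · exact h'
            · exact fun h => h.trans subset_union_right
          have e3 : (∃ P' ∈ P :: l, P' ⊆ Y₁ ∪ Y₂) ↔ (P ⊆ Y₁ ∨ ∃ P' ∈ l, P' ⊆ Y₂) := by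
            simp only [List.mem_cons, exists_eq_or_imp, e1]
            refine or_congr_right ?_
            refine exists_congr fun P' => and_congr_right fun hP' => e2 P' hP'
          simp only [e3]
          by_cases h : P ⊆ Y₁ <;> simp [h]
    rw [h3]
    have h4 : Ex q P (fun Y₁ => Ex q (R \ P) (fun Y₂ =>
          (if P ⊆ Y₁ then 0 else 1) * (if ∃ P' ∈ l, P' ⊆ Y₂ then 0 else 1))) =
        Ex q (R \ P) (fun Y₂ => if ∃ P' ∈ l, P' ⊆ Y₂ then 0 else 1) * (1 - q ^ P.card) := by
      rw [← Ex_notsub (q := q) (Subset.refl P), ← Ex_mul]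
      congr 1
      funext Y₁
      rw [Ex_mul, mul_comm]
    rw [h4, List.length_cons, pow_succ]
    have h5 := ih (R \ P) (fun P' hP' => ⟨fun v hv => mem_sdiff.2 ⟨(hl P' (by simp [hP'])).1 hv,
      fun hvP => disjoint_left.1 (hp.1 P' hP') hvP hv⟩, (hl P' (by simp [hP'])).2⟩) hp.2
    have h6 : 1 - q ^ P.card ≤ 1 - q ^ 2 := by
      have := pow_le_pow_of_le_one hq0 hq1 (hl P (by simp)).2
      linarith
    have h7 : 0 ≤ 1 - q ^ P.card := by
      have : q ^ P.card ≤ 1 := pow_le_one₀ hq0 hq1
      linarith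
    refine mul_le_mul h5 h6 h7 ?_
    have : q ^ 2 ≤ 1 := pow_le_one₀ hq0 hq1
    exact pow_nonneg (by linarith) _

end

/-- counting fibres -/
theorem card_image_merge {α β : Type} [DecidableEq β] (P : Finset α) (f : α → β) :
    2 * (P.image f).card + (P.filter (fun C => ∃ C' ∈ P, C' ≠ C ∧ f C' = f C)).card ≤
      2 * P.card := by
  have h1 : P.card = ∑ b ∈ P.image f, (P.filter (fun a => f a = b)).card :=
    card_eq_sum_card_image f P
  have h2 : (P.filter (fun C => ∃ C' ∈ P, C' ≠ C ∧ f C' = f C)).card =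
      ∑ b ∈ P.image f, ((P.filter (fun C => ∃ C' ∈ P, C' ≠ C ∧ f C' = f C)).filter
        (fun a => f a = b)).card := by
    refine card_eq_sum_card_fiberwise fun a ha => ?_
    exact mem_coe.2 (mem_image_of_mem f (mem_filter.1 (mem_coe.1 ha)).1)
  have h3 : 2 * (P.image f).card = ∑ b ∈ P.image f, 2 := by
    rw [sum_const, smul_eq_mul, mul_comm]
  rw [h1, h2, h3, mul_sum, ← sum_add_distrib]
  refine sum_le_sum fun b hb => ?_
  obtain ⟨a, ha, hab⟩ := mem_image.1 hb
  have hsub : ((P.filter (fun C => ∃ C' ∈ P, C' ≠ C ∧ f C' = f C)).filter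
      (fun a => f a = b)) ⊆ P.filter (fun a => f a = b) := by
    intro c hc
    simp only [mem_filter] at hc ⊢
    exact ⟨hc.1.1, hc.2⟩
  have h4 := card_le_card hsub
  have ha' : a ∈ P.filter (fun a => f a = b) := mem_filter.2 ⟨ha, hab⟩
  by_cases h5 : 2 ≤ (P.filter (fun a => f a = b)).card
  · omega
  · have h6 : (P.filter (fun a => f a = b)).card = 1 := by
      have : 0 < (P.filter (fun a => f a = b)).card := card_pos.2 ⟨a, ha'⟩
      omega
    have h7 : ((P.filter (fun C => ∃ C' ∈ P, C' ≠ C ∧ f C' = f C)).filter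
      (fun a => f a = b)) = ∅ := by
      rw [eq_empty_iff_forall_notMem]
      intro c hc
      simp only [mem_filter] at hc
      obtain ⟨⟨hc1, c', hc2, hc3, hc4⟩, hc5⟩ := hc
      have h8 := card_le_one.1 h6.le c (mem_filter.2 ⟨hc1, hc5⟩) c'
        (mem_filter.2 ⟨hc2, hc4.trans hc5⟩)
      exact hc3 h8.symm
    rw [h7, card_empty]
    omega

end Pool.Agent.H44.CDS
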