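import Pool.Agent.H44.CDS.Alg

/-!
# Correctness of the algorithm
-/

set_option autoImplicit false

namespace Pool.Agent.H44.CDS

open Finset

/-- valid inputs -/
structure Inp (A : Mat) (G : SimpleGraph ℕ) (Fs : List (List ℕ)) : Prop where
  hA : ∀ i j, adj A i j = true ↔ G.Adj i j
  hF : ∀ F ∈ Fs, F.Nodup ∧ (∀ v ∈ F, v < A.length) ∧ CD G (range A.length) F.toFinset

/-- valid states -/
structure Val (A : Mat) (s : St) : Prop where
  nd : s.1.Nodup
  lt : ∀ v ∈ s.1, v < A.length
  dj : ∀ v ∈ s.1, v ∉ s.2

/-- there is a new solution compatible with the state -/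
def Sat (A : Mat) (G : SimpleGraph ℕ) (Fs : List (List ℕ)) (s : St) : Prop :=
  ∃ D : Finset ℕ, D ⊆ range A.length ∧ (∀ v ∈ s.1, v ∈ D) ∧ (∀ v ∈ D, v ∉ s.2) ∧
    CD G (range A.length) D ∧ ∀ F ∈ Fs, ¬ F.toFinset ⊆ D

/-- exponent bounding the sizes -/
def bmax (A : Mat) (Fs : List (List ℕ)) : ℕ :=
  kap A Fs * (ell A Fs + 1) + 4 * (ell A Fs + 2) * (ell A Fs + 1) + 2

section

variable {A : Mat} {G : SimpleGraph ℕ} {Fs : List (List ℕ)} {B : List Unit} {s : St}

theorem length_le_pow (n : ℕ) : n ≤ 2 ^ n.bits.length := by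
  rw [Nat.size_eq_bits_len]
  exact (Nat.lt_size_self n).le

theorem n_le : A.length ≤ 2 ^ ell A Fs := by
  refine (length_le_pow _).trans (Nat.pow_le_pow_right (by norm_num) ?_)
  unfold ell
  omega

theorem M_le : Fs.length ≤ 2 ^ ell A Fs := by
  refine (length_le_pow _).trans (Nat.pow_le_pow_right (by norm_num) ?_)
  unfold ell
  omega

theorem free_length_le (A : Mat) (s : St) : (free A s).length ≤ A.length := by
  unfold free
  exact (List.length_filter_le _ _).trans (by simp)

theorem pow_mono_le (hB : (A.length + 1) ^ bmax A Fs ≤ B.length) {k : ℕ} (hk : k ≤ bmax A Fs) :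
    ((free A s).length + 1) ^ k ≤ B.length := by
  refine le_trans ?_ hB
  calc ((free A s).length + 1) ^ k ≤ (A.length + 1) ^ k :=
        Nat.pow_le_pow_left (by have := free_length_le A s; omega) k
    _ ≤ (A.length + 1) ^ bmax A Fs := Nat.pow_le_pow_right (by omega) hk

theorem mem_subs_kap (hB : (A.length + 1) ^ bmax A Fs ≤ B.length) (t : List ℕ) :
    t ∈ subs B (free A s) (kap A Fs) ↔ t.length ≤ kap A Fs ∧ ∀ x ∈ t, x ∈ free A s := by
  refine (subs_spec (pow_mono_le hB ?_) _ le_rfl).2 t
  unfold bmax
  nlinarith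

theorem mem_subs_brute (hB : (A.length + 1) ^ bmax A Fs ≤ B.length) (t : List ℕ) :
    t ∈ subs B (free A s) (4 * (ell A Fs + 2)) ↔
      t.length ≤ 4 * (ell A Fs + 2) ∧ ∀ x ∈ t, x ∈ free A s := by
  refine (subs_spec (pow_mono_le hB ?_) _ le_rfl).2 t
  unfold bmax
  nlinarith

theorem rest_nil (hv : Val A s) : (rest A s []).toFinset = s.1.toFinset ∪ (free A s).toFinset := by
  ext v
  simp only [List.mem_toFinset, mem_rest, mem_union, mem_free, List.not_mem_nil,
    not_false_eq_true, and_true]
  have := hv.lt v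
  tauto

theorem rest_eq (hv : Val A s) (S : List ℕ) :
    (rest A s S).toFinset = s.1.toFinset ∪ ((free A s).toFinset \ S.toFinset) := by
  ext v
  simp only [List.mem_toFinset, mem_rest, mem_union, mem_free, mem_sdiff]
  have := hv.lt v
  tauto

theorem acc_sound (hI : Inp A G Fs) (hB : (A.length + 1) ^ bmax A Fs ≤ B.length) (hv : Val A s)
    (h : acc A Fs B s = true) : Sat A G Fs s := by
  unfold acc at h
  rw [Bool.and_eq_true, Bool.or_eq_true, Bool.or_eq_true, Bool.and_eq_true, Bool.and_eq_true] at h
  obtain ⟨h0, h⟩ := h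
  rw [cds_iff hI.hA] at h0
  rcases h with h | ⟨h1, h2, h3⟩ | h
  · -- no live solutions
    refine ⟨(rest A s []).toFinset, ?_, ?_, ?_, h0, ?_⟩
    · intro v hv'
      rw [List.mem_toFinset, mem_rest] at hv'
      simpa using hv'.1
    · intro v hv'
      rw [List.mem_toFinset, mem_rest]
      exact ⟨hv.lt v hv', Or.inl hv'⟩
    · intro v hv'
      rw [List.mem_toFinset, mem_rest] at hv'
      rcases hv'.2 with h' | h'
      · exact hv.dj v h'
      · exact h'.1
    · intro F hF hFD
      have h1 : F ∈ live Fs s.2 := by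
        rw [mem_live]
        refine ⟨hF, fun v hv' => ?_⟩
        have h2 := hFD (List.mem_toFinset.2 hv')
        rw [List.mem_toFinset, mem_rest] at h2
        rcases h2.2 with h' | h'
        · exact hv.dj v h'
        · exact h'.1
      rw [List.isEmpty_iff] at h
      rw [h] at h1
      simp at h1
  · -- the sampling lemma
    set ℱ : Finset (Finset ℕ) := ((live Fs s.2).map List.toFinset).toFinset with hℱ
    have hmem : ∀ F, F ∈ ℱ ↔ ∃ F' ∈ live Fs s.2, F'.toFinset = F := by
      intro F
      simp [hℱ]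
    have hTU : s.1.toFinset ∪ (free A s).toFinset ⊆ range A.length := by
      rw [← rest_nil hv]
      intro v hv'
      rw [List.mem_toFinset, mem_rest] at hv'
      simpa using hv'.1
    have hne : (range A.length).Nonempty := by
      obtain ⟨x, hx⟩ := h0.2.1
      refine ⟨x, ?_⟩
      rw [List.mem_toFinset, mem_rest] at hx
      simpa using hx.1
    have hrob : ∀ S ⊆ (free A s).toFinset, S.card ≤ 2 * (6 * ell A Fs + 14) ^ 2 →
        CD G (range A.length) (s.1.toFinset ∪ ((free A s).toFinset \ S)) := by
      intro S hS hScard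
      unfold nocut at h2
      rw [List.all_eq_true] at h2
      have h4 : S.toList ∈ subs B (free A s) (kap A Fs) := by
        rw [mem_subs_kap hB]
        refine ⟨?_, fun x hx => by simpa using hS (by simpa using hx)⟩
        rw [length_toList]
        refine hScard.trans (le_of_eq ?_)
        unfold kap
        ring
      have h5 := (cds_iff hI.hA).1 (h2 _ h4)
      rw [rest_eq hv, toList_toFinset] at h5
      exact h5
    have hM : ℱ.card ≤ 2 ^ ell A Fs := by
      refine le_trans ?_ (M_le (A := A))
      calc ℱ.card ≤ ((live Fs s.2).map List.toFinset).length := List.toFinset_card_le _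
        _ = (live Fs s.2).length := by rw [List.length_map]
        _ ≤ Fs.length := List.length_filter_le _ _
    have hsub : ∀ F ∈ ℱ, F ⊆ s.1.toFinset ∪ (free A s).toFinset := by
      intro F hF
      obtain ⟨F', hF', rfl⟩ := (hmem F).1 hF
      rw [mem_live] at hF'
      intro v hv'
      rw [List.mem_toFinset] at hv'
      rw [mem_union, List.mem_toFinset, List.mem_toFinset, mem_free]
      have e1 := (hI.hF F' hF'.1).2.1 v hv'
      have e2 := hF'.2 v hv'
      by_cases e3 : v ∈ s.1
      · exact Or.inl e3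
      · exact Or.inr ⟨e1, e3, e2⟩
    have hlong : ∀ F ∈ ℱ, ell A Fs + 2 ≤ (F \ s.1.toFinset).card := by
      intro F hF
      obtain ⟨F', hF', rfl⟩ := (hmem F).1 hF
      unfold long at h3
      rw [List.all_eq_true] at h3
      have h4 := h3 F' hF'
      rw [decide_eq_true_eq] at h4
      refine h4.trans (le_of_eq ?_)
      unfold miss
      rw [← List.toFinset_card_of_nodup (List.Nodup.filter _ (hI.hF F' (mem_live.1 hF').1).1)]
      congr 1
      ext v
      simp
    have hdj : Disjoint s.1.toFinset (free A s).toFinset := by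
      rw [disjoint_left]
      intro v h4 h5
      rw [List.mem_toFinset] at h4 h5
      exact (mem_free.1 h5).2.1 h4
    obtain ⟨D, hD1, hD2, hD3, hD4⟩ := sampling (G := G) (N := range A.length)
      (T := s.1.toFinset) (U := (free A s).toFinset) (ell A Fs)
      (by rw [card_range]; exact n_le) hne hTU hrob ℱ hM hsub hlong hdj
    refine ⟨D, hD2.trans hTU, fun v hv' => hD1 (List.mem_toFinset.2 hv'), ?_, hD3, ?_⟩
    · intro v hv'
      rcases mem_union.1 (hD2 hv') with h' | h'
      · exact hv.dj v (List.mem_toFinset.1 h')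
      · exact (mem_free.1 (List.mem_toFinset.1 h')).2.2
    · intro F hF hFD
      refine hD4 F.toFinset ((hmem _).2 ⟨F, ?_, rfl⟩) hFD
      rw [mem_live]
      refine ⟨hF, fun v hv' => ?_⟩
      rcases mem_union.1 (hD2 (hFD (List.mem_toFinset.2 hv'))) with h' | h'
      · exact hv.dj v (List.mem_toFinset.1 h')
      · exact (mem_free.1 (List.mem_toFinset.1 h')).2.2
  · -- brute force
    unfold brute at h
    rw [List.any_eq_true] at h
    obtain ⟨X, hX, h⟩ := h
    rw [mem_subs_brute hB] at hX
    rw [Bool.and_eq_true, List.all_eq_true, cds_iff hI.hA] at h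
    have hZ : ∀ v ∈ plus A s.1 X, v ∉ s.2 := by
      intro v hv'
      rw [mem_plus] at hv'
      rcases hv'.2 with h' | h'
      · exact hv.dj v h'
      · exact (mem_free.1 (hX.2 v h')).2.2
    refine ⟨(plus A s.1 X).toFinset, ?_, ?_, ?_, h.1, ?_⟩
    · intro v hv'
      rw [List.mem_toFinset, mem_plus] at hv'
      simpa using hv'.1
    · intro v hv'
      rw [List.mem_toFinset, mem_plus]
      exact ⟨hv.lt v hv', Or.inl hv'⟩
    · intro v hv'
      exact hZ v (List.mem_toFinset.1 hv')
    · intro F hF hFD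
      have h1 : F ∈ live Fs s.2 := by
        rw [mem_live]
        exact ⟨hF, fun v hv' => hZ v (List.mem_toFinset.1 (hFD (List.mem_toFinset.2 hv')))⟩
      have h2 := h.2 F h1
      rw [Bool.not_eq_true', ← Bool.not_eq_true, sub_iff] at h2
      exact h2 hFD

/-- the possible forms of `kids` -/
theorem kids_cases (A : Mat) (Fs : List (List ℕ)) (B : List Unit) (s : St) :
    kids A Fs B s = [] ∨ (free A s ≠ [] ∧ cds A (rest A s []) = true ∧ live Fs s.2 ≠ [] ∧
      nosub Fs s = true ∧
      ((nocut A Fs B s = false ∧ kids A Fs B s =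
          branch A s (amin (free A s) fun v => (live Fs (ins A v s.2)).length)) ∨
       (nocut A Fs B s = true ∧ long A Fs s = false ∧ nund A s.1 ≠ 0 ∧ kids A Fs B s =
          branch A s (amin (free A s) fun v => nund A (ins A v s.1))) ∨
       (nocut A Fs B s = true ∧ long A Fs s = false ∧ nund A s.1 = 0 ∧
          2 * (ell A Fs + 2) < ncomp A s.1 ∧ kids A Fs B s =
          branch A s (amin (free A s) fun v => ncomp A (ins A v s.1))))) := by
  unfold kids
  rcases h1 : (free A s).isEmpty
  swap
  · left; simp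
  rcases h2 : cds A (rest A s [])
  · left; simp
  rcases h3 : (live Fs s.2).isEmpty
  swap
  · left; simp
  rcases h4 : nosub Fs s
  · left; simp
  rw [← Bool.not_eq_true, List.isEmpty_iff] at h1 h3
  rcases h5 : nocut A Fs B s
  · right
    simp [h1, h3]
  rcases h6 : long A Fs s
  swap
  · left; simp
  by_cases h7 : nund A s.1 = 0
  swap
  · right
    simp [h1, h3, h7]
  by_cases h8 : ncomp A s.1 ≤ 2 * (ell A Fs + 2)
  · left; simp [h7, h8]
  · right
    simp only [h7, h8, decide_true, decide_false, Bool.not_true, Bool.or_self,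
      cond_false, ne_eq, not_true_eq_false,
      false_and, and_false, false_or, and_true, true_and, h1, h3, not_false_eq_true,
      Bool.true_eq_false]
    omega

theorem kids_form (A : Mat) (Fs : List (List ℕ)) (B : List Unit) (s : St) :
    kids A Fs B s = [] ∨ ∃ v ∈ free A s, kids A Fs B s = branch A s v := by
  rcases kids_cases A Fs B s with h | ⟨h, _, _, _, ⟨_, h'⟩ | ⟨_, _, _, h'⟩ | ⟨_, _, _, _, h'⟩⟩
  · exact Or.inl h
  · exact Or.inr ⟨_, (amin_spec h _).1, h'⟩
  · exact Or.inr ⟨_, (amin_spec h _).1, h'⟩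
  · exact Or.inr ⟨_, (amin_spec h _).1, h'⟩

theorem branch_sound {v : ℕ} {k : St} (hk : k ∈ branch A s v) (h : Sat A G Fs k) (hv : Val A s) :
    Sat A G Fs s := by
  obtain ⟨D, h1, h2, h3, h4⟩ := h
  unfold branch at hk
  simp only [List.mem_cons, List.not_mem_nil, or_false] at hk
  rcases hk with rfl | rfl
  · refine ⟨D, h1, fun w hw => h2 w ?_, h3, h4⟩
    exact mem_ins.2 ⟨hv.lt w hw, Or.inr hw⟩
  · refine ⟨D, h1, h2, fun w hw hw' => h3 w hw ?_, h4⟩
    exact mem_ins.2 ⟨by simpa using h1 hw, Or.inr hw'⟩

theorem branch_complete {v : ℕ} (h : Sat A G Fs s) :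
    ∃ k ∈ branch A s v, Sat A G Fs k := by
  obtain ⟨D, h1, h2, h3, h4⟩ := h
  unfold branch
  by_cases hv : v ∈ D
  · refine ⟨_, List.mem_cons_self, D, h1, fun w hw => ?_, h3, h4⟩
    rcases (mem_ins.1 hw).2 with rfl | h
    · exact hv
    · exact h2 w h
  · refine ⟨_, List.mem_cons_of_mem _ List.mem_cons_self, D, h1, h2, fun w hw hw' => ?_, h4⟩
    rcases (mem_ins.1 hw').2 with rfl | h
    · exact hv hw
    · exact h3 w hw h

theorem free_ins_left {v : ℕ} (hv : v ∈ free A s) :
    (free A (ins A v s.1, s.2)).length + 1 = (free A s).length := by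
  have h1 : free A (ins A v s.1, s.2) = (free A s).filter fun x => !decide (x = v) := by
    unfold free
    rw [List.filter_filter]
    refine List.filter_congr fun x hx => ?_
    have hx' : x < A.length := by simpa using hx
    rw [Bool.eq_iff_iff]
    simp [mem_ins, hx']
    tauto
  have hnd : (free A s).Nodup := List.Nodup.filter _ List.nodup_range
  rw [h1]
  have h2 : ((free A s).filter fun x => !decide (x = v)) = (free A s).erase v := by
    rw [hnd.erase_eq_filter]
    refine List.filter_congr fun x _ => ?_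
    rw [Bool.eq_iff_iff]
    simp
  rw [h2, List.length_erase_of_mem hv]
  have := List.length_pos_of_mem hv
  omega

theorem free_ins_right {v : ℕ} (hv : v ∈ free A s) :
    (free A (s.1, ins A v s.2)).length + 1 = (free A s).length := by
  have h1 : free A (s.1, ins A v s.2) = (free A s).filter fun x => !decide (x = v) := by
    unfold free
    rw [List.filter_filter]
    refine List.filter_congr fun x hx => ?_
    have hx' : x < A.length := by simpa using hx
    rw [Bool.eq_iff_iff]
    simp [mem_ins, hx']
    tauto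
  have hnd : (free A s).Nodup := List.Nodup.filter _ List.nodup_range
  rw [h1]
  have h2 : ((free A s).filter fun x => !decide (x = v)) = (free A s).erase v := by
    rw [hnd.erase_eq_filter]
    refine List.filter_congr fun x _ => ?_
    rw [Bool.eq_iff_iff]
    simp
  rw [h2, List.length_erase_of_mem hv]
  have := List.length_pos_of_mem hv
  omega

theorem branch_free {v : ℕ} (hv : v ∈ free A s) {k : St} (hk : k ∈ branch A s v) :
    (free A k).length + 1 = (free A s).length := by
  unfold branch at hk
  simp only [List.mem_cons, List.not_mem_nil, or_false] at hk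
  rcases hk with rfl | rfl
  · exact free_ins_left hv
  · exact free_ins_right hv

theorem branch_val (hs : Val A s) {v : ℕ} (hv : v ∈ free A s) {k : St} (hk : k ∈ branch A s v) :
    Val A k := by
  have hv' := mem_free.1 hv
  unfold branch at hk
  simp only [List.mem_cons, List.not_mem_nil, or_false] at hk
  rcases hk with rfl | rfl
  · refine ⟨List.Nodup.filter _ List.nodup_range, fun w hw => (mem_ins.1 hw).1, fun w hw => ?_⟩
    rcases (mem_ins.1 hw).2 with rfl | h
    · exact hv'.2.2
    · exact hs.dj w h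
  · refine ⟨hs.nd, hs.lt, fun w hw hw' => ?_⟩
    rcases (mem_ins.1 hw').2 with rfl | h
    · exact hv'.2.1 hw
    · exact hs.dj w hw h

theorem kids_sound (hs : Val A s) {k : St} (hk : k ∈ kids A Fs B s) (h : Sat A G Fs k) :
    Sat A G Fs s := by
  rcases kids_form A Fs B s with h' | ⟨v, hv, h'⟩
  · rw [h'] at hk
    simp at hk
  · rw [h'] at hk
    exact branch_sound hk h hs

theorem kids_val (hs : Val A s) {k : St} (hk : k ∈ kids A Fs B s) : Val A k := by
  rcases kids_form A Fs B s with h' | ⟨v, hv, h'⟩
  · rw [h'] at hk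
    simp at hk
  · rw [h'] at hk
    exact branch_val hs hv hk

theorem kids_free {k : St} (hk : k ∈ kids A Fs B s) :
    (free A k).length + 1 = (free A s).length := by
  rcases kids_form A Fs B s with h' | ⟨v, hv, h'⟩
  · rw [h'] at hk
    simp at hk
  · rw [h'] at hk
    exact branch_free hv hk

theorem kids_complete (hI : Inp A G Fs) (hB : (A.length + 1) ^ bmax A Fs ≤ B.length)
    (hv : Val A s) (h : Sat A G Fs s) :
    acc A Fs B s = true ∨ ∃ k ∈ kids A Fs B s, Sat A G Fs k := by
  have hsat := h
  obtain ⟨D, h1, h2, h3, h4, h5⟩ := h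
  have hN : (rest A s []).toFinset ⊆ range A.length := by
    intro v hv'
    rw [List.mem_toFinset, mem_rest] at hv'
    simpa using hv'.1
  have hDr : D ⊆ (rest A s []).toFinset := by
    intro v hv'
    rw [List.mem_toFinset, mem_rest]
    have e1 := h1 hv'
    have e2 := h3 v hv'
    rw [mem_range] at e1
    exact ⟨e1, Or.inr ⟨e2, by simp⟩⟩
  have hcds : cds A (rest A s []) = true := (cds_iff hI.hA).2 (h4.mono hDr hN)
  have hnosub : nosub Fs s = true := by
    unfold nosub
    rw [List.all_eq_true]
    intro F hF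
    rw [Bool.not_eq_true', ← Bool.not_eq_true, sub_iff]
    intro hFs
    refine h5 F (mem_live.1 hF).1 fun v hv' => h2 v ?_
    exact List.mem_toFinset.1 (hFs hv')
  by_cases hlive : live Fs s.2 = []
  · left
    unfold acc
    simp [hcds, hlive]
  by_cases hfree : free A s = []
  · exfalso
    obtain ⟨F, hF⟩ := List.exists_mem_of_ne_nil _ hlive
    unfold nosub at hnosub
    rw [List.all_eq_true] at hnosub
    have h6 := hnosub F hF
    rw [Bool.not_eq_true', ← Bool.not_eq_true, sub_iff] at h6
    apply h6
    intro v hv'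
    rw [List.mem_toFinset] at hv' ⊢
    by_contra hvT
    have e1 : v ∈ free A s :=
      mem_free.2 ⟨(hI.hF F (mem_live.1 hF).1).2.1 v hv', hvT, (mem_live.1 hF).2 v hv'⟩
    rw [hfree] at e1
    simp at e1
  have hbr : ∀ v, kids A Fs B s = branch A s v → acc A Fs B s = true ∨
      ∃ k ∈ kids A Fs B s, Sat A G Fs k := by
    intro v hk
    rw [hk]
    exact Or.inr (branch_complete hsat)
  have hlive' : (live Fs s.2).isEmpty = false := by
    rw [← Bool.not_eq_true, List.isEmpty_iff]
    exact hlive
  have hfree' : (free A s).isEmpty = false := by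
    rw [← Bool.not_eq_true, List.isEmpty_iff]
    exact hfree
  rcases hcut : nocut A Fs B s
  · refine hbr (amin (free A s) fun v => (live Fs (ins A v s.2)).length) ?_
    unfold kids
    simp [hcds, hnosub, hlive', hfree', hcut]
  rcases hlong : long A Fs s
  swap
  · left
    unfold acc
    simp [hcds, hnosub, hcut, hlong]
  by_cases hund : nund A s.1 = 0
  swap
  · refine hbr (amin (free A s) fun v => nund A (ins A v s.1)) ?_
    unfold kids
    simp [hcds, hnosub, hlive', hfree', hcut, hlong, hund]
  by_cases hcomp : ncomp A s.1 ≤ 2 * (ell A Fs + 2)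
  swap
  · refine hbr (amin (free A s) fun v => ncomp A (ins A v s.1)) ?_
    unfold kids
    simp [hcds, hnosub, hlive', hfree', hcut, hlong, hund, hcomp]
  -- brute force succeeds
  left
  have hTD : s.1.toFinset ⊆ D := fun v hv' => h2 v (List.mem_toFinset.1 hv')
  have hdom : Dom G (range A.length) s.1.toFinset := by
    rw [nund_eq hI.hA, card_eq_zero, und_eq_empty] at hund
    exact hund
  have hTne : s.1.toFinset.Nonempty := by
    obtain ⟨x, hx⟩ := h4.2.1
    rcases hdom x (h1 hx) with h | ⟨d, hd, _⟩
    · exact ⟨x, h⟩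
    · exact ⟨d, hd⟩
  rw [ncomp_eq hI.hA hv.nd] at hcomp
  obtain ⟨D', hD1, hD2, hD3, hD4⟩ := small_solution (2 * (ell A Fs + 2)) s.1.toFinset D
    (by omega) hTne hdom hTD h1 h4
  have hX : (D' \ s.1.toFinset).toList ∈ subs B (free A s) (4 * (ell A Fs + 2)) := by
    rw [mem_subs_brute hB]
    refine ⟨by rw [length_toList]; omega, fun x hx => ?_⟩
    rw [mem_toList, mem_sdiff] at hx
    have e1 := h1 (hD2 hx.1)
    rw [mem_range] at e1
    exact mem_free.2 ⟨e1, fun h => hx.2 (List.mem_toFinset.2 h), h3 x (hD2 hx.1)⟩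
  have hplus : (plus A s.1 (D' \ s.1.toFinset).toList).toFinset = D' := by
    ext x
    rw [List.mem_toFinset, mem_plus, mem_toList, mem_sdiff, List.mem_toFinset]
    constructor
    · rintro ⟨_, h | h⟩
      · exact hD1 (List.mem_toFinset.2 h)
      · exact h.1
    · intro h
      have e1 := h1 (hD2 h)
      rw [mem_range] at e1
      refine ⟨e1, ?_⟩
      by_cases hxT : x ∈ s.1
      · exact Or.inl hxT
      · exact Or.inr ⟨h, hxT⟩
  have hbrute : brute A Fs B s = true := by
    unfold brute
    rw [List.any_eq_true]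
    refine ⟨_, hX, ?_⟩
    rw [Bool.and_eq_true, cds_iff hI.hA, hplus, List.all_eq_true]
    refine ⟨hD3, fun F hF => ?_⟩
    rw [Bool.not_eq_true', ← Bool.not_eq_true, sub_iff, hplus]
    intro hFD
    exact h5 F (mem_live.1 hF).1 (hFD.trans hD2)
  unfold acc
  simp [hcds, hbrute]

end

end Pool.Agent.H44.CDS
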